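import Mathlib

/-!
# The traces of the exterior powers of the standard representation of `Sp(2g)`
-/

set_option autoImplicit false

open Finset MvPolynomial

namespace Pool.Agent.Q167.FD

section

variable {g : ℕ}

/-- the eigenvalues -/
noncomputable def ev (t : Fin g → ℝ) (x : Fin g × Bool) : ℂ :=
  Complex.exp (((if x.2 then t x.1 else -t x.1 : ℝ) : ℂ) * Complex.I)

/-- the trace of the exterior power -/
noncomputable def E (k : ℕ) (t : Fin g → ℝ) : ℂ :=
  ∑ S ∈ (univ : Finset (Fin g × Bool)).powersetCard k, ∏ x ∈ S, ev t x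

/-- the coordinates -/
noncomputable def yy (t : Fin g → ℝ) (j : Fin g) : ℝ := 2 * Real.cos (t j)

/-- the coefficients of the relation -/
noncomputable def cf (g K k : ℕ) : ℤ :=
  ((Polynomial.X ^ k * (1 + Polynomial.X ^ 2) ^ (g - k) : Polynomial ℤ)).coeff K

theorem ev_pair (t : Fin g → ℝ) (j : Fin g) : ev t (j, true) + ev t (j, false) = (yy t j : ℂ) := by
  unfold ev yy
  simp only [if_true, Bool.false_eq_true, if_false]
  push_cast
  rw [Complex.cos]
  ring_nf

theorem ev_mul (t : Fin g → ℝ) (j : Fin g) : ev t (j, true) * ev t (j, false) = 1 := by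
  unfold ev
  simp only [if_true, Bool.false_eq_true, if_false]
  rw [← Complex.exp_add]
  push_cast
  rw [neg_mul, add_neg_cancel, Complex.exp_zero]

theorem powerset_sum {α M : Type*} [Fintype α] [DecidableEq α] [AddCommMonoid M] (F : Finset α → M) :
    ∑ S ∈ (univ : Finset α).powerset, F S =
      ∑ k ∈ range (Fintype.card α + 1), ∑ S ∈ (univ : Finset α).powersetCard k, F S := by
  rw [Finset.sum_powerset]
  rfl

theorem coeff_prod_one_add {α : Type*} [Fintype α] [DecidableEq α] (f : α → ℂ) (K : ℕ) :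
    (∏ x, (1 + Polynomial.C (f x) * Polynomial.X) : Polynomial ℂ).coeff K =
      ∑ S ∈ (univ : Finset α).powersetCard K, ∏ x ∈ S, f x := by
  rw [Finset.prod_one_add, Polynomial.finsetSum_coeff]
  have h1 : ∀ S ∈ (univ : Finset α).powerset,
      (∏ x ∈ S, (Polynomial.C (f x) * Polynomial.X) : Polynomial ℂ).coeff K =
      if S.card = K then ∏ x ∈ S, f x else 0 := by
    intro S _
    rw [prod_mul_distrib, prod_const, ← map_prod, Polynomial.coeff_C_mul_X_pow]
    split_ifs with h1 h2 h2
    · rfl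
    · exact absurd h1.symm h2
    · exact absurd h2.symm h1
    · rfl
  rw [sum_congr rfl h1, ← sum_filter]
  refine sum_congr ?_ fun _ _ => rfl
  ext S
  simp [mem_powersetCard]

/-- **The traces of the exterior powers.** -/
theorem E_eq (K : ℕ) (t : Fin g → ℝ) :
    E K t = ((∑ k ∈ range (g + 1), (cf g K k : ℝ) * aeval (yy t) (esymm (Fin g) ℤ k) : ℝ) : ℂ) := by
  unfold E
  rw [← coeff_prod_one_add]
  have h1 : (∏ x : Fin g × Bool, (1 + Polynomial.C (ev t x) * Polynomial.X) : Polynomial ℂ) =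
      ∏ j : Fin g, (Polynomial.C (yy t j : ℂ) * Polynomial.X + (1 + Polynomial.X ^ 2)) := by
    rw [Fintype.prod_prod_type]
    refine prod_congr rfl fun j _ => ?_
    rw [Fintype.prod_bool, ← ev_pair, map_add]
    have h2 : (Polynomial.C (ev t (j, true)) * Polynomial.C (ev t (j, false)) : Polynomial ℂ) = 1 := by
      rw [← map_mul, ev_mul, map_one]
    linear_combination (Polynomial.X ^ 2) * h2
  rw [h1, Finset.prod_add, powerset_sum, Fintype.card_fin, Polynomial.finsetSum_coeff]
  push_cast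
  refine sum_congr rfl fun k _ => ?_
  rw [Polynomial.finsetSum_coeff]
  have h3 : ∀ S ∈ (univ : Finset (Fin g)).powersetCard k,
      ((∏ i ∈ S, (Polynomial.C (yy t i : ℂ) * Polynomial.X)) *
        ∏ i ∈ univ \ S, (1 + Polynomial.X ^ 2 : Polynomial ℂ)).coeff K =
      (∏ i ∈ S, (yy t i : ℂ)) * (cf g K k : ℂ) := by
    intro S hS
    rw [mem_powersetCard] at hS
    rw [prod_const, card_sdiff_of_subset hS.1, card_univ, Fintype.card_fin, hS.2,
      prod_mul_distrib, prod_const, hS.2, ← map_prod, mul_assoc, Polynomial.coeff_C_mul]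
    congr 1
    unfold cf
    have h4 := Polynomial.coeff_map (p := (Polynomial.X ^ k * (1 + Polynomial.X ^ 2) ^ (g - k) :
      Polynomial ℤ)) (Int.castRingHom ℂ) K
    rw [eq_intCast] at h4
    rw [← h4]
    simp
  rw [sum_congr rfl h3, ← sum_mul, mul_comm]
  congr 1
  unfold esymm
  rw [map_sum]
  push_cast
  refine sum_congr rfl fun S _ => ?_
  rw [map_prod]
  push_cast
  refine prod_congr rfl fun i _ => ?_
  rw [aeval_X]

theorem cf_self {K : ℕ} : cf g K K = 1 := by
  unfold cf
  rw [Polynomial.coeff_X_pow_mul', if_pos le_rfl, Nat.sub_self, Polynomial.coeff_zero_eq_eval_zero]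
  simp

theorem cf_of_lt {K k : ℕ} (h : K < k) : cf g K k = 0 := by
  unfold cf
  rw [Polynomial.coeff_X_pow_mul', if_neg (by omega)]

/-- the real traces -/
noncomputable def Er (k : ℕ) (t : Fin g → ℝ) : ℝ := (E k t).re

theorem E_real (k : ℕ) (t : Fin g → ℝ) : E k t = (Er k t : ℂ) := by
  unfold Er
  rw [E_eq, Complex.ofReal_re]

/-- the polynomials -/
noncomputable def Pk (g K : ℕ) : MvPolynomial (Fin g) ℤ :=
  ∑ k ∈ range (g + 1), C (cf g K k) * esymm (Fin g) ℤ k

theorem Pk_symm (K : ℕ) : (Pk g K).IsSymmetric := by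
  intro σ
  unfold Pk
  rw [map_sum]
  refine sum_congr rfl fun k _ => ?_
  rw [map_mul, rename_C, esymm_isSymmetric (Fin g) ℤ k σ]

theorem Er_eq (K : ℕ) (t : Fin g → ℝ) : Er K t = aeval (yy t) (Pk g K) := by
  unfold Er Pk
  rw [E_eq, Complex.ofReal_re, map_sum]
  refine sum_congr rfl fun k _ => ?_
  rw [map_mul, aeval_C]
  simp

/-- the ring generated by the traces -/
noncomputable def RS (g : ℕ) : Subalgebra ℤ ((Fin g → ℝ) → ℝ) :=
  Algebra.adjoin ℤ (Set.range fun (k : Fin g) => Er (g := g) ((k : ℕ) + 1))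

theorem esymm_mem (K : ℕ) (hK : K ≤ g) :
    (fun t : Fin g → ℝ => aeval (yy t) (esymm (Fin g) ℤ K)) ∈ RS g := by
  induction K using Nat.strong_induction_on with
  | _ K ih =>
    rcases Nat.eq_zero_or_pos K with rfl | hK0
    · have : (fun t : Fin g → ℝ => aeval (yy t) (esymm (Fin g) ℤ 0)) = 1 := by
        funext t
        simp
      rw [this]
      exact one_mem _
    · have h1 : (fun t : Fin g → ℝ => aeval (yy t) (esymm (Fin g) ℤ K)) =
          Er (g := g) K - ∑ k ∈ range K, (cf g K k) •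
            (fun t : Fin g → ℝ => aeval (yy t) (esymm (Fin g) ℤ k)) := by
        funext t
        rw [Pi.sub_apply, Finset.sum_apply]
        unfold Er
        rw [E_eq, Complex.ofReal_re]
        have h2 : range (g + 1) = range (K + 1) ∪ (range (g + 1) \ range (K + 1)) := by
          rw [union_sdiff_of_subset]
          exact range_subset_range.2 (by omega)
        have h3 : ∑ k ∈ range (g + 1), (cf g K k : ℝ) * aeval (yy t) (esymm (Fin g) ℤ k) =
            ∑ k ∈ range (K + 1), (cf g K k : ℝ) * aeval (yy t) (esymm (Fin g) ℤ k) := by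
          symm
          refine sum_subset (range_subset_range.2 (by omega)) fun k _ hk => ?_
          rw [mem_range] at hk
          rw [cf_of_lt (by omega), Int.cast_zero, zero_mul]
        rw [h3, sum_range_succ, cf_self, Int.cast_one, one_mul]
        have h4 : ∀ k ∈ range K, ((cf g K k) • (fun t : Fin g → ℝ =>
            aeval (yy t) (esymm (Fin g) ℤ k))) t =
            (cf g K k : ℝ) * aeval (yy t) (esymm (Fin g) ℤ k) := by
          intro k _
          rw [Pi.smul_apply, zsmul_eq_mul]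
        rw [sum_congr rfl h4]
        ring
      rw [h1]
      refine sub_mem ?_ (sum_mem fun k hk => ?_)
      · apply Algebra.subset_adjoin
        refine ⟨⟨K - 1, by omega⟩, ?_⟩
        simp only
        rw [Nat.sub_add_cancel hK0]
      · rw [mem_range] at hk
        exact zsmul_mem (ih k hk (by omega)) _

/-- symmetric polynomials -/
theorem symm_mem {P : MvPolynomial (Fin g) ℤ} (hP : P.IsSymmetric) :
    (fun t : Fin g → ℝ => aeval (yy t) P) ∈ RS g := by
  obtain ⟨Q, hQ⟩ := esymmAlgHom_surjective (σ := Fin g) ℤ (n := g) (by simp)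
    (⟨P, hP⟩ : symmetricSubalgebra (Fin g) ℤ)
  have h1 : P = aeval (fun i : Fin g => esymm (Fin g) ℤ (i + 1)) Q := by
    rw [← esymmAlgHom_apply, hQ]
  have h2 : (fun t : Fin g → ℝ => aeval (yy t) P) =
      aeval (fun (i : Fin g) (t : Fin g → ℝ) => aeval (yy t) (esymm (Fin g) ℤ (i + 1))) Q := by
    funext t
    have h3 : (Pi.evalAlgHom ℤ (fun _ : Fin g → ℝ => ℝ) t)
        (aeval (fun (i : Fin g) (t : Fin g → ℝ) => aeval (yy t) (esymm (Fin g) ℤ (i + 1))) Q) =
        aeval (fun i : Fin g => aeval (yy t) (esymm (Fin g) ℤ (i + 1))) Q := by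
      rw [← AlgHom.comp_apply]
      congr 1
      ext i
      simp
    rw [Pi.evalAlgHom_apply] at h3
    rw [h3, h1, ← AlgHom.comp_apply]
    congr 1
    ext i
    simp
  rw [h2]
  have h4 : aeval (fun (i : Fin g) (t : Fin g → ℝ) => aeval (yy t) (esymm (Fin g) ℤ (i + 1))) Q ∈
      Algebra.adjoin ℤ (Set.range fun (i : Fin g) (t : Fin g → ℝ) =>
        aeval (yy t) (esymm (Fin g) ℤ (i + 1))) := by
    rw [Algebra.adjoin_range_eq_range_aeval]
    exact ⟨Q, rfl⟩
  refine (Algebra.adjoin_le ?_ : _ ≤ RS g) h4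
  rintro _ ⟨i, rfl⟩
  exact esymm_mem _ (by have := i.2; omega)

/-- the character of the tensor product of the exterior powers -/
noncomputable def chR (n : Fin g → ℕ) (t : Fin g → ℝ) : ℝ := ∏ k : Fin g, Er ((k : ℕ) + 1) t ^ n k

/-- elements of the ring are integral combinations of characters -/
theorem RS_expand {f : (Fin g → ℝ) → ℝ} (hf : f ∈ RS g) :
    ∃ Q : MvPolynomial (Fin g) ℤ, ∀ t, f t = ∑ n ∈ Q.support, ((Q.coeff n : ℤ) : ℝ) * chR n t := by
  unfold RS at hf
  rw [Algebra.adjoin_range_eq_range_aeval] at hf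
  obtain ⟨Q, rfl⟩ := hf
  refine ⟨Q, fun t => ?_⟩
  have h3 : (Pi.evalAlgHom ℤ (fun _ : Fin g → ℝ => ℝ) t)
      (aeval (fun (k : Fin g) => Er (g := g) ((k : ℕ) + 1)) Q) =
      aeval (fun k : Fin g => Er ((k : ℕ) + 1) t) Q := by
    rw [← AlgHom.comp_apply]
    congr 1
    ext i
    simp
  rw [Pi.evalAlgHom_apply] at h3
  have h4 : (aeval (fun (k : Fin g) => Er (g := g) ((k : ℕ) + 1))).toRingHom Q t =
      aeval (fun k : Fin g => Er ((k : ℕ) + 1) t) Q := h3
  rw [h4, aeval_def, eval₂_eq']
  rfl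

/-- the orbit sums -/
noncomputable def ms (a : Fin g → ℤ) (t : Fin g → ℝ) : ℝ :=
  ∑ σ : Equiv.Perm (Fin g), ∏ j, (2 * Real.cos (a j * t (σ j)))

theorem ms_mem (a : Fin g → ℤ) : ms (g := g) a ∈ RS g := by
  set P : MvPolynomial (Fin g) ℤ := ∑ σ : Equiv.Perm (Fin g),
    ∏ j, Polynomial.aeval (X (σ j)) (Polynomial.Chebyshev.C ℤ (a j)) with hP
  have hs : P.IsSymmetric := by
    intro τ
    rw [hP, map_sum]
    refine Fintype.sum_equiv (Equiv.mulLeft τ) _ _ fun σ => ?_
    rw [map_prod]
    refine prod_congr rfl fun j _ => ?_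
    rw [← Polynomial.aeval_algHom_apply, rename_X]
    rfl
  have h1 : ms (g := g) a = fun t => aeval (yy t) P := by
    funext t
    unfold ms
    rw [hP, map_sum]
    refine sum_congr rfl fun σ _ => ?_
    rw [map_prod]
    refine prod_congr rfl fun j _ => ?_
    rw [← Polynomial.aeval_algHom_apply, aeval_X, ← Polynomial.Chebyshev.C_two_mul_real_cos]
    unfold yy
    rw [← Polynomial.Chebyshev.map_C (Int.castRingHom ℝ), Polynomial.eval_map,
      Polynomial.aeval_def]
    rfl
  rw [h1]
  exact symm_mem hs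

/-- **The orbit sums are universal integral combinations of the characters.** -/
theorem ms_expand (a : Fin g → ℤ) : ∃ Q : MvPolynomial (Fin g) ℤ, ∀ t,
    ms a t = ∑ n ∈ Q.support, ((Q.coeff n : ℤ) : ℝ) * chR n t := RS_expand (ms_mem a)

end

end Pool.Agent.Q167.FD
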