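import Pool.Agent.Q167.FD.Alg

/-!
# Characters as functions of the cosines
-/

set_option autoImplicit false

open Finset MvPolynomial

namespace Pool.Agent.Q167.FD

section

variable {g : ℕ}

/-- the polynomial of the character -/
noncomputable def Pn (n : Fin g → ℕ) : MvPolynomial (Fin g) ℤ :=
  ∏ k : Fin g, Pk g ((k : ℕ) + 1) ^ n k

theorem Pn_symm (n : Fin g → ℕ) : (Pn n).IsSymmetric := by
  intro σ
  unfold Pn
  rw [map_prod]
  refine prod_congr rfl fun k _ => ?_
  rw [map_pow, Pk_symm _ σ]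

theorem chR_eq (n : Fin g → ℕ) (t : Fin g → ℝ) : chR n t = aeval (yy t) (Pn n) := by
  unfold chR Pn
  rw [map_prod]
  refine prod_congr rfl fun k _ => ?_
  rw [map_pow, Er_eq]

/-- the character as a function of the cosines -/
noncomputable def Fn (n : Fin g → ℕ) (x : Fin g → ℝ) : ℝ := aeval (fun j => 2 * x j) (Pn n)

theorem aeval_cast (P : MvPolynomial (Fin g) ℤ) (x : Fin g → ℝ) :
    aeval x P = eval x (map (Int.castRingHom ℝ) P) := by
  rw [eval_map, aeval_def]
  rfl

theorem Fn_cont (n : Fin g → ℕ) : Continuous (Fn n) := by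
  unfold Fn
  simp_rw [aeval_cast]
  exact (MvPolynomial.continuous_eval _).comp (by fun_prop)

theorem Fn_symm (n : Fin g → ℕ) (σ : Equiv.Perm (Fin g)) (x : Fin g → ℝ) :
    Fn n (fun j => x (σ j)) = Fn n x := by
  unfold Fn
  conv_rhs => rw [← Pn_symm n σ]
  rw [aeval_rename]
  rfl

theorem Fn_cos (n : Fin g → ℕ) (t : Fin g → ℝ) : Fn n (fun j => Real.cos (t j)) = chR n t := by
  rw [chR_eq]
  rfl

theorem cos_pow' (n : ℕ) (x : ℝ) : (2 * Real.cos x) ^ n =
    ∑ k ∈ range (n + 1), ((n.choose k : ℝ) / 2) * (2 * Real.cos (((n : ℤ) - 2 * k : ℤ) * x)) := by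
  have h1 : ((2 * Real.cos x : ℝ) : ℂ) ^ n = ∑ k ∈ range (n + 1),
      (n.choose k : ℂ) * Complex.exp (((((n : ℤ) - 2 * k : ℤ) * x : ℝ) : ℂ) * Complex.I) := by
    push_cast
    rw [Complex.cos, mul_div_cancel₀ _ (two_ne_zero), add_comm, add_pow]
    refine sum_congr rfl fun k hk => ?_
    rw [mem_range] at hk
    rw [← Complex.exp_nat_mul, ← Complex.exp_nat_mul, ← Complex.exp_add, mul_comm]
    congr 2
    rw [Nat.cast_sub (by omega)]
    ring
  have h2 := congrArg Complex.re h1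
  rw [← Complex.ofReal_pow, Complex.ofReal_re, Complex.re_sum] at h2
  rw [h2]
  refine sum_congr rfl fun k _ => ?_
  have h3 : ((n.choose k : ℂ)) = (((n.choose k : ℝ)) : ℂ) := by push_cast; rfl
  rw [h3, Complex.re_ofReal_mul, Complex.exp_ofReal_mul_I_re]
  ring

/-- monomials -/
theorem symz_mon (d : Fin g → ℕ) :
    (fun t : Fin g → ℝ => ∑ σ : Equiv.Perm (Fin g), ∏ j, yy t (σ j) ^ d j) ∈
      Submodule.span ℝ (Set.range (ms (g := g))) := by
  have h1 : (fun t : Fin g → ℝ => ∑ σ : Equiv.Perm (Fin g), ∏ j, yy t (σ j) ^ d j) =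
      ∑ k ∈ Fintype.piFinset (fun j => range (d j + 1)),
        (∏ j, (((d j).choose (k j) : ℝ) / 2)) • ms (g := g) (fun j => (d j : ℤ) - 2 * k j) := by
    funext t
    rw [Finset.sum_apply]
    have h2 : ∀ σ : Equiv.Perm (Fin g), ∏ j, yy t (σ j) ^ d j =
        ∑ k ∈ Fintype.piFinset (fun j => range (d j + 1)), (∏ j, (((d j).choose (k j) : ℝ) / 2)) *
          ∏ j, (2 * Real.cos (((d j : ℤ) - 2 * k j : ℤ) * t (σ j))) := by
      intro σ
      unfold yy
      simp_rw [cos_pow']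
      rw [Finset.prod_univ_sum]
      refine sum_congr rfl fun k _ => ?_
      rw [← prod_mul_distrib]
    rw [sum_congr rfl fun σ _ => h2 σ, sum_comm]
    refine sum_congr rfl fun k _ => ?_
    rw [Pi.smul_apply, smul_eq_mul, ← mul_sum]
    rfl
  rw [h1]
  exact Submodule.sum_mem _ fun k _ => Submodule.smul_mem _ _ (Submodule.subset_span ⟨_, rfl⟩)

/-- **The symmetrised polynomials are combinations of the orbit sums.** -/
theorem symz (P : MvPolynomial (Fin g) ℝ) :
    (fun t : Fin g → ℝ => ∑ σ : Equiv.Perm (Fin g), eval (fun j => yy t (σ j)) P) ∈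
      Submodule.span ℝ (Set.range (ms (g := g))) := by
  have h1 : (fun t : Fin g → ℝ => ∑ σ : Equiv.Perm (Fin g), eval (fun j => yy t (σ j)) P) =
      ∑ d ∈ P.support, (P.coeff d) •
        fun t : Fin g → ℝ => ∑ σ : Equiv.Perm (Fin g), ∏ j, yy t (σ j) ^ d j := by
    funext t
    rw [Finset.sum_apply]
    simp_rw [eval_eq']
    rw [sum_comm]
    refine sum_congr rfl fun d _ => ?_
    rw [Pi.smul_apply, smul_eq_mul, ← mul_sum]
  rw [h1]
  exact Submodule.sum_mem _ fun d _ => Submodule.smul_mem _ _ (symz_mon _)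

theorem chR_mem (n : Fin g → ℕ) : chR (g := g) n ∈ Submodule.span ℝ (Set.range (ms (g := g))) := by
  have h1 := symz (map (Int.castRingHom ℝ) (Pn n))
  have h2 : chR (g := g) n = ((g.factorial : ℝ)⁻¹) • (fun t : Fin g → ℝ =>
      ∑ σ : Equiv.Perm (Fin g), eval (fun j => yy t (σ j)) (map (Int.castRingHom ℝ) (Pn n))) := by
    funext t
    rw [Pi.smul_apply, smul_eq_mul]
    have h3 : ∀ σ : Equiv.Perm (Fin g),
        eval (fun j => yy t (σ j)) (map (Int.castRingHom ℝ) (Pn n)) = chR n t := by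
      intro σ
      rw [← aeval_cast, chR_eq]
      conv_rhs => rw [← Pn_symm n σ]
      rw [aeval_rename]
      rfl
    rw [sum_congr rfl fun σ _ => h3 σ, sum_const, card_univ, Fintype.card_perm, Fintype.card_fin,
      nsmul_eq_mul, ← mul_assoc, inv_mul_cancel₀ (by exact_mod_cast g.factorial_ne_zero), one_mul]
  rw [h2]
  exact Submodule.smul_mem _ _ h1

end

end Pool.Agent.Q167.FD
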