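import Pool.Agent.Q167.FD.Ntp

/-!
# Concentration
-/

set_option autoImplicit false
set_option linter.unusedSectionVars false

open Finset Filter Topology Pool.Agent.TH553.RS

namespace Pool.Agent.Q167.FD

section

variable {P : Type} {N : P → ℕ} (hN : Sys N) {U : Ultrafilter ℝ} (hU : (U : Filter ℝ) ≤ 𝓝[>] 0)
  {g : ℕ} (θ : P → Fin g → ℝ)

open Classical in
/-- the indicator function of the angles far from the multiples of `2π / n` -/
noncomputable def bad (n : ℕ) (δ : ℝ) (p : P) : ℝ :=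
  if ∃ j, δ ≤ ‖Complex.exp (((n : ℝ) * θ p j : ℝ) * Complex.I) - 1‖ then 1 else 0

theorem bd_bad (n : ℕ) (δ : ℝ) : Bd (bad θ n δ) := ⟨1, fun p => by
  unfold bad
  split_ifs <;> simp⟩

theorem bad_nonneg (n : ℕ) (δ : ℝ) (p : P) : 0 ≤ bad θ n δ p := by
  unfold bad
  split_ifs <;> simp

theorem norm_sub_one (x : ℝ) : ‖Complex.exp ((x : ℂ) * Complex.I) - 1‖ ^ 2 = 2 - 2 * Real.cos x := by
  rw [norm_sub_rev, norm_one_sub]

theorem key_ineq {s : ℝ} (hs : s = 1 ∨ s = -1) (x y : ℝ) :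
    2 - 2 * Real.cos (2 * (x - y)) ≤ 16 * ((1 - s * Real.cos x) + (1 - s * Real.cos y)) := by
  have h1 : 2 - 2 * Real.cos (2 * (x - y)) = 4 * Real.sin (x - y) ^ 2 := by
    rw [Real.cos_two_mul, Real.sin_sq]
    ring
  have h2 : ∀ z : ℝ, Real.sin z ^ 2 ≤ 2 * (1 - s * Real.cos z) := by
    intro z
    have h3 := Real.neg_one_le_cos z
    have h4 := Real.cos_le_one z
    rw [Real.sin_sq]
    rcases hs with rfl | rfl <;> nlinarith
  have h5 : Real.sin (x - y) ^ 2 ≤ 2 * (Real.sin x ^ 2 + Real.sin y ^ 2) := by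
    rw [Real.sin_sub]
    have c1 : Real.cos y ^ 2 ≤ 1 := Real.cos_sq_le_one y
    have c2 : Real.cos x ^ 2 ≤ 1 := Real.cos_sq_le_one x
    have s1 := sq_nonneg (Real.sin x)
    have s2 := sq_nonneg (Real.sin y)
    nlinarith [sq_nonneg (Real.sin x * Real.cos y + Real.cos x * Real.sin y),
      mul_le_mul_of_nonneg_left c1 s1, mul_le_mul_of_nonneg_left c2 s2]
  rw [h1]
  linarith [h2 x, h2 y]

include hN hU in
/-- **Concentration from a maximal value.** -/
theorem conc_of {a : Fin g → ℤ} (j₀ : Fin g) (h : |fi N U θ a| = wo g) {δ : ℝ} (hδ : 0 < δ) :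
    M N U (bad θ (4 * (a j₀).natAbs) δ) = 0 := by
  classical
  obtain ⟨s, hs, hsf⟩ : ∃ s : ℝ, (s = 1 ∨ s = -1) ∧ s * fi N U θ a = wo g := by
    rcases abs_cases (fi N U θ a) with ⟨h1, _⟩ | ⟨h1, _⟩
    · exact ⟨1, Or.inl rfl, by rw [one_mul, ← h1, h]⟩
    · exact ⟨-1, Or.inr rfl, by rw [neg_one_mul, ← h1, h]⟩
  have hb : ∀ w : Wg g, Bd fun p => 1 - s * Real.cos (pr (act w a) (θ p)) :=
    fun w => (Bd.const 1).sub ((bd_cos _).const_mul _)
  have hw : ∀ w : Wg g, (M N U fun p => 1 - s * Real.cos (pr (act w a) (θ p))) = 0 := by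
    have h1 : ∑ w : Wg g, (M N U fun p => 1 - s * Real.cos (pr (act w a) (θ p))) = 0 := by
      have h2 : ∀ w : Wg g, (M N U fun p => 1 - s * Real.cos (pr (act w a) (θ p))) =
          1 - s * M N U fun p => Real.cos (pr (act w a) (θ p)) := by
        intro w
        rw [M_sub hN hU (Bd.const 1) ((bd_cos _).const_mul _), M_const hN hU,
          M_const_mul hN hU (bd_cos _)]
      rw [sum_congr rfl fun w _ => h2 w, sum_sub_distrib, ← mul_sum, ← fi_sum hN hU, hsf, sum_const,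
        card_univ, card_wo, nsmul_eq_mul, mul_one, sub_self]
    have h3 : ∀ w ∈ (univ : Finset (Wg g)),
        0 ≤ M N U fun p => 1 - s * Real.cos (pr (act w a) (θ p)) := by
      intro w _
      refine M_nonneg hN hU (hb w) fun p => ?_
      have h4 := abs_le.1 (Real.abs_cos_le_one (pr (act w a) (θ p)))
      rcases hs with rfl | rfl <;> linarith [h4.1, h4.2]
    intro w
    exact (sum_eq_zero_iff_of_nonneg h3).1 h1 w (mem_univ w)
  -- the elements of the Weyl group
  set w₁ : Fin g → Wg g := fun j => (Equiv.swap j₀ j, fun _ => true) with hw₁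
  set w₂ : Fin g → Wg g := fun j => (Equiv.swap j₀ j, fun k => decide (k ≠ j₀)) with hw₂
  have hdiff : ∀ (j : Fin g) (t : Fin g → ℝ),
      pr (act (w₁ j) a) t - pr (act (w₂ j) a) t = 2 * (a j₀ * t j) := by
    intro j t
    rw [pr_act, pr_act]
    unfold pr tw
    rw [← sum_sub_distrib, sum_eq_single j₀]
    · simp only [hw₁, hw₂, Equiv.swap_apply_left]
      simp only [ne_eq, not_true_eq_false, decide_false, sg, if_true, Bool.false_eq_true, if_false]
      push_cast
      ring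
    · intro k _ hk
      simp only [hw₁, hw₂]
      rw [decide_eq_true hk]
      ring
    · intro h
      exact absurd (mem_univ j₀) h
  have hpt : ∀ p, bad θ (4 * (a j₀).natAbs) δ p ≤ ∑ j, (16 / δ ^ 2) *
      ((1 - s * Real.cos (pr (act (w₁ j) a) (θ p))) + (1 - s * Real.cos (pr (act (w₂ j) a) (θ p)))) := by
    intro p
    have hterm : ∀ j, (‖Complex.exp ((((4 * (a j₀).natAbs : ℕ) : ℝ) * θ p j : ℝ) * Complex.I) - 1‖ ^ 2)
        / δ ^ 2 ≤ (16 / δ ^ 2) * ((1 - s * Real.cos (pr (act (w₁ j) a) (θ p))) +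
          (1 - s * Real.cos (pr (act (w₂ j) a) (θ p)))) := by
      intro j
      rw [norm_sub_one, div_mul_eq_mul_div]
      refine div_le_div_of_nonneg_right ?_ (by positivity)
      refine le_trans (le_of_eq ?_) (key_ineq hs _ _)
      rw [hdiff]
      have h5 : Real.cos (((4 * (a j₀).natAbs : ℕ) : ℝ) * θ p j) =
          Real.cos (4 * (a j₀ : ℝ) * θ p j) := by
        have h6 : (((a j₀).natAbs : ℕ) : ℝ) = |(a j₀ : ℝ)| := by
          rw [Nat.cast_natAbs, Int.cast_abs]
        push_cast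
        rw [h6]
        rcases abs_cases (a j₀ : ℝ) with ⟨h7, _⟩ | ⟨h7, _⟩
        · rw [h7]
        · rw [h7, ← Real.cos_neg]
          congr 1
          ring
      rw [h5]
      congr 3
      ring
    have hnn : ∀ j ∈ (univ : Finset (Fin g)), 0 ≤ (16 / δ ^ 2) *
        ((1 - s * Real.cos (pr (act (w₁ j) a) (θ p))) +
          (1 - s * Real.cos (pr (act (w₂ j) a) (θ p)))) := by
      intro j _
      exact le_trans (by positivity) (hterm j)
    unfold bad
    split_ifs with hj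
    · obtain ⟨j, hj⟩ := hj
      refine le_trans ?_ (single_le_sum hnn (mem_univ j))
      refine le_trans ?_ (hterm j)
      rw [le_div_iff₀ (by positivity), one_mul]
      exact pow_le_pow_left₀ hδ.le hj 2
    · exact sum_nonneg hnn
  have hbd : ∀ j : Fin g, Bd fun p => (16 / δ ^ 2) *
      ((1 - s * Real.cos (pr (act (w₁ j) a) (θ p))) +
        (1 - s * Real.cos (pr (act (w₂ j) a) (θ p)))) :=
    fun j => ((hb _).add (hb _)).const_mul _
  refine le_antisymm ?_ (M_nonneg hN hU (bd_bad θ _ _) (bad_nonneg θ _ _))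
  refine (M_mono hN hU (bd_bad θ _ _) (Bd.sum _ fun j _ => hbd j) hpt).trans (le_of_eq ?_)
  rw [M_sum hN hU _ fun j _ => hbd j]
  refine sum_eq_zero fun j _ => ?_
  rw [M_const_mul hN hU ((hb _).add (hb _)), M_add hN hU (hb _) (hb _), hw, hw, add_zero, mul_zero]

theorem pow_sub_one {z : ℂ} (hz : ‖z‖ = 1) (k : ℕ) : ‖z ^ k - 1‖ ≤ k * ‖z - 1‖ := by
  induction k with
  | zero => simp
  | succ k ih =>
    have h1 : z ^ (k + 1) - 1 = z * (z ^ k - 1) + (z - 1) := by ring
    rw [h1]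
    refine (norm_add_le _ _).trans ?_
    rw [norm_mul, hz, one_mul]
    push_cast
    linarith

include hN hU in
/-- **Maximal values from concentration.** -/
theorem full_of {n : ℕ} (h : ∀ δ : ℝ, 0 < δ → M N U (bad θ n δ) = 0) (j₀ : Fin g) (k : ℕ) :
    fi N U θ (Pi.single j₀ ((k * n : ℕ) : ℤ)) = wo g := by
  classical
  set a : Fin g → ℤ := Pi.single j₀ ((k * n : ℕ) : ℤ) with ha
  have hle : fi N U θ a ≤ wo g := by
    rw [← M_const hN hU (wo g : ℝ)]
    exact M_mono hN hU (bd_of θ (ms_bc a)) (Bd.const _) fun p => (abs_le.1 (ms_le a (θ p))).2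
  refine le_antisymm hle ?_
  have hpt : ∀ (δ : ℝ) (p : P), (wo g : ℝ) ≤ ms a (θ p) +
      ((2 * wo g : ℝ) * bad θ n δ p + (wo g : ℝ) * (k ^ 2 * δ ^ 2 / 2)) := by
    intro δ p
    have hwo : (0 : ℝ) ≤ wo g := by positivity
    unfold bad
    split_ifs with hj
    · have h1 := (abs_le.1 (ms_le a (θ p))).1
      have h2 : 0 ≤ (wo g : ℝ) * (k ^ 2 * δ ^ 2 / 2) := by positivity
      linarith
    · push Not at hj
      rw [mul_zero, zero_add]
      have h1 : ∀ w : Wg g, 1 - k ^ 2 * δ ^ 2 / 2 ≤ Real.cos (pr (act w a) (θ p)) := by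
        intro w
        rw [pr_act, ha, pr_single]
        have h2 : (((k * n : ℕ) : ℤ) : ℝ) * tw w (θ p) j₀ =
            sg (w.2 j₀) * ((k : ℝ) * ((n : ℝ) * θ p (w.1 j₀))) := by
          unfold tw
          push_cast
          ring
        rw [h2, cos_sg]
        set x : ℝ := (n : ℝ) * θ p (w.1 j₀) with hx
        have h3 := hj (w.1 j₀)
        have h4 := pow_sub_one (z := Complex.exp ((x : ℂ) * Complex.I))
          (Complex.norm_exp_ofReal_mul_I _) k
        have h5 : Complex.exp ((x : ℂ) * Complex.I) ^ k =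
            Complex.exp (((((k : ℝ) * x : ℝ)) : ℂ) * Complex.I) := by
          rw [← Complex.exp_nat_mul]
          congr 1
          push_cast
          ring
        rw [h5] at h4
        have h6 : ‖Complex.exp (((((k : ℝ) * x : ℝ)) : ℂ) * Complex.I) - 1‖ ≤ k * δ :=
          h4.trans (mul_le_mul_of_nonneg_left h3.le (Nat.cast_nonneg k))
        have h7 := pow_le_pow_left₀ (norm_nonneg _) h6 2
        rw [norm_sub_one] at h7
        nlinarith
      rw [ms_cos]
      have h8 : ∑ _w : Wg g, (1 - (k : ℝ) ^ 2 * δ ^ 2 / 2) ≤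
          ∑ w : Wg g, Real.cos (pr (act w a) (θ p)) := sum_le_sum fun w _ => h1 w
      rw [sum_const, card_univ, card_wo, nsmul_eq_mul] at h8
      linarith
  have hall : ∀ δ : ℝ, 0 < δ → (wo g : ℝ) ≤ fi N U θ a + (wo g : ℝ) * (k ^ 2 * δ ^ 2 / 2) := by
    intro δ hδ
    have h1 := M_mono hN hU (Bd.const (P := P) (wo g : ℝ)) ((bd_of θ (ms_bc a)).add
      (((bd_bad θ n δ).const_mul (2 * wo g : ℝ)).add (Bd.const ((wo g : ℝ) * (k ^ 2 * δ ^ 2 / 2)))))
      (hpt δ)
    rw [M_const hN hU, M_add hN hU (bd_of θ (ms_bc a)) (((bd_bad θ n δ).const_mul _).add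
      (Bd.const _)), M_add hN hU ((bd_bad θ n δ).const_mul _) (Bd.const _),
      M_const_mul hN hU (bd_bad θ n δ), M_const hN hU, h δ hδ, mul_zero, zero_add] at h1
    exact h1
  have hlim : Tendsto (fun δ : ℝ => fi N U θ a + (wo g : ℝ) * (k ^ 2 * δ ^ 2 / 2)) (𝓝[>] 0)
      (𝓝 (fi N U θ a + (wo g : ℝ) * (k ^ 2 * 0 ^ 2 / 2))) := by
    refine Tendsto.mono_left (Continuous.tendsto ?_ 0) nhdsWithin_le_nhds
    fun_prop
  have h9 := ge_of_tendsto hlim (by
    filter_upwards [self_mem_nhdsWithin] with δ hδ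
    exact hall δ hδ)
  simpa using h9

end

end Pool.Agent.Q167.FD
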