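import Pool.Agent.Q167.FD.Lf

/-!
# The criterion
-/

set_option autoImplicit false
set_option linter.unusedSectionVars false

namespace Pool.Agent.Q167.FD

open Filter Topology NumberField IsDedekindDomain Pool.Agent.W540.BE Pool.Agent.TH553.RS
  Pool.Agent.TH553.ST Pool.Agent.H341R2

section

variable {g : ℕ}

/-- the universal combinations -/
noncomputable def Qa (a : Fin g → ℤ) : MvPolynomial (Fin g) ℤ := (ms_expand a).choose

theorem Qa_spec (a : Fin g → ℤ) (t : Fin g → ℝ) :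
    ms a t = ∑ n ∈ (Qa a).support, (((Qa a).coeff n : ℤ) : ℝ) * chR n t := (ms_expand a).choose_spec t

/-- the box -/
noncomputable def bx (g R : ℕ) : Finset (Fin g → ℤ) :=
  Fintype.piFinset fun _ => Finset.Icc (-(R : ℤ)) R

open Classical in
/-- the finite set of the tensor products -/
noncomputable def FS (g R : ℕ) : Finset (Fin g → ℕ) :=
  (bx g R).biUnion fun a => (Qa a).support.image fun n : Fin g →₀ ℕ => (n : Fin g → ℕ)

theorem mem_FS {R : ℕ} {a : Fin g → ℤ} (ha : ∀ j, |a j| ≤ R) {n : Fin g →₀ ℕ}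
    (hn : n ∈ (Qa a).support) : ⇑n ∈ FS g R := by
  classical
  unfold FS
  rw [Finset.mem_biUnion]
  refine ⟨a, ?_, Finset.mem_image.2 ⟨n, hn, rfl⟩⟩
  unfold bx
  rw [Fintype.mem_piFinset]
  intro j
  rw [Finset.mem_Icc]
  exact abs_le.1 (ha j)

/-- a functional at the orbit sums -/
theorem Mj.ms {J : ((Fin g → ℝ) → ℝ) → ℝ} (hJ : Mj J) (a : Fin g → ℤ) :
    J (Pool.Agent.Q167.FD.ms a) =
      ∑ n ∈ (Qa a).support, (((Qa a).coeff n : ℤ) : ℝ) * J (chR n) := by
  have h1 : Pool.Agent.Q167.FD.ms a = fun t => ∑ n ∈ (Qa a).support,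
      (((Qa a).coeff n : ℤ) : ℝ) * chR n t := funext fun t => Qa_spec a t
  have h2 := hJ.sum (Qa a).support (f := fun (n : Fin g →₀ ℕ) (t : Fin g → ℝ) =>
    (((Qa a).coeff n : ℤ) : ℝ) * chR n t) fun n _ => (chR_bc n).smul _
  rw [h1, h2]
  refine Finset.sum_congr rfl fun n _ => ?_
  exact hJ.smul _ _ (chR_bc n)

/-- functionals with the same values at the characters -/
theorem uniq_ch {J J' : ((Fin g → ℝ) → ℝ) → ℝ} (hJ : Mj J) (hJ' : Mj J')
    (h : ∀ n : Fin g → ℕ, J (chR n) = J' (chR n)) {F : (Fin g → ℝ) → ℝ} (hF : Continuous F)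
    (hs : ∀ (σ : Equiv.Perm (Fin g)) (x : Fin g → ℝ), F (fun j => x (σ j)) = F x) :
    J (fun t => F fun j => Real.cos (t j)) = J' (fun t => F fun j => Real.cos (t j)) := by
  refine uniq hJ hJ' (fun a => ?_) hF hs
  rw [hJ.ms, hJ'.ms]
  exact Finset.sum_congr rfl fun n _ => by rw [h]

/-- the radius -/
noncomputable def Rr (g : ℕ) : ℕ := (rigid (Ph g) Ph_ne (by
  rw [co_zero]
  exact_mod_cast (wo_pos (g := g)))).choose

theorem Rr_spec (φ : (Fin g → ℤ) → ℤ) (h1 : PD (fun a => (φ a : ℝ)))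
    (h2 : ∀ a : Fin g → ℤ, (∀ j, |a j| ≤ Rr g) → φ a = co (Ph g) a) :
    (∀ a, φ a = co (Ph g) a) ∨ ∃ a, a ≠ 0 ∧ |φ a| = φ 0 :=
  (rigid (Ph g) Ph_ne (by
    rw [co_zero]
    exact_mod_cast (wo_pos (g := g)))).choose_spec φ h1 h2

variable {K : Type} [Field K] [NumberField K] (θ : HeightOneSpectrum (𝓞 K) → Fin g → ℝ)

/-- concentration -/
def Cc (N : ℕ) : Prop := ∀ U : Ultrafilter ℝ, (U : Filter ℝ) ≤ 𝓝[>] 0 → ∀ δ : ℝ, 0 < δ →
  M (nm K) U (bad θ N δ) = 0

/-- the integral function -/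
noncomputable def ph (m : (Fin g → ℕ) → ℤ) (a : Fin g → ℤ) : ℤ :=
  ∑ n ∈ (Qa a).support, (Qa a).coeff n * m n

theorem fi_eq {m : (Fin g → ℕ) → ℤ} {U : Ultrafilter ℝ} (hU : (U : Filter ℝ) ≤ 𝓝[>] 0)
    (hm : ∀ n, M (nm K) U (fun v => chR n (θ v)) = m n) (a : Fin g → ℤ) :
    fi (nm K) U θ a = ph m a := by
  have h1 := (M_mj (sysF K) hU θ).ms a
  beta_reduce at h1
  unfold fi ph
  rw [h1]
  push_cast
  exact Finset.sum_congr rfl fun n _ => by rw [hm]

/-- **The finite criterion.** -/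
theorem crit (hg : 0 < g) {m : (Fin g → ℕ) → ℤ}
    (hm : ∀ U : Ultrafilter ℝ, (U : Filter ℝ) ≤ 𝓝[>] 0 → ∀ n,
      M (nm K) U (fun v => chR n (θ v)) = m n) :
    (∀ n, (m n : ℝ) = weyl g (chR n)) ↔
      (∀ n ∈ FS g (Rr g), (m n : ℝ) = weyl g (chR n)) ∧ ∀ N : ℕ, 1 ≤ N → ¬ Cc θ N := by
  classical
  set U₀ : Ultrafilter ℝ := Ultrafilter.of (𝓝[>] 0) with hU₀
  have h₀ : (U₀ : Filter ℝ) ≤ 𝓝[>] 0 := Ultrafilter.of_le _
  constructor
  · intro h
    refine ⟨fun n _ => h n, fun N hN hc => ?_⟩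
    -- the values of the function
    have h1 : ∀ a, fi (nm K) U₀ θ a = co (Ph g) a := by
      intro a
      have h2 := (M_mj (sysF K) h₀ θ).ms a
      beta_reduce at h2
      unfold fi
      rw [← weyl_ms, weyl_mj.ms a, h2]
      refine Finset.sum_congr rfl fun n _ => ?_
      rw [hm U₀ h₀, h]
    set j₀ : Fin g := ⟨0, hg⟩ with hj₀
    have h2 : ∀ k : ℕ, (Pi.single j₀ ((k * N : ℕ) : ℤ) : Fin g → ℤ) ∈ Sp g := by
      intro k
      by_contra h3
      have h4 := full_of (sysF K) h₀ θ (hc U₀ h₀) j₀ k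
      rw [h1, co_zero_of h3] at h4
      have := wo_pos (g := g)
      have h5 : (0 : ℝ) < wo g := by exact_mod_cast this
      rw [Int.cast_zero] at h4
      linarith
    have hinj : Function.Injective fun k : ℕ => (Pi.single j₀ ((k * N : ℕ) : ℤ) : Fin g → ℤ) := by
      intro k l hkl
      have h3 := congrFun hkl j₀
      simp only [Pi.single_eq_same] at h3
      have h4 : k * N = l * N := by exact_mod_cast h3
      exact Nat.eq_of_mul_eq_mul_right (by omega) h4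
    have h5 : Set.Infinite (Set.range fun k : ℕ => (Pi.single j₀ ((k * N : ℕ) : ℤ) : Fin g → ℤ)) :=
      Set.infinite_range_of_injective hinj
    refine h5 ((Sp g).finite_toSet.subset ?_)
    rintro _ ⟨k, rfl⟩
    exact h2 k
  · rintro ⟨h, hc⟩
    have h1 : PD (fun a => ((ph m a : ℤ) : ℝ)) := by
      have h2 : (fun a => ((ph m a : ℤ) : ℝ)) = fi (nm K) U₀ θ :=
        funext fun a => (fi_eq θ h₀ (hm U₀ h₀) a).symm
      rw [h2]
      exact fi_pd (sysF K) h₀ θ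
    have h2 : ∀ a : Fin g → ℤ, (∀ j, |a j| ≤ Rr g) → ph m a = co (Ph g) a := by
      intro a ha
      have h3 : ((ph m a : ℤ) : ℝ) = ((co (Ph g) a : ℤ) : ℝ) := by
        rw [← weyl_ms, weyl_mj.ms a]
        unfold ph
        push_cast
        refine Finset.sum_congr rfl fun n hn => ?_
        rw [h _ (mem_FS ha hn)]
      exact_mod_cast h3
    rcases Rr_spec (ph m) h1 h2 with h3 | ⟨a, ha0, ha⟩
    · intro n
      rw [← hm U₀ h₀ n]
      refine span_eq (M_mj (sysF K) h₀ θ) weyl_mj (fun a => ?_) (chR_mem n)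
      rw [weyl_ms, ← h3, ← fi_eq θ h₀ (hm U₀ h₀) a]
      rfl
    · exfalso
      obtain ⟨j₀, hj₀⟩ : ∃ j, a j ≠ 0 := by
        by_contra h4
        push Not at h4
        exact ha0 (funext h4)
      refine hc (4 * (a j₀).natAbs) (by
        have := Int.natAbs_pos.2 hj₀
        omega) fun U hU δ hδ => ?_
      refine conc_of (sysF K) hU θ j₀ ?_ hδ
      rw [fi_eq θ hU (hm U hU) a, ← fi_zero (sysF K) hU θ, fi_eq θ hU (hm U hU) 0]
      exact_mod_cast ha

end

end Pool.Agent.Q167.FD
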