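import Pool.Agent.Q167.FD.Main
import Pool.Agent.Q167.FD.Alg2

/-!
# The density of Weyl
-/

set_option autoImplicit false

open Finset MeasureTheory AddMonoidAlgebra

namespace Pool.Agent.Q167.FD

section

variable {g : ℕ}

/-- the pairing -/
noncomputable def pr (a : Fin g → ℤ) (t : Fin g → ℝ) : ℝ := ∑ j, (a j : ℝ) * t j

theorem pr_add (a b : Fin g → ℤ) (t : Fin g → ℝ) : pr (a + b) t = pr a t + pr b t := by
  unfold pr
  rw [← sum_add_distrib]
  refine sum_congr rfl fun j _ => ?_
  rw [Pi.add_apply]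
  push_cast
  ring

theorem pr_neg (a : Fin g → ℤ) (t : Fin g → ℝ) : pr (-a) t = -pr a t := by
  unfold pr
  rw [← sum_neg_distrib]
  refine sum_congr rfl fun j _ => ?_
  rw [Pi.neg_apply]
  push_cast
  ring

theorem pr_sub (a b : Fin g → ℤ) (t : Fin g → ℝ) : pr (a - b) t = pr a t - pr b t := by
  rw [sub_eq_add_neg, pr_add, pr_neg]
  ring

theorem pr_zero (t : Fin g → ℝ) : pr 0 t = 0 := by
  unfold pr
  simp

theorem pr_single (j : Fin g) (c : ℤ) (t : Fin g → ℝ) : pr (Pi.single j c) t = c * t j := by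
  classical
  unfold pr
  rw [sum_eq_single j]
  · rw [Pi.single_eq_same]
  · intro i _ hi
    rw [Pi.single_eq_of_ne hi, Int.cast_zero, zero_mul]
  · intro h
    exact absurd (mem_univ j) h

/-- the homomorphism -/
noncomputable def hm (t : Fin g → ℝ) : (Fin g → ℤ) →+ ℝ where
  toFun a := pr a t
  map_zero' := pr_zero t
  map_add' a b := pr_add a b t

/-- the character -/
noncomputable def ee (a : Fin g → ℤ) (t : Fin g → ℝ) : ℂ := Complex.exp ((pr a t : ℝ) * Complex.I)

theorem ee_add (a b : Fin g → ℤ) (t : Fin g → ℝ) : ee (a + b) t = ee a t * ee b t := by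
  unfold ee
  rw [← Complex.exp_add, pr_add]
  congr 1
  push_cast
  ring

/-- the density -/
noncomputable def Dn (t : Fin g → ℝ) : ℝ :=
  (∏ i : Fin g, ∏ j ∈ Finset.Ioi i, (2 * Real.cos (t i) - 2 * Real.cos (t j)) ^ 2) *
    ∏ i : Fin g, 4 * Real.sin (t i) ^ 2

theorem Dn_nonneg (t : Fin g → ℝ) : 0 ≤ Dn t := by
  unfold Dn
  positivity

/-- the index set of the positive roots -/
abbrev RI (g : ℕ) : Type := {p : Fin g × Fin g // p.1 < p.2} × Bool ⊕ Fin g

/-- the positive roots -/
def rt : RI g → (Fin g → ℤ)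
  | Sum.inl (p, b) => Pi.single p.1.1 1 + Pi.single p.1.2 (if b then 1 else -1)
  | Sum.inr i => Pi.single i 2

theorem rt_ne (x : RI g) : rt x ≠ 0 := by
  rcases x with ⟨⟨⟨i, j⟩, hij⟩, b⟩ | i
  · intro h
    have h1 := congrFun h i
    have hne : i ≠ j := ne_of_lt hij
    simp only [rt, Pi.add_apply, Pi.single_eq_same, Pi.zero_apply] at h1
    rw [Pi.single_eq_of_ne hne] at h1
    simp at h1
  · intro h
    have h1 := congrFun h i
    simp [rt] at h1

/-- the roots, numbered -/
noncomputable def Ph (g : ℕ) (k : Fin (Fintype.card (RI g))) : Fin g → ℤ :=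
  rt ((Fintype.equivFin (RI g)).symm k)

theorem Ph_ne (k : Fin (Fintype.card (RI g))) : Ph g k ≠ 0 := rt_ne _

theorem norm_one_sub (x : ℝ) : ‖1 - Complex.exp ((x : ℂ) * Complex.I)‖ ^ 2 = 2 - 2 * Real.cos x := by
  rw [← Complex.normSq_eq_norm_sq, Complex.normSq_apply, Complex.sub_re, Complex.sub_im,
    Complex.exp_ofReal_mul_I_re, Complex.exp_ofReal_mul_I_im, Complex.one_re, Complex.one_im]
  have := Real.sin_sq_add_cos_sq x
  nlinarith

/-- **The expansion of the density.** -/
theorem evh_Dn (t : Fin g → ℝ) : evh (hm t) (den (Ph g)) = (Dn t : ℂ) := by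
  rw [evh_den]
  congr 1
  have h1 : ∏ k, ‖1 - Complex.exp ((hm t (Ph g k) : ℝ) * Complex.I)‖ ^ 2 =
      ∏ x : RI g, ‖1 - Complex.exp ((hm t (rt x) : ℝ) * Complex.I)‖ ^ 2 :=
    Equiv.prod_comp (Fintype.equivFin (RI g)).symm
      (fun x => ‖1 - Complex.exp ((hm t (rt x) : ℝ) * Complex.I)‖ ^ 2)
  rw [h1, Fintype.prod_sum_type, Fintype.prod_prod_type]
  unfold Dn
  congr 1
  · have h2 : ∀ p : {p : Fin g × Fin g // p.1 < p.2},
        ∏ b : Bool, ‖1 - Complex.exp ((hm t (rt (Sum.inl (p, b))) : ℝ) * Complex.I)‖ ^ 2 =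
        (2 * Real.cos (t p.1.1) - 2 * Real.cos (t p.1.2)) ^ 2 := by
      rintro ⟨⟨i, j⟩, hij⟩
      rw [Fintype.prod_bool, norm_one_sub, norm_one_sub]
      have e1 : hm t (rt (Sum.inl (⟨(i, j), hij⟩, true))) = t i + t j := by
        show pr (Pi.single i 1 + Pi.single j (if true then 1 else -1)) t = _
        rw [pr_add, pr_single, pr_single]
        simp
      have e2 : hm t (rt (Sum.inl (⟨(i, j), hij⟩, false))) = t i - t j := by
        show pr (Pi.single i 1 + Pi.single j (if false then 1 else -1)) t = _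
        rw [pr_add, pr_single, pr_single]
        simp [sub_eq_add_neg]
      rw [e1, e2, Real.cos_add, Real.cos_sub]
      have s1 := Real.sin_sq_add_cos_sq (t i)
      have s2 := Real.sin_sq_add_cos_sq (t j)
      have s1' : Real.sin (t i) ^ 2 = 1 - Real.cos (t i) ^ 2 := by linarith
      have s2' : Real.sin (t j) ^ 2 = 1 - Real.cos (t j) ^ 2 := by linarith
      have e3 : (2 - 2 * (Real.cos (t i) * Real.cos (t j) - Real.sin (t i) * Real.sin (t j))) *
          (2 - 2 * (Real.cos (t i) * Real.cos (t j) + Real.sin (t i) * Real.sin (t j))) =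
          (2 - 2 * (Real.cos (t i) * Real.cos (t j))) ^ 2 -
            4 * (Real.sin (t i) ^ 2 * Real.sin (t j) ^ 2) := by ring
      rw [e3, s1', s2']
      ring
    rw [prod_congr rfl fun p _ => h2 p]
    have h3 : ∏ p : {p : Fin g × Fin g // p.1 < p.2},
        (2 * Real.cos (t p.1.1) - 2 * Real.cos (t p.1.2)) ^ 2 =
        ∏ p ∈ (univ : Finset (Fin g × Fin g)).filter (fun p => p.1 < p.2),
          (2 * Real.cos (t p.1) - 2 * Real.cos (t p.2)) ^ 2 := by
      rw [prod_subtype _ (p := fun p : Fin g × Fin g => p.1 < p.2) (by simp)]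
    rw [h3, prod_filter, Fintype.prod_prod_type]
    refine prod_congr rfl fun i _ => ?_
    rw [← prod_filter]
    refine prod_congr ?_ fun _ _ => rfl
    ext j
    simp
  · refine prod_congr rfl fun i _ => ?_
    rw [norm_one_sub]
    have e1 : hm t (rt (Sum.inr i)) = 2 * t i := by
      show pr (Pi.single i 2) t = _
      rw [pr_single]
      push_cast
      ring
    rw [e1, Real.cos_two_mul]
    have s1 := Real.sin_sq_add_cos_sq (t i)
    linarith

/-- the finite set of the exponents -/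
noncomputable def Sp (g : ℕ) : Finset (Fin g → ℤ) := (den (Ph g)).coeff.support

theorem Dn_sum (t : Fin g → ℝ) : (Dn t : ℂ) = ∑ b ∈ Sp g, (co (Ph g) b : ℂ) * ee b t := by
  rw [← evh_Dn, evh_apply]
  rfl

theorem co_zero_of {b : Fin g → ℤ} (hb : b ∉ Sp g) : co (Ph g) b = 0 := by
  unfold Sp at hb
  rw [Finsupp.notMem_support_iff] at hb
  exact hb

end

end Pool.Agent.Q167.FD
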