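import Pool.Agent.Q167.FD.One

/-!
# Integer Laurent polynomials bounded by a Weyl density
-/

set_option autoImplicit false

open Polynomial Finset AddMonoidAlgebra

namespace Pool.Agent.Q167.FD

/-- a linear form which does not vanish on finitely many given nonzero vectors -/
theorem exists_kappa {r : ℕ} (V : Finset (Fin r → ℤ)) (hV : ∀ v ∈ V, v ≠ 0) :
    ∃ κ : (Fin r → ℤ) →+ ℤ, ∀ v ∈ V, κ v ≠ 0 := by
  classical
  set q : (Fin r → ℤ) → ℤ[X] := fun v => ∑ j, C (v j) * X ^ (j : ℕ) with hq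
  have hq0 : ∀ v ∈ V, q v ≠ 0 := by
    intro v hv h
    apply hV v hv
    funext j
    have h1 : (q v).coeff j = v j := by
      rw [hq]
      simp only [finsetSum_coeff, coeff_C_mul, coeff_X_pow]
      rw [sum_eq_single j]
      · simp
      · intro i _ hij
        rw [if_neg (fun h2 => hij (Fin.ext h2.symm)), mul_zero]
      · intro h2; exact absurd (mem_univ j) h2
    rw [← h1, h]
    simp
  have hP : (∏ v ∈ V, q v) ≠ 0 := prod_ne_zero_iff.2 hq0
  obtain ⟨N, hN⟩ : ∃ N : ℤ, (∏ v ∈ V, q v).eval N ≠ 0 := by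
    by_contra hcon
    push Not at hcon
    exact hP (Polynomial.funext fun x => by rw [hcon x, eval_zero])
  rw [eval_prod, prod_ne_zero_iff] at hN
  have hadd : ∀ v w : Fin r → ℤ, ∑ j : Fin r, (v + w) j * N ^ (j : ℕ) =
      ∑ j : Fin r, v j * N ^ (j : ℕ) + ∑ j : Fin r, w j * N ^ (j : ℕ) := by
    intro v w
    simp only [Pi.add_apply, add_mul, sum_add_distrib]
  refine ⟨AddMonoidHom.mk' (fun v => ∑ j : Fin r, v j * N ^ (j : ℕ)) hadd, ?_⟩
  intro v hv
  have h1 := hN v hv
  rw [hq] at h1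
  simp only [eval_finsetSum, eval_mul, eval_C, eval_pow, eval_X] at h1
  exact h1

section ev

variable {G : Type*} [AddCommGroup G]

/-- the character given by a homomorphism to the reals -/
noncomputable def chr (h : G →+ ℝ) : Multiplicative G →* ℂ where
  toFun g := Complex.exp ((h g.toAdd : ℝ) * Complex.I)
  map_one' := by simp
  map_mul' a b := by
    rw [← Complex.exp_add]
    congr 1
    rw [toAdd_mul, map_add]
    push_cast
    ring

/-- evaluation at a point of the torus -/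
noncomputable def evh (h : G →+ ℝ) : ℤ[G] →ₐ[ℤ] ℂ := AddMonoidAlgebra.lift ℤ ℂ G (chr h)

theorem evh_single (h : G →+ ℝ) (g : G) (a : ℤ) :
    evh h (single g a) = a * Complex.exp ((h g : ℝ) * Complex.I) := by
  unfold evh
  rw [AddMonoidAlgebra.lift_single, zsmul_eq_mul]
  rfl

theorem evh_apply (h : G →+ ℝ) (C : ℤ[G]) :
    evh h C = ∑ g ∈ C.coeff.support, (C.coeff g : ℂ) * Complex.exp ((h g : ℝ) * Complex.I) := by
  unfold evh
  rw [AddMonoidAlgebra.lift_apply, Finsupp.sum]
  refine sum_congr rfl fun g _ => ?_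
  rw [zsmul_eq_mul]
  rfl

/-- the density `∏ |1 - e ^ β| ^ 2` -/
noncomputable def den {m : ℕ} (Φ : Fin m → G) : ℤ[G] :=
  ∏ j, ((1 - single (Φ j) 1) * (1 - single (-Φ j) 1))

theorem evh_den (h : G →+ ℝ) {m : ℕ} (Φ : Fin m → G) :
    evh h (den Φ) = ((∏ j, ‖1 - Complex.exp ((h (Φ j) : ℝ) * Complex.I)‖ ^ 2 : ℝ) : ℂ) := by
  unfold den
  rw [map_prod]
  push_cast
  refine prod_congr rfl fun j _ => ?_
  rw [map_mul, map_sub, map_sub, map_one, evh_single, evh_single]
  have h1 : Complex.exp ((h (-Φ j) : ℝ) * Complex.I) =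
      (starRingEnd ℂ) (Complex.exp ((h (Φ j) : ℝ) * Complex.I)) := by
    rw [← Complex.exp_conj, map_mul, Complex.conj_ofReal, Complex.conj_I, map_neg]
    congr 1
    push_cast
    ring
  rw [h1]
  have h2 : (1 : ℂ) - ((1 : ℤ) : ℂ) * (starRingEnd ℂ) (Complex.exp ((h (Φ j) : ℝ) * Complex.I)) =
      (starRingEnd ℂ) (1 - Complex.exp ((h (Φ j) : ℝ) * Complex.I)) := by
    rw [map_sub, map_one]
    push_cast
    ring
  rw [h2]
  have h3 : (1 : ℂ) - ((1 : ℤ) : ℂ) * Complex.exp ((h (Φ j) : ℝ) * Complex.I) =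
      1 - Complex.exp ((h (Φ j) : ℝ) * Complex.I) := by
    push_cast
    ring
  rw [h3, Complex.mul_conj, Complex.normSq_eq_norm_sq]
  push_cast
  rfl

/-- the homomorphism to the integers composed with a multiple of the inclusion -/
noncomputable def scl (s : ℝ) (κ : G →+ ℤ) : G →+ ℝ where
  toFun g := s * κ g
  map_zero' := by simp
  map_add' a b := by
    rw [map_add]
    push_cast
    ring

theorem evh_map (s : ℝ) (κ : G →+ ℤ) (C : ℤ[G]) :
    evh (scl s (AddMonoidHom.id ℤ)) (mapDomainRingHom ℤ κ C) = evh (scl s κ) C := by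
  have h1 : (evh (scl s (AddMonoidHom.id ℤ))).toRingHom.comp (mapDomainRingHom ℤ κ) =
      (evh (scl s κ)).toRingHom := by
    refine AddMonoidAlgebra.ringHom_ext ?_ ?_
    · intro a
      simp [evh_single]
    · intro g
      show evh _ (mapDomainRingHom ℤ κ (single g 1)) = evh _ (single g 1)
      rw [mapDomainRingHom_apply, mapDomain_single, evh_single, evh_single]
      rfl
  exact RingHom.congr_fun h1 C

end ev

/-- evaluation of polynomials -/
theorem evh_toLaurent (s : ℝ) (p : ℤ[X]) :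
    evh (scl s (AddMonoidHom.id ℤ)) (toLaurent p) =
      aeval (Complex.exp ((s : ℂ) * Complex.I)) p := by
  have h1 : (evh (scl s (AddMonoidHom.id ℤ))).toRingHom.comp (toLaurent (R := ℤ)) =
      (aeval (Complex.exp ((s : ℂ) * Complex.I)) : ℤ[X] →ₐ[ℤ] ℂ).toRingHom := by
    refine Polynomial.ringHom_ext ?_ ?_
    · intro a
      simp
    · show evh _ (toLaurent X) = aeval _ X
      rw [toLaurent_X, aeval_X]
      have : (LaurentPolynomial.T 1 : ℤ[ℤ]) = single 1 1 := rfl
      rw [this, evh_single]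
      simp [scl]
  exact RingHom.congr_fun h1 p

theorem T_pair (n : ℤ) : ((1 - single n 1) * (1 - single (-n) 1) : ℤ[ℤ]) =
    - single (-(n.natAbs : ℤ)) 1 * (1 - single (n.natAbs : ℤ) 1) ^ 2 := by
  have key : ∀ a : ℤ, ((1 - single a 1) * (1 - single (-a) 1) : ℤ[ℤ]) =
      - single (-a) 1 * (1 - single a 1) ^ 2 := by
    intro a
    have h1 : (single a 1 * single (-a) 1 : ℤ[ℤ]) = 1 := by
      rw [single_mul_single, add_neg_cancel, one_mul]
      rfl
    linear_combination ((single a 1 : ℤ[ℤ]) - 1) * h1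
  rcases Int.natAbs_eq n with h | h
  · conv_lhs => rw [h]
    exact key _
  · conv_lhs => rw [h]
    rw [neg_neg, mul_comm]
    exact key _

/-- **The exact classification.** -/
theorem exact {r m : ℕ} (Φ : Fin m → (Fin r → ℤ)) (hΦ : ∀ j, Φ j ≠ 0)
    (hD0 : (den Φ).coeff 0 ≠ 0) (C : ℤ[Fin r → ℤ])
    (h : ∀ t : (Fin r → ℤ) →+ ℝ, ‖evh t C‖ ≤ ‖evh t (den Φ)‖) :
    C = 0 ∨ ∃ (μ : Fin r → ℤ) (u : ℤ), (u = 1 ∨ u = -1) ∧ C = single μ u * den Φ := by
  classical
  by_cases hC : C = 0
  · left; exact hC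
  right
  -- the finite sets
  set S₁ : Finset (Fin r → ℤ) := C.coeff.support with hS₁
  set S₂ : Finset (Fin r → ℤ) := (den Φ).coeff.support with hS₂
  set S : Finset (Fin r → ℤ) := (S₁ ∪ S₂) ∪ (S₁ ×ˢ S₂).image (fun e => e.1 + e.2) with hS
  set V : Finset (Fin r → ℤ) := (((S ×ˢ S).image (fun e => e.1 - e.2)).filter (· ≠ 0)) ∪
    univ.image Φ with hV
  obtain ⟨κ, hκ⟩ := exists_kappa V (by
    intro v hv
    rw [hV, mem_union] at hv
    rcases hv with hv | hv
    · exact (mem_filter.1 hv).2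
    · obtain ⟨j, -, rfl⟩ := mem_image.1 hv
      exact hΦ j)
  have hκΦ : ∀ j, κ (Φ j) ≠ 0 := fun j =>
    hκ _ (mem_union_right _ (mem_image_of_mem _ (mem_univ j)))
  have hκinj : Set.InjOn κ (S : Set (Fin r → ℤ)) := by
    intro a ha b hb hab
    by_contra hne
    have h1 : a - b ∈ V := by
      rw [hV, mem_union]
      left
      rw [mem_filter]
      refine ⟨mem_image.2 ⟨(a, b), mem_product.2 ⟨ha, hb⟩, rfl⟩, sub_ne_zero.2 hne⟩
    apply hκ _ h1
    rw [map_sub, hab, sub_self]
  set β : Fin m → ℕ := fun j => (κ (Φ j)).natAbs with hβ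
  have hβ1 : ∀ j, 1 ≤ β j := fun j => Int.natAbs_pos.2 (hκΦ j)
  -- the one variable polynomial
  obtain ⟨n, p, hp⟩ := LaurentPolynomial.exists_T_pow (mapDomainRingHom ℤ κ C)
  have hTn : (LaurentPolynomial.T (n : ℤ) : ℤ[ℤ]) = single (n : ℤ) 1 := rfl
  rw [hTn] at hp
  have hbound : ∀ z : ℂ, ‖z‖ = 1 → ‖aeval z p‖ ≤ ∏ i : Fin (m + m), ‖1 - z ^ Fin.append β β i‖ := by
    intro z hz
    obtain ⟨s, hs⟩ : ∃ s : ℝ, z = Complex.exp ((s : ℂ) * Complex.I) := by
      refine ⟨Complex.arg z, ?_⟩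
      have := Complex.norm_mul_exp_arg_mul_I z
      rw [hz, Complex.ofReal_one, one_mul] at this
      exact this.symm
    rw [hs, ← evh_toLaurent, hp, map_mul, norm_mul, evh_map, evh_single]
    have h1 : ‖((1 : ℤ) : ℂ) * Complex.exp (((scl s (AddMonoidHom.id ℤ)) (n : ℤ) : ℝ) *
        Complex.I)‖ = 1 := by
      rw [Int.cast_one, one_mul, Complex.norm_exp_ofReal_mul_I]
    rw [h1, mul_one]
    refine (h (scl s κ)).trans (le_of_eq ?_)
    rw [evh_den, Fin.prod_univ_add]
    simp only [Fin.append_left, Fin.append_right]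
    rw [Complex.norm_real, Real.norm_of_nonneg (prod_nonneg fun _ _ => by positivity),
      ← prod_mul_distrib]
    refine prod_congr rfl fun j _ => ?_
    have h2 : ‖1 - Complex.exp (((scl s κ) (Φ j) : ℝ) * Complex.I)‖ =
        ‖1 - Complex.exp ((s : ℂ) * Complex.I) ^ β j‖ := by
      have e1 : (scl s κ) (Φ j) = s * (κ (Φ j) : ℤ) := rfl
      rw [e1, ← Complex.exp_nat_mul]
      rcases Int.natAbs_eq (κ (Φ j)) with h3 | h3
      · congr 3
        have : ((κ (Φ j) : ℤ) : ℝ) = (β j : ℝ) := by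
          rw [h3]; simp [hβ]
        rw [this]
        push_cast
        ring
      · have h4 : ((κ (Φ j) : ℤ) : ℝ) = -(β j : ℝ) := by
          rw [h3]; simp [hβ]
        rw [h4]
        have h5 : Complex.exp (((s * -(β j : ℝ) : ℝ) : ℂ) * Complex.I) =
            (starRingEnd ℂ) (Complex.exp ((β j : ℂ) * ((s : ℂ) * Complex.I))) := by
          rw [← Complex.exp_conj, map_mul, map_mul, Complex.conj_ofReal, Complex.conj_I,
            Complex.conj_natCast]
          congr 1
          push_cast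
          ring
        rw [h5]
        have h6 : (1 : ℂ) - (starRingEnd ℂ) (Complex.exp ((β j : ℂ) * ((s : ℂ) * Complex.I))) =
            (starRingEnd ℂ) (1 - Complex.exp ((β j : ℂ) * ((s : ℂ) * Complex.I))) := by
          rw [map_sub, map_one]
        rw [h6, RCLike.norm_conj]
    rw [h2, sq]
  -- the images of the density
  have hden : mapDomainRingHom ℤ κ (den Φ) =
      (∏ j, - single (-(β j : ℤ)) 1 : ℤ[ℤ]) * (∏ j, (1 - single (β j : ℤ) 1)) ^ 2 := by
    unfold den
    rw [map_prod, ← prod_pow, ← prod_mul_distrib]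
    refine prod_congr rfl fun j _ => ?_
    rw [map_mul, map_sub, map_sub, map_one, mapDomainRingHom_apply, mapDomainRingHom_apply,
      mapDomain_single, mapDomain_single, map_neg]
    exact T_pair _
  set Q : ℤ[ℤ] := (∏ j, (1 - single (β j : ℤ) 1)) ^ 2 with hQ
  -- units
  have hunit : ∀ s : Finset (Fin m), ∃ (a : ℤ) (v : ℤ), (v = 1 ∨ v = -1) ∧
      (single a v : ℤ[ℤ]) * (∏ j ∈ s, - single (-(β j : ℤ)) 1) = 1 := by
    intro s
    induction s using Finset.induction_on with
    | empty => exact ⟨0, 1, Or.inl rfl, by rw [prod_empty, mul_one]; rfl⟩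
    | insert j s hj ih =>
      obtain ⟨a, v, hv, h1⟩ := ih
      refine ⟨a + β j, -v, by rcases hv with rfl | rfl <;> simp, ?_⟩
      rw [prod_insert hj, ← mul_assoc]
      have h2 : (single (a + (β j : ℤ)) (-v) * - single (-(β j : ℤ)) 1 : ℤ[ℤ]) = single a v := by
        rw [mul_neg, single_mul_single, add_neg_cancel_right, mul_one, single_neg, neg_neg]
      rw [h2, h1]
  obtain ⟨a, v, hv, hav⟩ := hunit univ
  have hQden : Q = single a v * mapDomainRingHom ℤ κ (den Φ) := by
    rw [hden, ← mul_assoc, hav, one_mul]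
  have hn1 : (single (n : ℤ) 1 * single (-(n : ℤ)) 1 : ℤ[ℤ]) = 1 := by
    rw [single_mul_single, add_neg_cancel, one_mul]
    rfl
  have hCmap : mapDomainRingHom ℤ κ C = toLaurent p * single (-(n : ℤ)) 1 := by
    rw [hp, mul_assoc, hn1, mul_one]
  have hinj : ∀ x y : ℤ[Fin r → ℤ], (x.coeff.support : Set (Fin r → ℤ)) ⊆ S →
      (y.coeff.support : Set (Fin r → ℤ)) ⊆ S →
      mapDomainRingHom ℤ κ x = mapDomainRingHom ℤ κ y → x = y := by
    intro x y hx hy hxy
    rw [mapDomainRingHom_apply, mapDomainRingHom_apply] at hxy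
    have h1 : Finsupp.mapDomain κ x.coeff = Finsupp.mapDomain κ y.coeff :=
      congrArg AddMonoidAlgebra.coeff hxy
    exact AddMonoidAlgebra.ext (Finsupp.mapDomain_injOn (S : Set (Fin r → ℤ)) hκinj hx hy h1)
  have hCS : (C.coeff.support : Set (Fin r → ℤ)) ⊆ S := by
    intro x hx
    rw [mem_coe, hS]
    exact mem_union_left _ (mem_union_left _ hx)
  have hDS : ((den Φ).coeff.support : Set (Fin r → ℤ)) ⊆ S := by
    intro x hx
    rw [mem_coe, hS]
    exact mem_union_left _ (mem_union_right _ hx)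
  rcases one_var (m + m) (Fin.append β β) (by
      intro i
      refine Fin.addCases (fun j => ?_) (fun j => ?_) i
      · rw [Fin.append_left]; exact hβ1 j
      · rw [Fin.append_right]; exact hβ1 j) p hbound with h0 | ⟨k, u, hu, hpk⟩
  · exfalso
    apply hC
    apply hinj C 0 hCS (by simp)
    rw [hCmap, h0, map_zero, map_zero, zero_mul]
  have hpk' : toLaurent p = single (k : ℤ) u * Q := by
    rw [hpk, Fin.prod_univ_add]
    simp only [Fin.append_left, Fin.append_right]
    rw [← sq, map_mul, map_mul, toLaurent_C, toLaurent_X_pow, map_pow, map_prod, hQ]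
    have h1 : (LaurentPolynomial.C u * LaurentPolynomial.T (k : ℤ) : ℤ[ℤ]) = single (k : ℤ) u := by
      rw [LaurentPolynomial.single_eq_C_mul_T]
    rw [h1]
    congr 2
    refine prod_congr rfl fun j _ => ?_
    rw [map_sub, map_one, toLaurent_X_pow]
    rfl
  have hCk : mapDomainRingHom ℤ κ C =
      single (k + a + -(n : ℤ)) (u * v) * mapDomainRingHom ℤ κ (den Φ) := by
    rw [hCmap, hpk', hQden, ← mul_assoc, single_mul_single, mul_assoc, mul_comm _ (single (-(n : ℤ)) 1),
      ← mul_assoc, single_mul_single, mul_one]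
  have huv : u * v = 1 ∨ u * v = -1 := by
    rcases hu with rfl | rfl <;> rcases hv with rfl | rfl <;> simp
  set k' : ℤ := k + a + -(n : ℤ) with hk'
  have h0S : (0 : Fin r → ℤ) ∈ ((den Φ).coeff.support : Set (Fin r → ℤ)) := by
    rw [mem_coe, Finsupp.mem_support_iff]
    exact hD0
  have hc0 : (mapDomainRingHom ℤ κ (den Φ)).coeff 0 = (den Φ).coeff 0 := by
    have h1 := Finsupp.mapDomain_apply' (S : Set (Fin r → ℤ)) (den Φ).coeff hDS hκinj (hDS h0S)
    rw [map_zero] at h1
    exact h1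
  have hck : (mapDomainRingHom ℤ κ C).coeff k' ≠ 0 := by
    rw [hCk, coeff_single_mul_apply, neg_add_cancel, hc0]
    refine mul_ne_zero ?_ hD0
    rcases huv with h1 | h1 <;> rw [h1] <;> norm_num
  obtain ⟨μ, hμ, hμk⟩ : ∃ μ ∈ C.coeff.support, κ μ = k' := by
    have h1 : k' ∈ (Finsupp.mapDomain κ C.coeff).support := by
      rw [Finsupp.mem_support_iff]
      exact hck
    have h2 := Finsupp.mapDomain_support h1
    obtain ⟨μ, hμ, h3⟩ := mem_image.1 h2
    exact ⟨μ, hμ, h3⟩
  refine ⟨μ, u * v, huv, ?_⟩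
  refine hinj _ _ hCS ?_ ?_
  · intro x hx
    rw [mem_coe, Finsupp.mem_support_iff, coeff_single_mul_apply] at hx
    have h1 : -μ + x ∈ S₂ := by
      rw [hS₂, Finsupp.mem_support_iff]
      exact right_ne_zero_of_mul hx
    rw [mem_coe, hS]
    refine mem_union_right _ (mem_image.2 ⟨(μ, -μ + x), mem_product.2 ⟨hμ, h1⟩, ?_⟩)
    simp
  · have h1 : mapDomainRingHom ℤ κ (single μ (u * v)) = single k' (u * v) := by
      rw [mapDomainRingHom_apply, mapDomain_single, hμk]
    rw [hCk, map_mul, h1]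

end Pool.Agent.Q167.FD
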