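import Pool.Agent.Q167.FD.Conc
import Pool.Agent.Q284.IM.Two

/-!
# The L-functions of the tensor products of the exterior powers
-/

set_option autoImplicit false
set_option linter.unusedSectionVars false

namespace Pool.Agent.Q167.FD

open Filter Topology Complex NumberField IsDedekindDomain Pool.Agent.W540.BE Pool.Agent.TH553.RS
  Pool.Agent.TH553.ST Pool.Agent.H341R2

section

variable {g : ℕ}

/-- the index set of the eigenvalues -/
abbrev IX (g : ℕ) (n : Fin g → ℕ) : Type :=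
  (k : Fin g) → Fin (n k) → {S : Finset (Fin g × Bool) // S.card = (k : ℕ) + 1}

/-- the eigenvalues of the tensor products -/
noncomputable def egv (n : Fin g → ℕ) (t : Fin g → ℝ) (S : IX g n) : ℂ :=
  ∏ k : Fin g, ∏ i : Fin (n k), ∏ x ∈ (S k i).1, ev t x

theorem norm_ev (t : Fin g → ℝ) (x : Fin g × Bool) : ‖ev t x‖ = 1 :=
  Complex.norm_exp_ofReal_mul_I _

theorem norm_egv (n : Fin g → ℕ) (t : Fin g → ℝ) (S : IX g n) : ‖egv n t S‖ = 1 := by
  unfold egv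
  rw [norm_prod]
  refine Finset.prod_eq_one fun k _ => ?_
  rw [norm_prod]
  refine Finset.prod_eq_one fun i _ => ?_
  rw [norm_prod]
  exact Finset.prod_eq_one fun x _ => norm_ev t x

theorem sum_sub_E (k : ℕ) (t : Fin g → ℝ) :
    ∑ S : {S : Finset (Fin g × Bool) // S.card = k}, ∏ x ∈ S.1, ev t x = E k t := by
  unfold E
  rw [Finset.sum_subtype (p := fun S : Finset (Fin g × Bool) => S.card = k) _ (by
    intro S
    simp [Finset.mem_powersetCard])]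

theorem sum_egv (n : Fin g → ℕ) (t : Fin g → ℝ) : ∑ S : IX g n, egv n t S = ((chR n t : ℝ) : ℂ) := by
  unfold chR
  rw [Complex.ofReal_prod]
  have h1 : ∀ k : Fin g, ((Er ((k : ℕ) + 1) t ^ n k : ℝ) : ℂ) =
      ∑ f : Fin (n k) → {S : Finset (Fin g × Bool) // S.card = (k : ℕ) + 1},
        ∏ i, ∏ x ∈ (f i).1, ev t x := by
    intro k
    rw [Complex.ofReal_pow, ← E_real, ← sum_sub_E]
    have h2 := Finset.prod_univ_sum
      (fun _ : Fin (n k) => (Finset.univ : Finset {S : Finset (Fin g × Bool) // S.card = (k : ℕ) + 1}))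
      (fun _ S => ∏ x ∈ S.1, ev t x)
    rw [Fintype.piFinset_univ, Finset.prod_const, Finset.card_univ, Fintype.card_fin] at h2
    exact h2
  rw [Finset.prod_congr rfl fun k _ => h1 k]
  have h3 := Finset.prod_univ_sum
    (fun k : Fin g => (Finset.univ : Finset (Fin (n k) →
      {S : Finset (Fin g × Bool) // S.card = (k : ℕ) + 1})))
    (fun k f => ∏ i, ∏ x ∈ (f i).1, ev t x)
  rw [Fintype.piFinset_univ] at h3
  exact h3.symm

variable {K : Type} [Field K] [NumberField K] (θ : HeightOneSpectrum (𝓞 K) → Fin g → ℝ)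

/-- the L-functions -/
noncomputable def TL (n : Fin g → ℕ) (s : ℂ) : ℂ :=
  ∏' v, (∏ S : IX g n, (1 - egv n (θ v) S * ((nm K v : ℕ) : ℂ) ^ (-s)))⁻¹

/-- the number of the eigenvalues -/
noncomputable def nb (n : Fin g → ℕ) : ℕ := Fintype.card (IX g n)

/-- the eigenvalues, numbered -/
noncomputable def ae (n : Fin g → ℕ) (v : HeightOneSpectrum (𝓞 K)) (k : Fin (nb n)) : ℂ :=
  egv n (θ v) ((Fintype.equivFin (IX g n)).symm k)

theorem norm_ae (n : Fin g → ℕ) (v : HeightOneSpectrum (𝓞 K)) (k : Fin (nb n)) : ‖ae θ n v k‖ = 1 :=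
  norm_egv n _ _

theorem sum_ae (n : Fin g → ℕ) (v : HeightOneSpectrum (𝓞 K)) :
    ∑ k, ae θ n v k = ((chR n (θ v) : ℝ) : ℂ) := by
  rw [← sum_egv]
  exact Equiv.sum_comp (Fintype.equivFin (IX g n)).symm (egv n (θ v))

theorem prod_ae (n : Fin g → ℕ) (v : HeightOneSpectrum (𝓞 K)) (z : ℂ) :
    ∏ k, (1 - ae θ n v k * z) = ∏ S : IX g n, (1 - egv n (θ v) S * z) :=
  Equiv.prod_comp (Fintype.equivFin (IX g n)).symm (fun S => 1 - egv n (θ v) S * z)

theorem TL_eq (n : Fin g → ℕ) (s : ℂ) :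
    TL θ n s = ∏' v, (∏ k, (1 - ae θ n v k * ((nm K v : ℕ) : ℂ) ^ (-s)))⁻¹ := by
  unfold TL
  exact tprod_congr fun v => by rw [prod_ae]

theorem size_TL (n : Fin g → ℕ) (τ : ℝ) : (∀ᶠ ε : ℝ in 𝓝[>] 0, TL θ n (1 + τ * I + ε) ≠ 0) ∧
    Tendsto (fun ε : ℝ => qt (nm K) (fun v =>
      (((chR n (θ v) : ℝ) : ℂ) * ((nm K v : ℕ) : ℂ) ^ (-(τ * I : ℂ))).re) ε -
      Real.log ‖TL θ n (1 + τ * I + ε)‖ / Real.log (1 / ε)) (𝓝[>] 0) (𝓝 0) := by
  set B : HeightOneSpectrum (𝓞 K) → Polynomial ℂ := fun v =>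
    ∏ k, (1 - Polynomial.C (ae θ n v k) * Polynomial.X) with hB
  have hBe : ∀ v z, (B v).eval z = ∏ k, (1 - ae θ n v k * z) := by
    intro v z
    rw [hB]
    simp [Polynomial.eval_prod]
  obtain ⟨C, hC⟩ := bd_of θ (chR_bc n)
  exact size_unit (sysF K) (ae θ n) (Filter.Eventually.of_forall (norm_ae θ n))
    (t := fun v => ((chR n (θ v) : ℝ) : ℂ)) (C := C)
    (fun v => by rw [Complex.norm_real]; exact hC v)
    (Filter.Eventually.of_forall fun v => sum_ae θ n v) τ B (Filter.Eventually.of_forall hBe)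
    (fun v => by
      rw [hBe, Finset.prod_ne_zero_iff]
      intro j _ h4
      have h5 : ‖ae θ n v j * ((nm K v : ℕ) : ℂ) ^ (-(1 + τ * I : ℂ))‖ = 1 := by
        have : ae θ n v j * ((nm K v : ℕ) : ℂ) ^ (-(1 + τ * I : ℂ)) = 1 := by
          linear_combination -h4
        rw [this, norm_one]
      rw [norm_mul, norm_ae, one_mul] at h5
      have h6 := cpow_le_half normSys v (s := 1 + τ * I) (by simp)
      linarith) (TL θ n)
    (fun s _ => by
      rw [TL_eq]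
      refine tprod_congr fun v => ?_
      rw [hBe])

/-- a continuation -/
def Ct (n : Fin g → ℕ) (τ : ℝ) (Λ : ℂ → ℂ) : Prop :=
  MeromorphicAt Λ (1 + τ * I) ∧ ∀ᶠ s in 𝓝 ((1 : ℂ) + τ * I), (1 : ℝ) < s.re → Λ s = TL θ n s

/-- the mean values and the orders -/
theorem order_TL {n : Fin g → ℕ} {τ : ℝ} {Λ : ℂ → ℂ} (hΛ : Ct θ n τ Λ) :
    ∃ m : ℤ, meromorphicOrderAt Λ (1 + τ * I) = m ∧
      ∀ U : Ultrafilter ℝ, (U : Filter ℝ) ≤ 𝓝[>] 0 → M (nm K) U (fun v =>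
        chR n (θ v) * (((nm K v : ℕ) : ℂ) ^ (-(τ * I : ℂ))).re) = -(m : ℝ) := by
  obtain ⟨m, hm1, hm2⟩ := order_unit (size_TL θ n τ).1 hΛ.1 hΛ.2
  refine ⟨m, hm1, fun U hU => ?_⟩
  refine M_of_tendsto hU ?_
  have h3 := (size_TL θ n τ).2.add hm2
  rw [zero_add] at h3
  refine h3.congr fun ε => ?_
  simp only [Complex.re_ofReal_mul]
  ring

/-- **The orders of the poles.** -/
theorem exists_m (hc : ∀ n, ∃ Λ, Ct θ n 0 Λ) :
    ∃ m : (Fin g → ℕ) → ℤ,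
      (∀ n, ∀ Λ, Ct θ n 0 Λ →
        meromorphicOrderAt Λ (1 + (0 : ℝ) * I) = ((-m n : ℤ) : WithTop ℤ)) ∧
      ∀ U : Ultrafilter ℝ, (U : Filter ℝ) ≤ 𝓝[>] 0 → ∀ n,
        M (nm K) U (fun v => chR n (θ v)) = m n := by
  have hval : ∀ n Λ, Ct θ n 0 Λ → ∃ m : ℤ, meromorphicOrderAt Λ (1 + (0 : ℝ) * I) = m ∧
      ∀ U : Ultrafilter ℝ, (U : Filter ℝ) ≤ 𝓝[>] 0 → M (nm K) U (fun v => chR n (θ v)) = -m := by
    intro n Λ hΛ
    obtain ⟨m, hm1, hm2⟩ := order_TL θ hΛ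
    refine ⟨m, hm1, fun U hU => ?_⟩
    rw [← hm2 U hU]
    congr 1
    funext v
    simp
  have h1 : ∀ n, ∃ m : ℤ, (∀ Λ, Ct θ n 0 Λ →
      meromorphicOrderAt Λ (1 + (0 : ℝ) * I) = ((-m : ℤ) : WithTop ℤ)) ∧
      ∀ U : Ultrafilter ℝ, (U : Filter ℝ) ≤ 𝓝[>] 0 → M (nm K) U (fun v => chR n (θ v)) = m := by
    intro n
    obtain ⟨Λ, hΛ⟩ := hc n
    obtain ⟨m, hm1, hm2⟩ := hval n Λ hΛ
    refine ⟨-m, fun Λ' hΛ' => ?_, fun U hU => ?_⟩
    · obtain ⟨m', hm1', hm2'⟩ := hval n Λ' hΛ'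
      have h2 := hm2 (Ultrafilter.of (𝓝[>] 0)) (Ultrafilter.of_le _)
      rw [hm2' (Ultrafilter.of (𝓝[>] 0)) (Ultrafilter.of_le _)] at h2
      have h3 : m' = m := by
        have : (m' : ℝ) = m := by linarith
        exact_mod_cast this
      rw [hm1', h3, neg_neg]
    · rw [hm2 U hU]
      push_cast
      rfl
  choose m hm using h1
  exact ⟨m, fun n => (hm n).1, fun U hU n => (hm n).2 U hU⟩

end

end Pool.Agent.Q167.FD
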