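import Pool.Agent.Q167.FD.Rigid

/-!
# Finite determination: the main theorem on positive definite functions
-/

set_option autoImplicit false

open Finset AddMonoidAlgebra Filter Topology

namespace Pool.Agent.Q167.FD

/-- the box -/
noncomputable def Box (r n : ℕ) : Finset (Fin r → ℤ) := Fintype.piFinset fun _ => Ico 0 (n : ℤ)

theorem card_shift {r : ℕ} (n : ℕ) (d : Fin r → ℤ) :
    ((Box r n).filter (fun a => a - d ∈ Box r n)).card = ∏ j, ((n : ℤ) - |d j|).toNat := by
  classical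
  have h1 : (Box r n).filter (fun a => a - d ∈ Box r n) =
      Fintype.piFinset fun j => Ico (max 0 (d j)) (min (n : ℤ) (n + d j)) := by
    ext a
    simp only [Box, mem_filter, Fintype.mem_piFinset, mem_Ico, Pi.sub_apply, max_le_iff, lt_min_iff]
    constructor
    · rintro ⟨h1, h2⟩ j
      have := h1 j
      have := h2 j
      omega
    · intro h
      constructor
      · intro j
        have := h j
        omega
      · intro j
        have := h j
        omega
  rw [h1, Fintype.card_piFinset]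
  refine prod_congr rfl fun j _ => ?_
  rw [Int.card_Ico]
  congr 1
  rcases abs_cases (d j) with ⟨h2, h3⟩ | ⟨h2, h3⟩ <;> omega

theorem tendsto_card {r : ℕ} (d : Fin r → ℤ) :
    Tendsto (fun n : ℕ => (((Box r n).filter (fun a => a - d ∈ Box r n)).card : ℂ) / (n : ℂ) ^ r)
      atTop (𝓝 1) := by
  have h1 : ∀ j, Tendsto (fun n : ℕ => ((((n : ℤ) - |d j|).toNat : ℝ) / n)) atTop (𝓝 1) := by
    intro j
    have h2 : Tendsto (fun n : ℕ => 1 - (|d j| : ℝ) / n) atTop (𝓝 (1 - 0)) :=
      tendsto_const_nhds.sub (tendsto_const_div_atTop_nhds_zero_nat _)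
    rw [sub_zero] at h2
    refine h2.congr' ?_
    filter_upwards [eventually_ge_atTop (|d j|.toNat + 1)] with n hn
    have hn' : |d j| ≤ n := by
      have := Int.toNat_of_nonneg (abs_nonneg (d j))
      omega
    have h3 : ((((n : ℤ) - |d j|).toNat : ℕ) : ℝ) = (n : ℝ) - |(d j : ℝ)| := by
      have h4 : (((((n : ℤ) - |d j|).toNat : ℕ) : ℤ) : ℝ) = (((n : ℤ) - |d j| : ℤ) : ℝ) := by
        rw [Int.toNat_of_nonneg (by omega)]
      push_cast at h4
      rw [← h4]
    rw [h3]
    have hn0 : (n : ℝ) ≠ 0 := by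
      have : n ≠ 0 := by omega
      exact_mod_cast this
    field_simp
  have h2 : Tendsto (fun n : ℕ => ∏ j : Fin r, ((((n : ℤ) - |d j|).toNat : ℝ) / n)) atTop
      (𝓝 (∏ _j : Fin r, 1)) := tendsto_finsetProd _ fun j _ => h1 j
  rw [prod_const_one] at h2
  have h3 := (Complex.continuous_ofReal.tendsto 1).comp h2
  rw [Complex.ofReal_one] at h3
  refine h3.congr fun n => ?_
  rw [card_shift, Function.comp_apply, prod_div_distrib, prod_const, card_univ, Fintype.card_fin]
  push_cast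
  rfl

theorem tendsto_avg {r : ℕ} (F : (Fin r → ℤ) → ℂ) (T : Finset (Fin r → ℤ))
    (hT : ∀ d, d ∉ T → F d = 0) :
    Tendsto (fun n : ℕ => (∑ a ∈ Box r n, ∑ b ∈ Box r n, F (a - b)) / (n : ℂ) ^ r) atTop
      (𝓝 (∑ d ∈ T, F d)) := by
  classical
  have h1 : ∀ n : ℕ, ∑ a ∈ Box r n, ∑ b ∈ Box r n, F (a - b) =
      ∑ d ∈ T, F d * (((Box r n).filter (fun a => a - d ∈ Box r n)).card : ℂ) := by
    intro n
    have h2 : ∀ a ∈ Box r n, ∑ b ∈ Box r n, F (a - b) =
        ∑ d ∈ T, if a - d ∈ Box r n then F d else 0 := by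
      intro a _
      rw [← sum_filter]
      have h3 : ∑ b ∈ Box r n, F (a - b) = ∑ b ∈ (Box r n).filter (fun b => a - b ∈ T), F (a - b) := by
        rw [sum_filter]
        refine sum_congr rfl fun b _ => ?_
        split_ifs with h
        · rfl
        · exact hT _ h
      rw [h3]
      refine sum_nbij' (fun b => a - b) (fun d => a - d) ?_ ?_ ?_ ?_ ?_
      · intro b hb
        rw [mem_filter] at hb ⊢
        exact ⟨hb.2, by rw [sub_sub_cancel]; exact hb.1⟩
      · intro d hd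
        rw [mem_filter] at hd ⊢
        exact ⟨hd.2, by rw [sub_sub_cancel]; exact hd.1⟩
      · intro b _; exact sub_sub_cancel _ _
      · intro d _; exact sub_sub_cancel _ _
      · intro b _; rfl
    rw [sum_congr rfl h2, sum_comm]
    refine sum_congr rfl fun d _ => ?_
    rw [← sum_filter, sum_const, nsmul_eq_mul, mul_comm]
  have h2 : Tendsto (fun n : ℕ => ∑ d ∈ T, F d *
      ((((Box r n).filter (fun a => a - d ∈ Box r n)).card : ℂ) / (n : ℂ) ^ r)) atTop
      (𝓝 (∑ d ∈ T, F d * 1)) :=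
    tendsto_finsetSum _ fun d _ => (tendsto_card d).const_mul _
  simp only [mul_one] at h2
  refine h2.congr fun n => ?_
  rw [h1, sum_div]
  refine sum_congr rfl fun d _ => ?_
  rw [mul_div_assoc]

/-- the coefficients of the density -/
noncomputable def co {r m : ℕ} (Φ : Fin m → (Fin r → ℤ)) (a : Fin r → ℤ) : ℤ := (den Φ).coeff a

/-- **The limit case.** An integer valued function which satisfies the inequalities of Fejér and of
Bessel with respect to the density is zero or a translate of the coefficients. -/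
theorem limit_case {r m : ℕ} (Φ : Fin m → (Fin r → ℤ)) (hΦ : ∀ j, Φ j ≠ 0)
    (hD0 : 0 < co Φ 0) (ψ : (Fin r → ℤ) → ℤ) (M : ℝ)
    (hB : ∀ S : Finset (Fin r → ℤ), ∑ a ∈ S, (ψ a : ℝ) ^ 2 ≤ M)
    (hF : ∀ (n : ℕ) (t : (Fin r → ℤ) →+ ℝ),
      ‖∑ a ∈ Box r n, ∑ b ∈ Box r n, chr t (Multiplicative.ofAdd (a - b)) * (ψ (a - b) : ℂ)‖ ≤
      ‖∑ a ∈ Box r n, ∑ b ∈ Box r n, chr t (Multiplicative.ofAdd (a - b)) * (co Φ (a - b) : ℂ)‖) :
    (∀ a, ψ a = 0) ∨ ∃ μ, |ψ μ| = co Φ 0 := by
  classical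
  -- finite support
  have hfin : (Function.support ψ).Finite := by
    by_contra hinf
    obtain ⟨N, hN⟩ := exists_nat_gt M
    obtain ⟨S, hS, hSc⟩ := (show (Function.support ψ).Infinite from hinf).exists_subset_card_eq (N + 1)
    have h1 := hB S
    have h2 : ∑ a ∈ S, (1 : ℝ) ≤ ∑ a ∈ S, (ψ a : ℝ) ^ 2 := by
      refine sum_le_sum fun a ha => ?_
      have h3 : ψ a ≠ 0 := hS ha
      have h4 : (1 : ℤ) ≤ |ψ a| := Int.one_le_abs h3
      have h5 : (1 : ℝ) ≤ |(ψ a : ℝ)| := by exact_mod_cast h4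
      rw [← sq_abs]
      nlinarith
    rw [sum_const, hSc, nsmul_eq_mul, mul_one] at h2
    push_cast at h2
    linarith
  set C : ℤ[Fin r → ℤ] := .ofCoeff (Finsupp.ofSupportFinite ψ hfin) with hC
  have hCc : ∀ a, C.coeff a = ψ a := fun a => rfl
  have hev : ∀ (E : ℤ[Fin r → ℤ]) (t : (Fin r → ℤ) →+ ℝ), Tendsto (fun n : ℕ =>
      (∑ a ∈ Box r n, ∑ b ∈ Box r n, chr t (Multiplicative.ofAdd (a - b)) *
        (E.coeff (a - b) : ℂ)) / (n : ℂ) ^ r) atTop (𝓝 (evh t E)) := by
    intro E t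
    have h1 := tendsto_avg (fun d => chr t (Multiplicative.ofAdd d) * (E.coeff d : ℂ))
      E.coeff.support (fun d hd => by
        rw [Finsupp.notMem_support_iff] at hd
        rw [hd]
        simp)
    have h2 : evh t E = ∑ d ∈ E.coeff.support, chr t (Multiplicative.ofAdd d) * (E.coeff d : ℂ) := by
      rw [evh_apply]
      refine sum_congr rfl fun d _ => ?_
      rw [mul_comm]
      rfl
    rw [h2]
    exact h1
  have hle : ∀ t : (Fin r → ℤ) →+ ℝ, ‖evh t C‖ ≤ ‖evh t (den Φ)‖ := by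
    intro t
    refine le_of_tendsto_of_tendsto' (hev C t).norm (hev (den Φ) t).norm fun n => ?_
    rw [norm_div, norm_div]
    exact div_le_div_of_nonneg_right (hF n t) (norm_nonneg _)
  rcases exact Φ hΦ (by unfold co at hD0; omega) C hle with h0 | ⟨μ, u, hu, hCμ⟩
  · left
    intro a
    rw [← hCc, h0]
    rfl
  · right
    refine ⟨μ, ?_⟩
    rw [← hCc, hCμ, coeff_single_mul_apply, neg_add_cancel]
    show |u * co Φ 0| = co Φ 0
    rw [abs_mul]
    rcases hu with rfl | rfl
    · rw [abs_one, one_mul, abs_of_pos hD0]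
    · rw [abs_neg, abs_one, one_mul, abs_of_pos hD0]

/-- values of bounded integer sequences along ultrafilters -/
theorem ultra_value {ι : Type} (U : Ultrafilter ι) (f : ι → ℤ) (N : ℤ) (h : ∀ i, |f i| ≤ N) :
    ∃ v : ℤ, ∀ᶠ i in (U : Filter ι), f i = v := by
  classical
  have h1 : (⋃ v ∈ (Set.Icc (-N) N), {i | f i = v}) ∈ U := by
    refine Filter.univ_mem' fun i => ?_
    rw [Set.mem_iUnion₂]
    exact ⟨f i, abs_le.1 (h i), rfl⟩
  obtain ⟨v, -, hv⟩ := (Ultrafilter.finite_biUnion_mem_iff (Set.finite_Icc (-N) N)).1 h1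
  exact ⟨v, hv⟩

/-- **Finite determination.** -/
theorem rigid {r m : ℕ} (Φ : Fin m → (Fin r → ℤ)) (hΦ : ∀ j, Φ j ≠ 0) (hD0 : 0 < co Φ 0) :
    ∃ R : ℕ, ∀ φ : (Fin r → ℤ) → ℤ, PD (fun a => (φ a : ℝ)) →
      (∀ a : Fin r → ℤ, (∀ j, |a j| ≤ R) → φ a = co Φ a) →
      (∀ a, φ a = co Φ a) ∨ ∃ a, a ≠ 0 ∧ |φ a| = φ 0 := by
  classical
  by_contra hcon
  push Not at hcon
  choose φ hPD hagr hne hno using hcon
  choose l hl using hne
  set U : Ultrafilter ℕ := Filter.hyperfilter ℕ with hU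
  have hUtop : (U : Filter ℕ) ≤ atTop := by
    rw [hU, ← Nat.cofinite_eq_atTop]
    exact Filter.hyperfilter_le_cofinite
  have h00 : ∀ R, φ R 0 = co Φ 0 := fun R => hagr R 0 (by simp)
  have hbd : ∀ R a, |φ R a| ≤ co Φ 0 := by
    intro R a
    have h1 := (hPD R).bound a
    have h2 : |(φ R a : ℝ)| ≤ ((co Φ 0 : ℤ) : ℝ) := by
      rw [← h00 R]
      exact h1
    exact_mod_cast h2
  choose ψ hψ using fun a : Fin r → ℤ => ultra_value U (fun R => φ R (l R + a)) (co Φ 0)
    (fun R => hbd R _)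
  -- agreement with the density on finite sets
  have hag : ∀ a : Fin r → ℤ, ∀ᶠ R in (U : Filter ℕ), φ R a = co Φ a := by
    intro a
    have h1 : ∀ᶠ R : ℕ in atTop, ∀ j, |a j| ≤ R := by
      rw [Filter.eventually_all]
      intro j
      filter_upwards [eventually_ge_atTop (|a j|.toNat)] with R hR
      have := Int.toNat_of_nonneg (abs_nonneg (a j))
      omega
    filter_upwards [hUtop h1] with R hR
    exact hagr R a hR
  set T : Finset (Fin r → ℤ) := (den Φ).coeff.support with hT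
  have hT0 : ∀ d, d ∉ T → (co Φ d : ℝ) = 0 := by
    intro d hd
    rw [hT, Finsupp.notMem_support_iff] at hd
    show (((den Φ).coeff d : ℤ) : ℝ) = 0
    rw [hd]
    simp
  set L : ℝ := 1 + ∑ d ∈ T, |(co Φ d : ℝ)| with hL
  have hL0 : 0 < L := by
    have : 0 ≤ ∑ d ∈ T, |(co Φ d : ℝ)| := sum_nonneg fun _ _ => abs_nonneg _
    linarith
  have hcase := limit_case Φ hΦ hD0 ψ (L * co Φ 0) (by
    intro S
    have h1 : ∀ᶠ R in (U : Filter ℕ), ∀ a ∈ S, φ R (l R + a) = ψ a := by
      rw [Filter.eventually_all_finset]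
      intro a _
      exact hψ a
    have h2 : ∀ᶠ R in (U : Filter ℕ), ∀ a ∈ S, ∀ b ∈ S, φ R (a - b) = co Φ (a - b) := by
      rw [Filter.eventually_all_finset]
      intro a _
      rw [Filter.eventually_all_finset]
      intro b _
      exact hag _
    obtain ⟨R, hR1, hR2⟩ := (h1.and h2).exists
    have h3 := (hPD R).bessel (l R) S (fun d => (co Φ d : ℝ)) T hT0
      (fun a ha b hb => by exact_mod_cast hR2 a ha b hb) hL0 (by linarith)
    rw [h00 R] at h3
    refine le_trans (le_of_eq ?_) h3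
    refine sum_congr rfl fun a ha => ?_
    rw [hR1 a ha]) (by
    intro n t
    have h1 : ∀ᶠ R in (U : Filter ℕ), ∀ a ∈ Box r n, ∀ b ∈ Box r n,
        φ R (l R + (a - b)) = ψ (a - b) := by
      rw [Filter.eventually_all_finset]
      intro a _
      rw [Filter.eventually_all_finset]
      intro b _
      exact hψ _
    have h2 : ∀ᶠ R in (U : Filter ℕ), ∀ a ∈ Box r n, ∀ b ∈ Box r n,
        φ R (a - b) = co Φ (a - b) := by
      rw [Filter.eventually_all_finset]
      intro a _
      rw [Filter.eventually_all_finset]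
      intro b _
      exact hag _
    obtain ⟨R, hR1, hR2⟩ := (h1.and h2).exists
    have h3 := (hPD R).fejer (l R) (Box r n) (fun d => chr t (Multiplicative.ofAdd d)) (by
      intro a b
      show Complex.exp ((t (a - b) : ℝ) * Complex.I) = Complex.exp ((t a : ℝ) * Complex.I) *
        (starRingEnd ℂ) (Complex.exp ((t b : ℝ) * Complex.I))
      rw [← Complex.exp_conj, ← Complex.exp_add, map_mul, Complex.conj_ofReal, Complex.conj_I,
        map_sub]
      congr 1
      push_cast
      ring)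
    have e1 : ∑ a ∈ Box r n, ∑ b ∈ Box r n, chr t (Multiplicative.ofAdd (a - b)) *
        (ψ (a - b) : ℂ) = ∑ a ∈ Box r n, ∑ b ∈ Box r n, chr t (Multiplicative.ofAdd (a - b)) *
        (((φ R (l R + (a - b)) : ℤ) : ℝ) : ℂ) := by
      refine sum_congr rfl fun a ha => sum_congr rfl fun b hb => ?_
      rw [hR1 a ha b hb]
      push_cast
      rfl
    have e2 : ∑ a ∈ Box r n, ∑ b ∈ Box r n, chr t (Multiplicative.ofAdd (a - b)) *
        (co Φ (a - b) : ℂ) = ∑ a ∈ Box r n, ∑ b ∈ Box r n, chr t (Multiplicative.ofAdd (a - b)) *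
        (((φ R (a - b) : ℤ) : ℝ) : ℂ) := by
      refine sum_congr rfl fun a ha => sum_congr rfl fun b hb => ?_
      rw [hR2 a ha b hb]
      push_cast
      rfl
    rw [e1, e2]
    exact h3)
  -- the points l R leave all finite sets
  have hlfar : ∀ a : Fin r → ℤ, ∀ᶠ R in (U : Filter ℕ), l R ≠ a := by
    intro a
    filter_upwards [hag a] with R hR h
    apply hl R
    rw [h]
    exact hR
  rcases hcase with h0 | ⟨μ, hμ⟩
  · -- `φ R (l R) ≠ 0`
    have h1 := h0 0
    have h2 : ∀ᶠ R in (U : Filter ℕ), co Φ (l R) = 0 := by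
      have h3 : ∀ᶠ R in (U : Filter ℕ), ∀ d ∈ T, l R ≠ d := by
        rw [Filter.eventually_all_finset]
        intro d _
        exact hlfar d
      filter_upwards [h3] with R hR
      by_contra h4
      have h5 : l R ∈ T := by
        rw [hT, Finsupp.mem_support_iff]
        exact h4
      exact hR _ h5 rfl
    obtain ⟨R, hR1, hR2⟩ := ((hψ 0).and h2).exists
    apply hl R
    rw [add_zero, h1] at hR1
    rw [hR1, hR2]
  · obtain ⟨R, hR1, hR2⟩ := ((hψ μ).and (hlfar (-μ))).exists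
    refine hno R (l R + μ) ?_ ?_
    · intro h
      apply hR2
      rw [← add_eq_zero_iff_eq_neg]
      exact h
    · rw [hR1, hμ, h00]

end Pool.Agent.Q167.FD
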