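import Pool.Agent.Q167.FD.Nrm

/-!
# Means on the torus
-/

set_option autoImplicit false

open Finset MeasureTheory

namespace Pool.Agent.Q167.FD

section

variable {g : ℕ}

/-- bounded continuous functions -/
def Bc (f : (Fin g → ℝ) → ℝ) : Prop := Continuous f ∧ ∃ B : ℝ, ∀ t, |f t| ≤ B

theorem Bc.add {f h : (Fin g → ℝ) → ℝ} (hf : Bc f) (hh : Bc h) : Bc fun t => f t + h t := by
  obtain ⟨h1, B, hB⟩ := hf
  obtain ⟨h2, B', hB'⟩ := hh
  exact ⟨h1.add h2, B + B', fun t => (abs_add_le _ _).trans (add_le_add (hB t) (hB' t))⟩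

theorem Bc.smul {f : (Fin g → ℝ) → ℝ} (hf : Bc f) (c : ℝ) : Bc fun t => c * f t := by
  obtain ⟨h1, B, hB⟩ := hf
  refine ⟨h1.const_mul c, |c| * B, fun t => ?_⟩
  rw [abs_mul]
  exact mul_le_mul_of_nonneg_left (hB t) (abs_nonneg c)

theorem Bc.const (c : ℝ) : Bc fun _ : Fin g → ℝ => c := ⟨continuous_const, |c|, fun _ => le_rfl⟩

theorem Bc.sum {κ : Type} (S : Finset κ) {f : κ → (Fin g → ℝ) → ℝ} (h : ∀ k ∈ S, Bc (f k)) :
    Bc fun t => ∑ k ∈ S, f k t := by
  classical
  induction S using Finset.induction_on with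
  | empty => simpa using Bc.const (g := g) 0
  | insert a S ha ih =>
    simp only [Finset.sum_insert ha]
    exact (h a (Finset.mem_insert_self _ _)).add (ih fun k hk => h k (Finset.mem_insert_of_mem hk))

/-- means -/
structure Mj (J : ((Fin g → ℝ) → ℝ) → ℝ) : Prop where
  add : ∀ f h, Bc f → Bc h → J (fun t => f t + h t) = J f + J h
  smul : ∀ (c : ℝ) f, Bc f → J (fun t => c * f t) = c * J f
  le : ∀ f B, Bc f → (∀ t, |f t| ≤ B) → |J f| ≤ B

theorem Mj.zero {J : ((Fin g → ℝ) → ℝ) → ℝ} (hJ : Mj J) : J (fun _ => 0) = 0 := by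
  have := hJ.smul 0 (fun _ => 0) (Bc.const 0)
  simpa using this

theorem Mj.sum {J : ((Fin g → ℝ) → ℝ) → ℝ} (hJ : Mj J) {κ : Type} (S : Finset κ)
    {f : κ → (Fin g → ℝ) → ℝ} (h : ∀ k ∈ S, Bc (f k)) :
    J (fun t => ∑ k ∈ S, f k t) = ∑ k ∈ S, J (f k) := by
  classical
  induction S using Finset.induction_on with
  | empty => simpa using hJ.zero
  | insert a S ha ih =>
    simp only [Finset.sum_insert ha]
    rw [hJ.add _ _ (h a (Finset.mem_insert_self _ _))
      (Bc.sum S fun k hk => h k (Finset.mem_insert_of_mem hk)),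
      ih fun k hk => h k (Finset.mem_insert_of_mem hk)]

theorem Mj.sub_le {J : ((Fin g → ℝ) → ℝ) → ℝ} (hJ : Mj J) {f h : (Fin g → ℝ) → ℝ} (hf : Bc f)
    (hh : Bc h) {ε : ℝ} (hε : ∀ t, |f t - h t| ≤ ε) : |J f - J h| ≤ ε := by
  have h1 : J (fun t => f t + (-1) * h t) = J f - J h := by
    rw [hJ.add _ _ hf (hh.smul _), hJ.smul _ _ hh]
    ring
  rw [← h1]
  refine hJ.le _ _ (hf.add (hh.smul _)) fun t => ?_
  have : f t + (-1) * h t = f t - h t := by ring
  rw [this]
  exact hε t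

theorem ms_bc (a : Fin g → ℤ) : Bc (ms (g := g) a) := by
  refine ⟨?_, ∑ _σ : Equiv.Perm (Fin g), ∏ _j : Fin g, 2, fun t => ?_⟩
  · unfold ms
    fun_prop
  · unfold ms
    refine (abs_sum_le_sum_abs _ _).trans (sum_le_sum fun σ _ => ?_)
    rw [abs_prod]
    refine prod_le_prod (fun _ _ => abs_nonneg _) fun j _ => ?_
    rw [abs_mul, abs_of_pos (by norm_num : (0 : ℝ) < 2)]
    have := Real.abs_cos_le_one (a j * t (σ j))
    linarith

/-- the span of the orbit sums -/
theorem span_bc {f : (Fin g → ℝ) → ℝ} (hf : f ∈ Submodule.span ℝ (Set.range (ms (g := g)))) :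
    Bc f := by
  induction hf using Submodule.span_induction with
  | mem x hx =>
    obtain ⟨a, rfl⟩ := hx
    exact ms_bc a
  | zero => exact Bc.const 0
  | add x y _ _ hx hy => exact hx.add hy
  | smul c x _ hx => exact hx.smul c

theorem span_eq {J J' : ((Fin g → ℝ) → ℝ) → ℝ} (hJ : Mj J) (hJ' : Mj J')
    (h : ∀ a, J (ms a) = J' (ms a)) {f : (Fin g → ℝ) → ℝ}
    (hf : f ∈ Submodule.span ℝ (Set.range (ms (g := g)))) : J f = J' f := by
  induction hf using Submodule.span_induction with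
  | mem x hx =>
    obtain ⟨a, rfl⟩ := hx
    exact h a
  | zero =>
    have h1 := hJ.zero
    have h2 := hJ'.zero
    exact h1.trans h2.symm
  | add x y hx' hy' hx hy =>
    have h1 := hJ.add x y (span_bc hx') (span_bc hy')
    have h2 := hJ'.add x y (span_bc hx') (span_bc hy')
    rw [hx, hy, ← h2] at h1
    exact h1
  | smul c x hx' hx =>
    have h1 := hJ.smul c x (span_bc hx')
    have h2 := hJ'.smul c x (span_bc hx')
    rw [hx, ← h2] at h1
    exact h1

theorem chR_bc (n : Fin g → ℕ) : Bc (chR (g := g) n) := span_bc (chR_mem n)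

/-- approximation by polynomials -/
theorem approx {F : (Fin g → ℝ) → ℝ} (hF : Continuous F) {ε : ℝ} (hε : 0 < ε) :
    ∃ P : MvPolynomial (Fin g) ℝ, ∀ t : Fin g → ℝ,
      |F (fun j => Real.cos (t j)) - MvPolynomial.eval (yy t) P| ≤ ε := by
  set X : Set (Fin g → ℝ) := Set.pi Set.univ fun _ => Set.Icc (-1) 1 with hX
  have hXc : IsCompact X := isCompact_univ_pi fun _ => isCompact_Icc
  have : CompactSpace X := isCompact_iff_compactSpace.1 hXc
  set co : Fin g → C(X, ℝ) := fun j => ⟨fun x => 2 * x.1 j,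
    continuous_const.mul ((continuous_apply j).comp continuous_subtype_val)⟩ with hco
  set A : Subalgebra ℝ C(X, ℝ) := (MvPolynomial.aeval co).range with hA
  have hsep : A.SeparatesPoints := by
    intro x y hxy
    obtain ⟨j, hj⟩ : ∃ j, x.1 j ≠ y.1 j := by
      by_contra h
      push Not at h
      exact hxy (Subtype.ext (funext h))
    refine ⟨fun x => 2 * x.1 j, ⟨co j, ⟨MvPolynomial.X j, by simp⟩, rfl⟩, ?_⟩
    simp only
    intro h
    apply hj
    linarith
  obtain ⟨⟨p, P, hP⟩, hp⟩ := ContinuousMap.exists_mem_subalgebra_near_continuous_of_separatesPoints A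
    hsep (fun x : X => F x.1) (hF.comp continuous_subtype_val) ε hε
  refine ⟨P, fun t => ?_⟩
  have hmem : (fun j => Real.cos (t j)) ∈ X := by
    rw [hX, Set.mem_univ_pi]
    intro j
    exact ⟨Real.neg_one_le_cos _, Real.cos_le_one _⟩
  have h1 := hp ⟨_, hmem⟩
  have h2 : (p : C(X, ℝ)) ⟨_, hmem⟩ = MvPolynomial.eval (yy t) P := by
    have h3 : (MvPolynomial.aeval co P : C(X, ℝ)) = p := hP
    rw [← h3]
    have h4 : (ContinuousMap.evalAlgHom ℝ ℝ (⟨_, hmem⟩ : X)) (MvPolynomial.aeval co P) =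
        MvPolynomial.aeval (yy t) P := by
      rw [← AlgHom.comp_apply]
      congr 1
      ext j
      simp [hco, yy]
    exact h4
  rw [Real.norm_eq_abs, abs_sub_comm] at h1
  refine le_of_lt ?_
  rw [← h2]
  exact h1

/-- **A symmetric law is determined by the orbit sums.** -/
theorem uniq {J J' : ((Fin g → ℝ) → ℝ) → ℝ} (hJ : Mj J) (hJ' : Mj J')
    (h : ∀ a, J (ms a) = J' (ms a)) {F : (Fin g → ℝ) → ℝ} (hF : Continuous F)
    (hs : ∀ (σ : Equiv.Perm (Fin g)) (x : Fin g → ℝ), F (fun j => x (σ j)) = F x) :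
    J (fun t => F fun j => Real.cos (t j)) = J' (fun t => F fun j => Real.cos (t j)) := by
  have hFb : Bc fun t : Fin g → ℝ => F fun j => Real.cos (t j) := by
    refine ⟨hF.comp (by fun_prop), ?_⟩
    have hXc : IsCompact (Set.pi Set.univ fun _ : Fin g => Set.Icc (-1 : ℝ) 1) :=
      isCompact_univ_pi fun _ => isCompact_Icc
    obtain ⟨B, hB⟩ := hXc.exists_bound_of_continuousOn hF.continuousOn
    refine ⟨B, fun t => hB _ ?_⟩
    rw [Set.mem_univ_pi]
    intro j
    exact ⟨Real.neg_one_le_cos _, Real.cos_le_one _⟩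
  refine eq_of_forall_dist_le fun ε hε => ?_
  rw [Real.dist_eq]
  obtain ⟨P, hP⟩ := approx hF (half_pos hε)
  set f : (Fin g → ℝ) → ℝ := fun t => F fun j => Real.cos (t j) with hf
  set h0 : (Fin g → ℝ) → ℝ := ((g.factorial : ℝ)⁻¹) • fun t : Fin g → ℝ =>
    ∑ σ : Equiv.Perm (Fin g), MvPolynomial.eval (fun j => yy t (σ j)) P with hh0
  have hmem : h0 ∈ Submodule.span ℝ (Set.range (ms (g := g))) := Submodule.smul_mem _ _ (symz P)
  have hfac : (g.factorial : ℝ) ≠ 0 := by exact_mod_cast g.factorial_ne_zero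
  have hd : ∀ t, |f t - h0 t| ≤ ε / 2 := by
    intro t
    have e1 : f t = (g.factorial : ℝ)⁻¹ * ∑ σ : Equiv.Perm (Fin g),
        F (fun j => Real.cos (t (σ j))) := by
      have : ∀ σ : Equiv.Perm (Fin g), F (fun j => Real.cos (t (σ j))) = f t := by
        intro σ
        exact hs σ fun j => Real.cos (t j)
      rw [sum_congr rfl fun σ _ => this σ, sum_const, card_univ, Fintype.card_perm,
        Fintype.card_fin, nsmul_eq_mul, ← mul_assoc, inv_mul_cancel₀ hfac, one_mul]
    have e2 : h0 t = (g.factorial : ℝ)⁻¹ * ∑ σ : Equiv.Perm (Fin g),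
        MvPolynomial.eval (fun j => yy t (σ j)) P := rfl
    rw [e1, e2, ← mul_sub, ← sum_sub_distrib, abs_mul, abs_of_nonneg (by positivity)]
    have e3 : |∑ σ : Equiv.Perm (Fin g), (F (fun j => Real.cos (t (σ j))) -
        MvPolynomial.eval (fun j => yy t (σ j)) P)| ≤ g.factorial * (ε / 2) := by
      refine (abs_sum_le_sum_abs _ _).trans ?_
      refine (sum_le_sum fun σ _ => hP (fun j => t (σ j))).trans (le_of_eq ?_)
      rw [sum_const, card_univ, Fintype.card_perm, Fintype.card_fin, nsmul_eq_mul]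
    calc (g.factorial : ℝ)⁻¹ * |∑ σ : Equiv.Perm (Fin g), (F (fun j => Real.cos (t (σ j))) -
        MvPolynomial.eval (fun j => yy t (σ j)) P)| ≤ (g.factorial : ℝ)⁻¹ *
          (g.factorial * (ε / 2)) := mul_le_mul_of_nonneg_left e3 (by positivity)
      _ = ε / 2 := by rw [← mul_assoc, inv_mul_cancel₀ hfac, one_mul]
  have h1 := hJ.sub_le hFb (span_bc hmem) hd
  have h2 := hJ'.sub_le hFb (span_bc hmem) hd
  rw [span_eq hJ hJ' h hmem] at h1
  rw [abs_le] at *
  constructor <;> linarith [h1.1, h1.2, h2.1, h2.2]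

end

end Pool.Agent.Q167.FD
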