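import Pool.Agent.Q167.FD.Crit

/-!
# The natural density
-/

set_option autoImplicit false
set_option linter.unusedSectionVars false

namespace Pool.Agent.Q167.FD

open Filter Topology Complex NumberField IsDedekindDomain Pool.Agent.W540.BE Pool.Agent.TH553.RS
  Pool.Agent.TH553.ST Pool.Agent.H341R2

/-- the logarithmic derivative near a pole or a zero -/
theorem lim_log {Λ L : ℂ → ℂ} {s₀ : ℂ} {e : ℤ} (hΛ : MeromorphicAt Λ s₀)
    (he : meromorphicOrderAt Λ s₀ = (e : WithTop ℤ))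
    (hL : ∀ᶠ s in 𝓝 s₀, (1 : ℝ) < s.re → Λ s = L s) (hre : s₀.re = 1) :
    ∃ y, Tendsto (fun z => deriv L z / L z - e / (z - s₀)) (𝓝[{s : ℂ | 1 < s.re}] s₀) (𝓝 y) := by
  obtain ⟨f, hf, hf0, hfe⟩ := (meromorphicOrderAt_eq_int_iff hΛ).1 he
  refine ⟨deriv f s₀ / f s₀, ?_⟩
  have h1 : Tendsto (fun z => deriv f z / f z) (𝓝[{s : ℂ | 1 < s.re}] s₀)
      (𝓝 (deriv f s₀ / f s₀)) :=
    (hf.deriv.continuousAt.div hf.continuousAt hf0).mono_left nhdsWithin_le_nhds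
  refine h1.congr' ?_
  have hop : IsOpen {s : ℂ | 1 < s.re} := isOpen_lt continuous_const Complex.continuous_re
  have h2 : ∀ᶠ z in 𝓝[≠] s₀, ∀ᶠ w in 𝓝 z, Λ w = (w - s₀) ^ e • f w := by
    have h3 := eventually_eventually_nhdsWithin.2 hfe
    filter_upwards [h3, self_mem_nhdsWithin] with z hz hz1
    rwa [(isOpen_compl_singleton.nhdsWithin_eq hz1 : 𝓝[{s₀}ᶜ] z = 𝓝 z)] at hz
  have h4 : ∀ᶠ z in 𝓝[{s : ℂ | 1 < s.re}] s₀, ∀ᶠ w in 𝓝 z, Λ w = (w - s₀) ^ e • f w := by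
    refine h2.filter_mono (nhdsWithin_mono _ ?_)
    intro z hz hz1
    rw [Set.mem_singleton_iff] at hz1
    rw [Set.mem_ofPred_eq, hz1, hre] at hz
    exact lt_irrefl _ hz
  have h5 : ∀ᶠ z in 𝓝[{s : ℂ | 1 < s.re}] s₀, ∀ᶠ w in 𝓝 z, (1 : ℝ) < w.re → Λ w = L w :=
    (hL.eventually_nhds).filter_mono nhdsWithin_le_nhds
  have h6 : ∀ᶠ z in 𝓝[{s : ℂ | 1 < s.re}] s₀, f z ≠ 0 ∧ AnalyticAt ℂ f z :=
    ((hf.continuousAt.eventually_ne hf0).and hf.eventually_analyticAt).filter_mono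
      nhdsWithin_le_nhds
  filter_upwards [h4, h5, h6, self_mem_nhdsWithin] with z hz1 hz2 hz3 hz4
  have hz4' : 1 < z.re := hz4
  have hne : z - s₀ ≠ 0 := by
    intro h
    rw [sub_eq_zero] at h
    rw [h, hre] at hz4'
    exact lt_irrefl _ hz4'
  have h7 : L =ᶠ[𝓝 z] fun w => (w - s₀) ^ e * f w := by
    filter_upwards [hz1, hz2, hop.mem_nhds hz4] with w hw1 hw2 hw3
    rw [← hw2 hw3, hw1, smul_eq_mul]
  have h8 : logDeriv L z = logDeriv (fun w => (w - s₀) ^ e * f w) z :=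
    (logDeriv_congr_nhds h7).eq_of_nhds
  have h9 : logDeriv (fun w : ℂ => (w - s₀) ^ e) z = e / (z - s₀) := by
    have h10 := logDeriv_fun_zpow (f := fun w : ℂ => w - s₀) (x := z) (by fun_prop) e
    rw [h10, logDeriv_apply]
    simp
    ring
  have h11 : DifferentiableAt ℂ (fun w : ℂ => (w - s₀) ^ e) z :=
    DifferentiableAt.zpow (by fun_prop) (Or.inl hne)
  rw [logDeriv_mul (f := fun w : ℂ => (w - s₀) ^ e) (g := f) z (zpow_ne_zero _ hne) hz3.1 h11
    hz3.2.differentiableAt, h9] at h8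
  have h12 : deriv L z / L z = logDeriv L z := rfl
  rw [h12, h8]
  simp only [logDeriv_apply]
  ring

section

variable {K : Type} [Field K] [NumberField K]

theorem lc_sub (t t' : HeightOneSpectrum (𝓞 K) → ℂ) (c : ℂ) :
    lc (fun v => t v - c * t' v) = lc t - c • lc t' := by
  funext n
  rw [Pi.sub_apply, Pi.smul_apply, smul_eq_mul]
  unfold lc LSeries.logMul nf
  rw [Finset.sum_sub_distrib, ← Finset.mul_sum]
  ring

theorem S_sub {t t' : HeightOneSpectrum (𝓞 K) → ℂ} {B B' : ℝ} (ht : ∀ v, ‖t v‖ ≤ B)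
    (ht' : ∀ v, ‖t' v‖ ≤ B') (c : ℂ) {s : ℂ} (hs : 1 < s.re) :
    S (fun v => t v - c * t' v) s = S t s - c * S t' s := by
  unfold S
  rw [lc_sub, LSeries_sub (summ_lc ht hs) ((summ_lc ht' hs).smul c), LSeries_smul]

variable {g : ℕ} (θ : HeightOneSpectrum (𝓞 K) → Fin g → ℝ)

/-- the trivial representation -/
theorem chR_zero (t : Fin g → ℝ) : chR 0 t = 1 := by
  unfold chR
  simp

/-- **Averages.** -/
theorem avg {n : Fin g → ℕ} {m : ℤ}
    (hc : ∀ τ : ℝ, ∃ (Λ₁ Λ₀ : ℂ → ℂ) (e₁ e₀ : ℤ), Ct θ n τ Λ₁ ∧ Ct θ 0 τ Λ₀ ∧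
      meromorphicOrderAt Λ₁ (1 + τ * I) = (e₁ : WithTop ℤ) ∧
      meromorphicOrderAt Λ₀ (1 + τ * I) = (e₀ : WithTop ℤ) ∧ e₁ = m * e₀) :
    Tendsto (mn fun v => chR n (θ v)) atTop (𝓝 (m : ℝ)) := by
  obtain ⟨B, hB⟩ := bd_of θ (chR_bc n)
  have hB0 : 0 ≤ |B| := abs_nonneg B
  -- the bounded function of mean zero
  set t : HeightOneSpectrum (𝓞 K) → ℂ := fun v =>
    (∑ k, ae θ n v k) - (m : ℂ) * ∑ k, ae θ 0 v k with ht
  have ht' : ∀ v, t v = ((chR n (θ v) - m : ℝ) : ℂ) := by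
    intro v
    rw [ht]
    simp only
    rw [sum_ae, sum_ae, chR_zero]
    push_cast
    ring
  have htb : ∀ v, ‖t v‖ ≤ |B| + |(m : ℝ)| := by
    intro v
    rw [ht', Complex.norm_real, Real.norm_eq_abs]
    refine (abs_sub _ _).trans ?_
    have := (hB v).trans (le_abs_self B)
    linarith
  have hbd : ∀ s : ℂ, 1 ≤ s.re → ∃ y, Tendsto (S t) (𝓝[{s : ℂ | 1 < s.re}] s) (𝓝 y) := by
    intro s hs
    rcases hs.eq_or_lt with h | h
    · have hs' : s = 1 + (s.im : ℝ) * I := by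
        apply Complex.ext <;> simp [← h]
      obtain ⟨Λ₁, Λ₀, e₁, e₀, h1, h0, ho1, ho0, hee⟩ := hc s.im
      rw [hs']
      set s0 : ℂ := 1 + (s.im : ℝ) * I with hs0
      have hre : s0.re = 1 := by rw [hs0]; simp
      have hmem : s0 ∈ Hp := by
        have : (3 / 4 : ℝ) < s0.re := by rw [hre]; norm_num
        exact this
      have hR1 : AnalyticAt ℂ (Rt (ae θ n)) s0 :=
        (diff_Rt (norm_ae θ n)).analyticAt (isOpen_Hp.mem_nhds hmem)
      have hR0 : AnalyticAt ℂ (Rt (ae θ 0)) s0 :=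
        (diff_Rt (norm_ae θ 0)).analyticAt (isOpen_Hp.mem_nhds hmem)
      obtain ⟨y1, hy1⟩ := lim_log h1.1 ho1 h1.2 hre
      obtain ⟨y0, hy0⟩ := lim_log h0.1 ho0 h0.2 hre
      have hd1 : Tendsto (deriv (Rt (ae θ n))) (𝓝[{s : ℂ | 1 < s.re}] s0)
          (𝓝 (deriv (Rt (ae θ n)) s0)) := hR1.deriv.continuousAt.mono_left nhdsWithin_le_nhds
      have hd0 : Tendsto (deriv (Rt (ae θ 0))) (𝓝[{s : ℂ | 1 < s.re}] s0)
          (𝓝 (deriv (Rt (ae θ 0)) s0)) := hR0.deriv.continuousAt.mono_left nhdsWithin_le_nhds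
      refine ⟨_, ((hd1.sub hy1).sub ((hd0.sub hy0).const_mul (m : ℂ))).congr' ?_⟩
      filter_upwards [self_mem_nhdsWithin] with z hz
      have hz' : 1 < z.re := hz
      rw [ht, S_sub (sum_le (norm_ae θ n)) (sum_le (norm_ae θ 0)) (m : ℂ) hz',
        (S_eq (norm_ae θ n) (L := TL θ n) (fun s _ => TL_eq θ n s) hz').2,
        (S_eq (norm_ae θ 0) (L := TL θ 0) (fun s _ => TL_eq θ 0 s) hz').2, hee]
      push_cast
      ring
    · exact ⟨_, (an_S htb h).continuousAt.tendsto.mono_left nhdsWithin_le_nhds⟩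
  have h1 := taub_mn (by positivity : 0 ≤ |B| + |(m : ℝ)|) htb hbd
  have h2 := (Complex.continuous_re.tendsto _).comp h1
  have h3 : Tendsto (fun N => mn (fun v => chR n (θ v)) N - (m : ℝ)) atTop (𝓝 0) := by
    rw [Complex.zero_re] at h2
    refine h2.congr' ?_
    filter_upwards [card_ev (K := K)] with N hN
    simp only [Function.comp]
    rw [re_mn]
    have h4 : (fun v => (t v).re) = fun v => chR n (θ v) - (m : ℝ) := by
      funext v
      rw [ht', Complex.ofReal_re]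
    rw [h4]
    unfold mn
    rw [Finset.sum_sub_distrib, Finset.sum_const, smul_sub, smul_eq_mul, smul_eq_mul, nsmul_eq_mul,
      ← mul_assoc, inv_mul_cancel₀ hN, one_mul]
  have h5 := h3.add_const (m : ℝ)
  rw [zero_add] at h5
  exact h5.congr fun N => by ring

/-- the real part of the twist -/
theorem re_tw (v : HeightOneSpectrum (𝓞 K)) (τ : ℝ) :
    (((nm K v : ℕ) : ℂ) ^ (-(τ * I : ℂ))).re = Real.cos (τ * Real.log (nm K v)) := by
  have hv : ((nm K v : ℕ) : ℂ) ≠ 0 := by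
    have := nm_pos v
    exact_mod_cast this.ne'
  rw [Complex.cpow_def_of_ne_zero hv, ← Complex.natCast_log]
  have h1 : ((Real.log (nm K v) : ℝ) : ℂ) * -(τ * I) =
      (((-(τ * Real.log (nm K v)) : ℝ)) : ℂ) * I := by
    push_cast
    ring
  rw [h1, Complex.exp_ofReal_mul_I_re, Real.cos_neg]

/-- **No zeros and no poles on the line.** -/
theorem no_line {m : (Fin g → ℕ) → ℤ}
    (hm : ∀ U : Ultrafilter ℝ, (U : Filter ℝ) ≤ 𝓝[>] 0 → ∀ n,
      M (nm K) U (fun v => chR n (θ v)) = m n) (h : ∀ n, (m n : ℝ) = weyl g (chR n))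
    {τ : ℝ} (hτ : τ ≠ 0) (hc : ∀ n, ∃ Λ, Ct θ n τ Λ) {n : Fin g → ℕ} {Λ : ℂ → ℂ}
    (hΛ : Ct θ n τ Λ) : meromorphicOrderAt Λ (1 + τ * I) = ((0 : ℤ) : WithTop ℤ) := by
  classical
  set U₀ : Ultrafilter ℝ := Ultrafilter.of (𝓝[>] 0) with hU₀
  have h₀ : (U₀ : Filter ℝ) ≤ 𝓝[>] 0 := Ultrafilter.of_le _
  -- the orders
  have hord : ∀ n, ∃ l : ℤ, (M (nm K) U₀ fun v => chR n (θ v) *
      Real.cos (τ * Real.log (nm K v))) = l := by
    intro n
    obtain ⟨Λ, hΛ⟩ := hc n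
    obtain ⟨l, -, hl⟩ := order_TL θ hΛ
    refine ⟨-l, ?_⟩
    have h1 := hl U₀ h₀
    simp only [re_tw] at h1
    rw [h1]
    push_cast
    rfl
  choose l hl using hord
  have hbu : Bd fun v : HeightOneSpectrum (𝓞 K) => Real.cos (τ * Real.log (nm K v)) := bd_cos _
  -- the twisted functional
  have hJ : Mj fun f : (Fin g → ℝ) → ℝ => M (nm K) U₀ fun v => f (θ v) *
      Real.cos (τ * Real.log (nm K v)) := by
    refine ⟨fun f h hf hh => ?_, fun c f hf => ?_, fun f B hf hB => ?_⟩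
    · rw [← M_add (sysF K) h₀ ((bd_of θ hf).mul hbu) ((bd_of θ hh).mul hbu)]
      congr 1
      funext v
      ring
    · rw [← M_const_mul (sysF K) h₀ ((bd_of θ hf).mul hbu)]
      congr 1
      funext v
      ring
    · have hb : ∀ v, |f (θ v) * Real.cos (τ * Real.log (nm K v))| ≤ B := by
        intro v
        rw [abs_mul]
        have h1 := Real.abs_cos_le_one (τ * Real.log (nm K v))
        have h2 := hB (θ v)
        calc |f (θ v)| * |Real.cos (τ * Real.log (nm K v))| ≤ B * 1 :=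
              mul_le_mul h2 h1 (abs_nonneg _) ((abs_nonneg _).trans h2)
          _ = B := mul_one B
      rw [abs_le]
      constructor
      · rw [← M_const (sysF K) h₀ (-B)]
        exact M_mono (sysF K) h₀ (Bd.const _) ((bd_of θ hf).mul hbu) fun v => (abs_le.1 (hb v)).1
      · rw [← M_const (sysF K) h₀ B]
        exact M_mono (sysF K) h₀ ((bd_of θ hf).mul hbu) (Bd.const _) fun v => (abs_le.1 (hb v)).2
  have hco : ∀ a, fi (nm K) U₀ θ a = co (Ph g) a := by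
    intro a
    have h2 := (M_mj (sysF K) h₀ θ).ms a
    beta_reduce at h2
    unfold fi
    rw [← weyl_ms, weyl_mj.ms a, h2]
    refine Finset.sum_congr rfl fun n _ => ?_
    rw [hm U₀ h₀, h]
  have hσ : ∀ a, (M (nm K) U₀ fun v => ms a (θ v) * Real.cos (τ * Real.log (nm K v))) =
      ((∑ n ∈ (Qa a).support, (Qa a).coeff n * l n : ℤ) : ℝ) := by
    intro a
    have h2 := hJ.ms a
    beta_reduce at h2
    rw [h2]
    push_cast
    exact Finset.sum_congr rfl fun n _ => by rw [hl]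
  have hu : (M (nm K) U₀ fun v => Real.cos (τ * Real.log (nm K v)) ^ 2) < 1 := by
    have h1 := Pool.Agent.Q284.IM.M_sq_tw (K := K) h₀ hτ
    simp only [re_tw] at h1
    rw [h1]
    norm_num
  have hz : ∀ a, (M (nm K) U₀ fun v => ms a (θ v) * Real.cos (τ * Real.log (nm K v))) = 0 := by
    intro a
    have h1 := twist (sysF K) h₀ θ hco (fun v => τ * Real.log (nm K v)) _ hσ hu a
    rw [hσ a, h1, Int.cast_zero]
  have hJ0 : Mj fun _ : (Fin g → ℝ) → ℝ => (0 : ℝ) :=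
    ⟨fun _ _ _ _ => by ring, fun _ _ _ => by ring, fun f B _ hB => by
      rw [abs_zero]
      exact (abs_nonneg _).trans (hB 0)⟩
  have hfin : (M (nm K) U₀ fun v => chR n (θ v) * Real.cos (τ * Real.log (nm K v))) = 0 :=
    span_eq hJ hJ0 hz (chR_mem n)
  obtain ⟨e, he1, he2⟩ := order_TL θ hΛ
  have h1 := he2 U₀ h₀
  simp only [re_tw] at h1
  rw [hfin] at h1
  have h2 : e = 0 := by
    have : (e : ℝ) = 0 := by linarith
    exact_mod_cast this
  rw [he1, h2]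

/-- the averages are means -/
theorem mn_mj {N : ℕ} : Mj fun f : (Fin g → ℝ) → ℝ => mn (fun v => f (θ v)) N where
  add f h _ _ := by
    unfold mn
    rw [Finset.sum_add_distrib, smul_add]
  smul c f _ := by
    unfold mn
    rw [← Finset.mul_sum, smul_eq_mul, smul_eq_mul]
    ring
  le f B _ hB := by
    have hB0 : 0 ≤ B := (abs_nonneg _).trans (hB 0)
    unfold mn
    rw [smul_eq_mul, abs_mul, abs_inv, Nat.abs_cast]
    rcases Nat.eq_zero_or_pos (upto K N).card with h | h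
    · rw [h]
      simpa using hB0
    · have h' : (0 : ℝ) < (upto K N).card := by exact_mod_cast h
      rw [inv_mul_le_iff₀ h']
      refine (Finset.abs_sum_le_sum_abs _ _).trans ?_
      refine (Finset.sum_le_sum fun v _ => hB _).trans (le_of_eq ?_)
      rw [Finset.sum_const, nsmul_eq_mul]

/-- limits along ultrafilters -/
theorem ultra_mj {ι : Type} (V : Ultrafilter ι) (W : ι → ((Fin g → ℝ) → ℝ) → ℝ)
    (hW : ∀ i, Mj (W i)) :
    ∃ J, Mj J ∧ ∀ f, Bc f → Tendsto (fun i => W i f) V (𝓝 (J f)) := by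
  have h1 : ∀ f, ∃ x, Bc f → Tendsto (fun i => W i f) V (𝓝 x) := by
    intro f
    by_cases hf : Bc f
    · obtain ⟨hfc, B, hB⟩ := hf
      have h2 : ((V.map (fun i => W i f) : Ultrafilter ℝ) : Filter ℝ) ≤ 𝓟 (Set.Icc (-B) B) := by
        rw [Ultrafilter.coe_map, Filter.le_principal_iff, Filter.mem_map]
        exact Filter.univ_mem' fun i => abs_le.1 ((hW i).le f B ⟨hfc, B, hB⟩ hB)
      obtain ⟨x, -, hx⟩ := isCompact_Icc.ultrafilter_le_nhds _ h2
      exact ⟨x, fun _ => by rw [Ultrafilter.coe_map] at hx; exact hx⟩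
    · exact ⟨0, fun h => absurd h hf⟩
  choose J hJ using h1
  refine ⟨J, ⟨fun f h hf hh => ?_, fun c f hf => ?_, fun f B hf hB => ?_⟩, fun f hf => hJ f hf⟩
  · refine tendsto_nhds_unique (hJ _ (hf.add hh)) (((hJ f hf).add (hJ h hh)).congr fun i => ?_)
    exact ((hW i).add f h hf hh).symm
  · refine tendsto_nhds_unique (hJ _ (hf.smul c)) (((hJ f hf).const_mul c).congr fun i => ?_)
    exact ((hW i).smul c f hf).symm
  · exact le_of_tendsto (hJ f hf).abs (Eventually.of_forall fun i => (hW i).le f B hf hB)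

/-- functions of the cosines are bounded -/
theorem bc_cos {F : (Fin g → ℝ) → ℝ} (hF : Continuous F) :
    Bc fun t : Fin g → ℝ => F fun j => Real.cos (t j) := by
  refine ⟨hF.comp (by fun_prop), ?_⟩
  have hXc : IsCompact (Set.pi Set.univ fun _ : Fin g => Set.Icc (-1 : ℝ) 1) :=
    isCompact_univ_pi fun _ => isCompact_Icc
  obtain ⟨B, hB⟩ := hXc.exists_bound_of_continuousOn hF.continuousOn
  refine ⟨B, fun t => hB _ ?_⟩
  rw [Set.mem_univ_pi]
  intro j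
  exact ⟨Real.neg_one_le_cos _, Real.cos_le_one _⟩

/-- **The law for the natural density.** -/
theorem natural {m : (Fin g → ℕ) → ℤ}
    (hm : ∀ U : Ultrafilter ℝ, (U : Filter ℝ) ≤ 𝓝[>] 0 → ∀ n,
      M (nm K) U (fun v => chR n (θ v)) = m n) (h : ∀ n, (m n : ℝ) = weyl g (chR n))
    (h0 : ∀ n, ∀ Λ, Ct θ n 0 Λ → meromorphicOrderAt Λ (1 + (0 : ℝ) * I) = ((-m n : ℤ) : WithTop ℤ))
    (hc : ∀ n, ∀ τ : ℝ, ∃ Λ, Ct θ n τ Λ) {F : (Fin g → ℝ) → ℝ} (hF : Continuous F)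
    (hs : ∀ (σ : Equiv.Perm (Fin g)) (x : Fin g → ℝ), F (fun j => x (σ j)) = F x) :
    Tendsto (mn fun v => F fun j => Real.cos (θ v j)) atTop
      (𝓝 (weyl g fun t => F fun j => Real.cos (t j))) := by
  have hm0 : m 0 = 1 := by
    have h1 := hm (Ultrafilter.of (𝓝[>] 0)) (Ultrafilter.of_le _) 0
    simp only [chR_zero] at h1
    rw [M_const (sysF K) (Ultrafilter.of_le _)] at h1
    exact_mod_cast h1.symm
  have havg : ∀ n, Tendsto (mn fun v => chR n (θ v)) atTop (𝓝 (m n : ℝ)) := by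
    intro n
    refine avg θ fun τ => ?_
    obtain ⟨Λ₁, hΛ₁⟩ := hc n τ
    obtain ⟨Λ₀, hΛ₀⟩ := hc 0 τ
    rcases eq_or_ne τ 0 with rfl | hτ
    · refine ⟨Λ₁, Λ₀, -m n, -1, hΛ₁, hΛ₀, h0 n Λ₁ hΛ₁, ?_, by ring⟩
      rw [h0 0 Λ₀ hΛ₀, hm0]
    · exact ⟨Λ₁, Λ₀, 0, 0, hΛ₁, hΛ₀, no_line θ hm h hτ (fun n => hc n τ) hΛ₁,
        no_line θ hm h hτ (fun n => hc n τ) hΛ₀, by ring⟩
  rw [Filter.tendsto_iff_ultrafilter]
  intro V hV
  obtain ⟨J, hJ, hJV⟩ := ultra_mj V (fun N f => mn (fun v => f (θ v)) N) fun N => mn_mj θ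
  have h1 : ∀ n : Fin g → ℕ, J (chR n) = weyl g (chR n) := by
    intro n
    rw [← h n]
    exact tendsto_nhds_unique (hJV _ (chR_bc n)) ((havg n).mono_left hV)
  have h2 := hJV _ (bc_cos hF)
  rw [uniq_ch hJ weyl_mj h1 hF hs] at h2
  exact h2

end

end Pool.Agent.Q167.FD
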