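import Pool.Agent.Q167.FD.Tor

/-!
# The normalisation of the density
-/

set_option autoImplicit false

open Finset MeasureTheory

namespace Pool.Agent.Q167.FD

open Polynomial in
theorem S_md (n : ℕ) : (Chebyshev.S ℝ (n : ℤ)).Monic ∧ (Chebyshev.S ℝ (n : ℤ)).natDegree = n := by
  induction n using Nat.twoStepInduction with
  | zero => simp
  | one => simp [monic_X]
  | more n ih1 ih2 =>
    have h1 : Chebyshev.S ℝ ((n + 2 : ℕ) : ℤ) = X * Chebyshev.S ℝ ((n + 1 : ℕ) : ℤ) -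
        Chebyshev.S ℝ (n : ℤ) := by
      push_cast
      exact Chebyshev.S_add_two ℝ n
    have hm : (X * Chebyshev.S ℝ ((n + 1 : ℕ) : ℤ)).Monic := monic_X.mul ih2.1
    have hd : (X * Chebyshev.S ℝ ((n + 1 : ℕ) : ℤ)).natDegree = n + 2 := by
      rw [monic_X.natDegree_mul ih2.1, ih2.2, natDegree_X]
      ring
    have hlt : (Chebyshev.S ℝ (n : ℤ)).natDegree < (X * Chebyshev.S ℝ ((n + 1 : ℕ) : ℤ)).natDegree := by
      rw [hd, ih1.2]
      omega
    rw [h1]
    constructor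
    · exact hm.sub_of_left (degree_lt_degree hlt)
    · rw [natDegree_sub_eq_left_of_natDegree_lt hlt, hd]

theorem int_cos' (k : ℤ) : ∫ x in Set.Ioc (0 : ℝ) (2 * Real.pi), Real.cos (k * x) =
    if k = 0 then 2 * Real.pi else 0 := by
  have h := int_exp k
  have h1 : (fun x : ℝ => Real.cos (k * x)) = fun x : ℝ =>
      (Complex.exp ((((k : ℝ) * x : ℝ) : ℂ) * Complex.I)).re := by
    funext x
    rw [Complex.exp_ofReal_mul_I_re]
  rw [h1]
  have hint : Integrable (fun x : ℝ => Complex.exp ((((k : ℝ) * x : ℝ) : ℂ) * Complex.I))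
      ((volume : Measure ℝ).restrict (Set.Ioc 0 (2 * Real.pi))) := by
    refine Integrable.of_bound (Continuous.aestronglyMeasurable (by fun_prop)) 1 ?_
    exact Filter.Eventually.of_forall fun x => (Complex.norm_exp_ofReal_mul_I _).le
  have h2 : (∫ x in Set.Ioc (0 : ℝ) (2 * Real.pi),
      (Complex.exp ((((k : ℝ) * x : ℝ) : ℂ) * Complex.I)).re) =
      (∫ x in Set.Ioc (0 : ℝ) (2 * Real.pi),
        Complex.exp ((((k : ℝ) * x : ℝ) : ℂ) * Complex.I)).re := integral_re hint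
  rw [h2, h]
  split_ifs with hk
  · simp
  · simp

theorem int_sin' (m n : ℕ) : ∫ x in Set.Ioc (0 : ℝ) (2 * Real.pi),
    (2 * Real.sin ((m + 1 : ℕ) * x)) * (2 * Real.sin ((n + 1 : ℕ) * x)) =
    if m = n then 4 * Real.pi else 0 := by
  have h1 : (fun x : ℝ => (2 * Real.sin ((m + 1 : ℕ) * x)) * (2 * Real.sin ((n + 1 : ℕ) * x))) =
      fun x => 2 * Real.cos (((m : ℤ) - n : ℤ) * x) - 2 * Real.cos (((m : ℤ) + n + 2 : ℤ) * x) := by
    funext x
    have e1 : (((m : ℤ) - n : ℤ) : ℝ) * x = (m + 1 : ℕ) * x - (n + 1 : ℕ) * x := by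
      push_cast
      ring
    have e2 : (((m : ℤ) + n + 2 : ℤ) : ℝ) * x = (m + 1 : ℕ) * x + (n + 1 : ℕ) * x := by
      push_cast
      ring
    rw [e1, e2, Real.cos_sub, Real.cos_add]
    ring
  have hint : ∀ k : ℤ, Integrable (fun x : ℝ => 2 * Real.cos (k * x))
      ((volume : Measure ℝ).restrict (Set.Ioc 0 (2 * Real.pi))) := by
    intro k
    refine Integrable.of_bound (Continuous.aestronglyMeasurable (by fun_prop)) 2 ?_
    refine Filter.Eventually.of_forall fun x => ?_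
    rw [norm_mul, Real.norm_eq_abs, Real.norm_eq_abs]
    have := Real.abs_cos_le_one (k * x)
    rw [abs_of_pos (by norm_num : (0 : ℝ) < 2)]
    linarith
  rw [h1, integral_sub (hint _) (hint _), integral_const_mul, integral_const_mul, int_cos', int_cos']
  rw [if_neg (by omega : ¬ ((m : ℤ) + n + 2 = 0))]
  by_cases h : m = n
  · rw [if_pos h, if_pos (by omega)]
    ring
  · rw [if_neg h, if_neg (by omega)]
    ring

section

variable {g : ℕ}

theorem Dn_det (t : Fin g → ℝ) : Dn t =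
    (Matrix.of fun i j : Fin g => 2 * Real.sin ((((j : ℕ) + 1 : ℕ) : ℝ) * t i)).det ^ 2 := by
  have h1 : (∏ i : Fin g, ∏ j ∈ Finset.Ioi i, (2 * Real.cos (t i) - 2 * Real.cos (t j)) ^ 2) =
      (Matrix.vandermonde fun i => 2 * Real.cos (t i)).det ^ 2 := by
    rw [Matrix.det_vandermonde, ← prod_pow]
    refine prod_congr rfl fun i _ => ?_
    rw [← prod_pow]
    refine prod_congr rfl fun j _ => ?_
    ring
  have h2 : (∏ i : Fin g, 4 * Real.sin (t i) ^ 2) = (∏ i : Fin g, 2 * Real.sin (t i)) ^ 2 := by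
    rw [← prod_pow]
    refine prod_congr rfl fun i _ => ?_
    ring
  unfold Dn
  rw [h1, h2, ← mul_pow, Matrix.det_eval_matrixOfPolynomials_eq_det_vandermonde _
    (fun j : Fin g => Polynomial.Chebyshev.S ℝ ((j : ℕ) : ℤ)) (fun j => (S_md j).2)
    (fun j => (S_md j).1), mul_comm, ← Matrix.det_mul_column]
  congr 2
  ext i j
  simp only [Matrix.of_apply]
  have h3 := Polynomial.Chebyshev.S_two_mul_real_cos (t i) ((j : ℕ) : ℤ)
  push_cast at h3 ⊢
  rw [← h3]
  ring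

/-- **The normalisation.** -/
theorem int_Dn : ∫ t, Dn t ∂(mu g) = (g.factorial : ℝ) * (4 * Real.pi) ^ g := by
  have h1 : (fun t : Fin g → ℝ => Dn t) = fun t => ∑ σ : Equiv.Perm (Fin g),
      ∑ τ : Equiv.Perm (Fin g), ((((Equiv.Perm.sign σ : ℤˣ) : ℤ) : ℝ) *
        (((Equiv.Perm.sign τ : ℤˣ) : ℤ) : ℝ)) * ∏ i,
        ((2 * Real.sin ((((σ i : ℕ) + 1 : ℕ) : ℝ) * t i)) *
          (2 * Real.sin ((((τ i : ℕ) + 1 : ℕ) : ℝ) * t i))) := by
    funext t
    rw [Dn_det, ← Matrix.det_transpose, Matrix.det_apply', sq, sum_mul_sum]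
    refine sum_congr rfl fun σ _ => sum_congr rfl fun τ _ => ?_
    rw [prod_mul_distrib]
    simp only [Matrix.transpose_apply, Matrix.of_apply]
    ring
  have hb : ∀ σ τ : Equiv.Perm (Fin g), Integrable (fun t : Fin g → ℝ => ∏ i,
        ((2 * Real.sin ((((σ i : ℕ) + 1 : ℕ) : ℝ) * t i)) *
          (2 * Real.sin ((((τ i : ℕ) + 1 : ℕ) : ℝ) * t i)))) (mu g) := by
    intro σ τ
    refine Integrable.of_bound (Continuous.aestronglyMeasurable (by fun_prop)) (∏ _i : Fin g, 4) ?_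
    refine Filter.Eventually.of_forall fun t => ?_
    rw [norm_prod]
    refine prod_le_prod (fun _ _ => norm_nonneg _) fun i _ => ?_
    rw [norm_mul, norm_mul, norm_mul, Real.norm_eq_abs, Real.norm_eq_abs, Real.norm_eq_abs,
      abs_of_pos (by norm_num : (0 : ℝ) < 2)]
    have s1 := Real.abs_sin_le_one ((((σ i : ℕ) + 1 : ℕ) : ℝ) * t i)
    have s2 := Real.abs_sin_le_one ((((τ i : ℕ) + 1 : ℕ) : ℝ) * t i)
    have s3 := abs_nonneg (Real.sin ((((σ i : ℕ) + 1 : ℕ) : ℝ) * t i))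
    have s4 := abs_nonneg (Real.sin ((((τ i : ℕ) + 1 : ℕ) : ℝ) * t i))
    nlinarith
  have hv : ∀ σ τ : Equiv.Perm (Fin g), ∫ t, (∏ i,
        ((2 * Real.sin ((((σ i : ℕ) + 1 : ℕ) : ℝ) * t i)) *
          (2 * Real.sin ((((τ i : ℕ) + 1 : ℕ) : ℝ) * t i)))) ∂(mu g) =
      if σ = τ then (4 * Real.pi) ^ g else 0 := by
    intro σ τ
    have h2 := integral_fintype_prod_eq_prod (𝕜 := ℝ) (ι := Fin g) (E := fun _ => ℝ)
      (fun (i : Fin g) (x : ℝ) => (2 * Real.sin ((((σ i : ℕ) + 1 : ℕ) : ℝ) * x)) *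
          (2 * Real.sin ((((τ i : ℕ) + 1 : ℕ) : ℝ) * x)))
      (μ := fun _ : Fin g => (volume : Measure ℝ).restrict (Set.Ioc 0 (2 * Real.pi)))
    simp_rw [int_sin'] at h2
    unfold mu
    rw [h2]
    split_ifs with h
    · subst h
      simp
    · obtain ⟨i, hi⟩ : ∃ i, σ i ≠ τ i := by
        by_contra h3
        push Not at h3
        exact h (Equiv.ext h3)
      refine prod_eq_zero (mem_univ i) ?_
      rw [if_neg]
      intro h3
      exact hi (Fin.ext h3)
  rw [h1, integral_finsetSum _ fun σ _ => integrable_finsetSum _ fun τ _ => (hb σ τ).const_mul _]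
  have h4 : ∀ σ : Equiv.Perm (Fin g), ∫ t, (∑ τ : Equiv.Perm (Fin g),
      ((((Equiv.Perm.sign σ : ℤˣ) : ℤ) : ℝ) *
        (((Equiv.Perm.sign τ : ℤˣ) : ℤ) : ℝ)) * ∏ i,
        ((2 * Real.sin ((((σ i : ℕ) + 1 : ℕ) : ℝ) * t i)) *
          (2 * Real.sin ((((τ i : ℕ) + 1 : ℕ) : ℝ) * t i)))) ∂(mu g) = (4 * Real.pi) ^ g := by
    intro σ
    rw [integral_finsetSum _ fun τ _ => (hb σ τ).const_mul _]
    simp_rw [integral_const_mul, hv]
    rw [sum_eq_single σ]
    · rw [if_pos rfl]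
      have h2 : (((Equiv.Perm.sign σ : ℤˣ) : ℤ) : ℝ) * (((Equiv.Perm.sign σ : ℤˣ) : ℤ) : ℝ) = 1 := by
        rcases Int.units_eq_one_or (Equiv.Perm.sign σ) with h | h <;> rw [h] <;> simp
      rw [h2, one_mul]
    · intro τ _ h
      rw [if_neg (Ne.symm h), mul_zero]
    · intro h
      exact absurd (mem_univ σ) h
  rw [sum_congr rfl fun σ _ => h4 σ, sum_const, card_univ, Fintype.card_perm, Fintype.card_fin,
    nsmul_eq_mul]

/-- the value at the origin -/
theorem co_zero : co (Ph g) 0 = ((2 ^ g * g.factorial : ℕ) : ℤ) := by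
  have h1 := IT_D (0 : Fin g → ℤ)
  have h2 : (fun t : Fin g → ℝ => ee (-0) t * (Dn t : ℂ)) = fun t => (Dn t : ℂ) := by
    funext t
    have : ee (-0 : Fin g → ℤ) t = 1 := by
      unfold ee
      rw [neg_zero, pr_zero]
      simp
    rw [this, one_mul]
  rw [h2] at h1
  unfold IT at h1
  beta_reduce at h1
  rw [integral_complex_ofReal, int_Dn] at h1
  have hpi : (2 * Real.pi : ℂ) ≠ 0 := by
    have := Real.pi_pos
    exact_mod_cast (by positivity : (2 * Real.pi : ℝ) ≠ 0)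
  have h3 : ((co (Ph g) 0 : ℤ) : ℂ) = ((((2 ^ g * g.factorial : ℕ) : ℤ)) : ℂ) := by
    rw [← h1, inv_mul_eq_iff_eq_mul₀ (pow_ne_zero _ hpi)]
    push_cast
    rw [show (4 * (Real.pi : ℂ)) = (2 * Real.pi) * 2 by ring, mul_pow]
    ring
  exact_mod_cast h3

end

end Pool.Agent.Q167.FD
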