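import Pool.Agent.Q167.FD.Wy
import Pool.Agent.TH553.RS.Mean

/-!
# Positive definite functions from mean values over the primes
-/

set_option autoImplicit false
set_option linter.unusedSectionVars false

open Finset Filter Topology Pool.Agent.TH553.RS

namespace Pool.Agent.Q167.FD

section

variable {P : Type} {N : P → ℕ} (hN : Sys N) {U : Ultrafilter ℝ} (hU : (U : Filter ℝ) ≤ 𝓝[>] 0)

theorem bd_cos (x : P → ℝ) : Bd fun p => Real.cos (x p) := ⟨1, fun _ => Real.abs_cos_le_one _⟩

include hN hU in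
/-- mean values of characters are positive definite -/
theorem pd_gen {W G : Type} [Fintype W] [AddCommGroup G] (c : W → G → P → ℝ)
    (hc : ∀ w a b p, c w (a - b) p = c w a p - c w b p) :
    PD fun a => ∑ w, M N U fun p => Real.cos (c w a p) := by
  have h0 : ∀ w p, c w 0 p = 0 := by
    intro w p
    have := hc w 0 0 p
    rw [sub_self, sub_self] at this
    exact this
  refine ⟨fun a => ?_, fun ι _ q x => ?_⟩
  · refine sum_congr rfl fun w _ => ?_
    congr 1
    funext p
    have h1 := hc w 0 a p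
    rw [zero_sub, h0, zero_sub] at h1
    rw [h1, Real.cos_neg]
  · have e1 : ∑ i, ∑ j, x i * x j * ∑ w, (M N U fun p => Real.cos (c w (q i - q j) p)) =
        ∑ w, M N U fun p => ∑ i, ∑ j, (x i * x j) * Real.cos (c w (q i - q j) p) := by
      have e2 : ∀ w, (M N U fun p => ∑ i, ∑ j, (x i * x j) * Real.cos (c w (q i - q j) p)) =
          ∑ i, ∑ j, x i * x j * M N U fun p => Real.cos (c w (q i - q j) p) := by
        intro w
        rw [M_sum hN hU _ fun i _ => Bd.sum _ fun j _ => (bd_cos _).const_mul _]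
        refine sum_congr rfl fun i _ => ?_
        rw [M_sum hN hU _ fun j _ => (bd_cos _).const_mul _]
        refine sum_congr rfl fun j _ => ?_
        rw [M_const_mul hN hU (bd_cos _)]
      rw [sum_congr rfl fun w _ => e2 w]
      symm
      rw [sum_comm]
      refine sum_congr rfl fun i _ => ?_
      rw [sum_comm]
      refine sum_congr rfl fun j _ => ?_
      rw [mul_sum]
    rw [e1]
    refine sum_nonneg fun w _ => ?_
    refine M_nonneg hN hU (Bd.sum _ fun i _ => Bd.sum _ fun j _ => (bd_cos _).const_mul _) fun p => ?_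
    have e3 : ∑ i, ∑ j, (x i * x j) * Real.cos (c w (q i - q j) p) =
        (∑ i, x i * Real.cos (c w (q i) p)) ^ 2 + (∑ i, x i * Real.sin (c w (q i) p)) ^ 2 := by
      rw [sq, sq, sum_mul_sum, sum_mul_sum, ← sum_add_distrib]
      refine sum_congr rfl fun i _ => ?_
      rw [← sum_add_distrib]
      refine sum_congr rfl fun j _ => ?_
      rw [hc, Real.cos_sub]
      ring
    rw [e3]
    positivity

variable {g : ℕ} (θ : P → Fin g → ℝ)

theorem bd_of {f : (Fin g → ℝ) → ℝ} (hf : Bc f) : Bd fun p => f (θ p) := by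
  obtain ⟨-, B, hB⟩ := hf
  exact ⟨B, fun p => hB _⟩

include hN hU in
/-- the mean is a mean -/
theorem M_mj : Mj fun f => M N U fun p => f (θ p) where
  add f h hf hh := M_add hN hU (bd_of θ hf) (bd_of θ hh)
  smul c f hf := M_const_mul hN hU (bd_of θ hf) c
  le f B hf hB := by
    rw [abs_le]
    constructor
    · rw [← M_const hN hU (-B)]
      exact M_mono hN hU (Bd.const _) (bd_of θ hf) fun v => (abs_le.1 (hB _)).1
    · rw [← M_const hN hU B]
      exact M_mono hN hU (bd_of θ hf) (Bd.const _) fun v => (abs_le.1 (hB _)).2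

/-- the order of the Weyl group -/
def wo (g : ℕ) : ℕ := 2 ^ g * g.factorial

theorem wo_pos : 0 < wo g := by
  unfold wo
  have := g.factorial_pos
  positivity

theorem card_wo : Fintype.card (Wg g) = wo g := card_Wg

theorem ms_le (a : Fin g → ℤ) (t : Fin g → ℝ) : |ms a t| ≤ wo g := by
  rw [ms_cos]
  refine (abs_sum_le_sum_abs _ _).trans ((sum_le_sum fun w _ => Real.abs_cos_le_one _).trans
    (le_of_eq ?_))
  rw [sum_const, card_univ, card_wo, nsmul_eq_mul, mul_one]

theorem sum_sin (a : Fin g → ℤ) (t : Fin g → ℝ) : ∑ w : Wg g, Real.sin (pr (act w a) t) = 0 := by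
  have h1 := congrArg Complex.im (ms_ee a t)
  rw [Complex.ofReal_im, Complex.im_sum] at h1
  rw [h1]
  refine sum_congr rfl fun w _ => ?_
  unfold ee
  exact (Complex.exp_ofReal_mul_I_im _).symm

/-- the function of the mean values -/
noncomputable def fi (N : P → ℕ) (U : Ultrafilter ℝ) (θ : P → Fin g → ℝ) (a : Fin g → ℤ) : ℝ :=
  M N U fun p => ms a (θ p)

include hN hU in
theorem fi_sum (a : Fin g → ℤ) : fi N U θ a =
    ∑ w : Wg g, M N U fun p => Real.cos (pr (act w a) (θ p)) := by
  unfold fi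
  simp_rw [ms_cos]
  exact M_sum hN hU _ fun w _ => bd_cos _

theorem act_sub (w : Wg g) (a b : Fin g → ℤ) : act w (a - b) = act w a - act w b := by
  funext i
  simp [act, mul_sub]

include hN hU in
theorem fi_pd : PD (fi N U θ) := by
  have h1 := pd_gen hN hU (W := Wg g) (G := Fin g → ℤ) (fun w a p => pr (act w a) (θ p)) (by
    intro w a b p
    rw [act_sub, pr_sub])
  have h2 : fi N U θ = fun a => ∑ w : Wg g, M N U fun p => Real.cos (pr (act w a) (θ p)) :=
    funext fun a => fi_sum hN hU θ a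
  rw [h2]
  exact h1

include hN hU in
theorem fi_zero : fi N U θ 0 = wo g := by
  unfold fi
  simp_rw [ms_zero]
  exact M_const hN hU _

/-- the twisted function -/
noncomputable def fiu (N : P → ℕ) (U : Ultrafilter ℝ) (θ : P → Fin g → ℝ) (u : P → ℝ)
    (a : (Fin g → ℤ) × ℤ) : ℝ := M N U fun p => ms a.1 (θ p) * Real.cos (a.2 * u p)

include hN hU in
theorem fiu_pd (u : P → ℝ) : PD (fiu N U θ u) := by
  have h1 := pd_gen hN hU (W := Wg g) (G := (Fin g → ℤ) × ℤ)
    (fun w a p => pr (act w a.1) (θ p) + a.2 * u p) (by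
    intro w a b p
    rw [Prod.fst_sub, Prod.snd_sub, act_sub, pr_sub]
    push_cast
    ring)
  have h2 : fiu N U θ u = fun a : (Fin g → ℤ) × ℤ => ∑ w : Wg g, M N U fun p =>
      Real.cos (pr (act w a.1) (θ p) + a.2 * u p) := by
    funext a
    rw [← M_sum hN hU _ fun w _ => bd_cos _]
    unfold fiu
    congr 1
    funext p
    simp_rw [Real.cos_add]
    rw [sum_sub_distrib, ← sum_mul, ← sum_mul, sum_sin, zero_mul, sub_zero, ms_cos]
  rw [h2]
  exact h1

include hN hU in
/-- **No integral twists.** -/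
theorem twist (h : ∀ a, fi N U θ a = co (Ph g) a) (u : P → ℝ) (σ : (Fin g → ℤ) → ℤ)
    (hσ : ∀ a, (M N U fun p => ms a (θ p) * Real.cos (u p)) = σ a)
    (hu : (M N U fun p => Real.cos (u p) ^ 2) < 1) (a : Fin g → ℤ) : σ a = 0 := by
  classical
  have hpd := fiu_pd hN hU θ u
  have hf0 : ∀ d : Fin g → ℤ, fiu N U θ u (d, 0) = co (Ph g) d := by
    intro d
    rw [← h d]
    unfold fiu fi
    simp
  have hf1 : ∀ d : Fin g → ℤ, fiu N U θ u ((0, 1) + (d, 0)) = σ d := by
    intro d
    rw [← hσ d]
    unfold fiu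
    simp
  have hinj : Function.Injective fun d : Fin g → ℤ => ((d, 0) : (Fin g → ℤ) × ℤ) := by
    intro x y hxy
    exact (Prod.mk.inj hxy).1
  set T : Finset ((Fin g → ℤ) × ℤ) := (Sp g).image fun d => (d, 0) with hT
  set D : (Fin g → ℤ) × ℤ → ℝ := fun x => if x.2 = 0 then (co (Ph g) x.1 : ℝ) else 0 with hD
  set L : ℝ := 1 + ∑ d ∈ T, |D d| with hL
  have hL0 : 0 < L := by
    have : 0 ≤ ∑ d ∈ T, |D d| := sum_nonneg fun _ _ => abs_nonneg _
    linarith
  rcases limit_case (Ph g) Ph_ne (by
      rw [co_zero]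
      exact_mod_cast (wo_pos (g := g))) σ (L * fiu N U θ u 0) (by
      intro S
      have h1 := hpd.bessel (0, 1) (S.image fun d => (d, 0)) D T (by
        rintro ⟨d, k⟩ hd
        rw [hD]
        simp only
        split_ifs with hk
        · subst hk
          rw [co_zero_of, Int.cast_zero]
          intro hd2
          exact hd (mem_image.2 ⟨d, hd2, rfl⟩)
        · rfl) (by
        intro x hx y hy
        obtain ⟨a, ha, rfl⟩ := mem_image.1 hx
        obtain ⟨b, hb, rfl⟩ := mem_image.1 hy
        rw [Prod.mk_sub_mk, sub_self, hf0, hD]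
        simp) hL0 (by linarith)
      rw [sum_image fun x _ y _ hxy => hinj hxy] at h1
      refine le_trans (le_of_eq ?_) h1
      refine sum_congr rfl fun d _ => ?_
      rw [hf1]) (by
      intro n t
      have h1 := hpd.fejer (0, 1) ((Box g n).image fun d => (d, 0))
        (fun d => chr t (Multiplicative.ofAdd d.1)) (by
        intro a b
        show Complex.exp ((t (a - b).1 : ℝ) * Complex.I) = Complex.exp ((t a.1 : ℝ) * Complex.I) *
          (starRingEnd ℂ) (Complex.exp ((t b.1 : ℝ) * Complex.I))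
        rw [← Complex.exp_conj, ← Complex.exp_add, map_mul, Complex.conj_ofReal, Complex.conj_I,
          Prod.fst_sub, map_sub]
        congr 1
        push_cast
        ring)
      simp only [sum_image fun x _ y _ hxy => hinj hxy, Prod.mk_sub_mk, sub_self, hf0, hf1] at h1
      simpa using h1) with h0 | ⟨μ, hμ⟩
  · exact h0 a
  · exfalso
    have hb : Bd fun p => ms μ (θ p) := bd_of θ (ms_bc μ)
    have h1 := M_cs hN hU hb (bd_cos u)
    rw [hσ μ] at h1
    have h2 : (M N U fun p => ms μ (θ p) ^ 2) ≤ (wo g : ℝ) ^ 2 := by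
      rw [← M_const hN hU ((wo g : ℝ) ^ 2)]
      refine M_mono hN hU hb.sq (Bd.const _) fun p => ?_
      have := ms_le μ (θ p)
      rw [← sq_abs]
      exact pow_le_pow_left₀ (abs_nonneg _) this 2
    have h3 : ((σ μ : ℤ) : ℝ) ^ 2 = (wo g : ℝ) ^ 2 := by
      have h4 : (|σ μ| : ℤ) = (wo g : ℤ) := by
        rw [hμ, co_zero]
        rfl
      have h5 : |((σ μ : ℤ) : ℝ)| = (wo g : ℝ) := by exact_mod_cast h4
      rw [← sq_abs, h5]
    rw [h3] at h1
    have hw : (0 : ℝ) < (wo g : ℝ) ^ 2 := by
      have := wo_pos (g := g)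
      positivity
    have h4 : 0 ≤ M N U fun p => Real.cos (u p) ^ 2 :=
      M_nonneg hN hU (bd_cos u).sq fun p => sq_nonneg _
    nlinarith

end

end Pool.Agent.Q167.FD
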