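import Mathlib

/-!
# Integer polynomials bounded by a product of cyclotomic factors on the unit circle
-/

set_option autoImplicit false

open Polynomial Finset

namespace Pool.Agent.Q167.FD

/-- an integer polynomial bounded by one on the unit circle is a monomial -/
theorem unit_bound {c : ℤ[X]} (h : ∀ z : ℂ, ‖z‖ = 1 → ‖aeval z c‖ ≤ 1) :
    c = 0 ∨ ∃ (k : ℕ) (u : ℤ), (u = 1 ∨ u = -1) ∧ c = C u * X ^ k := by
  classical
  set p : ℂ[X] := c.map (Int.castRingHom ℂ) with hp
  have hpar := sum_sq_norm_coeff_eq_circleAverage p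
  have hav : Real.circleAverage (fun θ ↦ ‖p.eval θ‖ ^ 2) 0 1 ≤ 1 := by
    have h1 : Real.circleAverage (fun θ ↦ ‖p.eval θ‖ ^ 2) 0 1 ≤
        Real.circleAverage (fun _ : ℂ ↦ (1 : ℝ)) 0 1 := by
      refine Real.circleAverage_mono ?_ ?_ ?_
      · exact ContinuousOn.circleIntegrable' (by fun_prop)
      · exact circleIntegrable_const _ _ _
      · intro z hz
        have hz1 : ‖z‖ = 1 := by simpa using hz
        have h2 := h z hz1
        have h3 : p.eval z = aeval z c := by
          rw [hp, eval_map, aeval_def]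
          rfl
        show ‖p.eval z‖ ^ 2 ≤ 1
        rw [h3]
        exact pow_le_one₀ (norm_nonneg _) h2
    rwa [Real.circleAverage_const] at h1
  rw [← hpar] at hav
  have hcoef : ∀ i, p.coeff i = (c.coeff i : ℂ) := by
    intro i
    rw [hp, coeff_map]
    rfl
  have hsupp : p.support = c.support := by
    ext i
    rw [mem_support_iff, mem_support_iff, hcoef]
    norm_cast
  have hge : ∀ i ∈ p.support, (1 : ℝ) ≤ ‖p.coeff i‖ ^ 2 := by
    intro i hi
    rw [mem_support_iff, hcoef] at hi
    rw [hcoef, Complex.norm_intCast]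
    have h1 : c.coeff i ≠ 0 := by
      intro h1
      apply hi
      rw [h1]
      simp
    have h2 : (1 : ℤ) ≤ |c.coeff i| := Int.one_le_abs h1
    have h3 : (1 : ℝ) ≤ |(c.coeff i : ℝ)| := by exact_mod_cast h2
    nlinarith
  by_cases h0 : c = 0
  · left; exact h0
  right
  have hne : p.support.Nonempty := by
    rw [hsupp, support_nonempty]
    exact h0
  obtain ⟨k, hk⟩ := hne
  have hone : ∀ i ∈ p.support, i = k := by
    intro i hi
    by_contra hik
    have h1 : ({i, k} : Finset ℕ) ⊆ p.support := by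
      intro j hj
      rw [mem_insert, mem_singleton] at hj
      rcases hj with rfl | rfl
      · exact hi
      · exact hk
    have h2 : ∑ j ∈ ({i, k} : Finset ℕ), ‖p.coeff j‖ ^ 2 ≤ ∑ j ∈ p.support, ‖p.coeff j‖ ^ 2 :=
      sum_le_sum_of_subset_of_nonneg h1 fun _ _ _ => by positivity
    rw [sum_pair hik] at h2
    have h3 := hge i hi
    have h4 := hge k hk
    linarith
  have hck : |c.coeff k| = 1 := by
    have h1 : ‖p.coeff k‖ ^ 2 ≤ ∑ j ∈ p.support, ‖p.coeff j‖ ^ 2 :=
      single_le_sum (f := fun j => ‖p.coeff j‖ ^ 2) (fun _ _ => by positivity) hk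
    have h2 := h1.trans hav
    rw [hcoef, Complex.norm_intCast] at h2
    have h3 : (|c.coeff k| : ℝ) ≤ 1 := by
      have h4 : (0 : ℝ) ≤ |(c.coeff k : ℝ)| := abs_nonneg _
      nlinarith
    have h5 : |c.coeff k| ≤ 1 := by exact_mod_cast h3
    have h6 : c.coeff k ≠ 0 := by
      rw [hsupp, mem_support_iff] at hk
      exact hk
    have h7 : (1 : ℤ) ≤ |c.coeff k| := Int.one_le_abs h6
    omega
  refine ⟨k, c.coeff k, ?_, ?_⟩
  · rcases abs_eq (by norm_num : (0 : ℤ) ≤ 1) |>.1 hck with h1 | h1
    · left; exact h1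
    · right; exact h1
  · ext i
    rw [coeff_C_mul, coeff_X_pow]
    by_cases hik : i = k
    · subst hik; simp
    · rw [if_neg hik, mul_zero]
      by_contra h1
      apply hik
      apply hone
      rw [hsupp, mem_support_iff]
      exact h1

/-- a polynomial which vanishes at the `b`-th roots of unity is divisible by `X ^ b - 1` -/
theorem dvd_of_roots {c : ℤ[X]} {b : ℕ} (hb : 1 ≤ b)
    (h : ∀ z : ℂ, z ^ b = 1 → aeval z c = 0) : (X ^ b - 1 : ℤ[X]) ∣ c := by
  have hmon : (X ^ b - 1 : ℤ[X]).Monic := monic_X_pow_sub_C 1 (by omega)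
  rw [← map_dvd_map (Int.castRingHom ℂ) (RingHom.injective_int _) hmon]
  have h1 : (X ^ b - 1 : ℤ[X]).map (Int.castRingHom ℂ) = X ^ b - 1 := by simp
  rw [h1, X_pow_sub_one_eq_prod (by omega) (Complex.isPrimitiveRoot_exp b (by omega))]
  refine Finset.prod_dvd_of_coprime ?_ ?_
  · intro x _ y _ hxy
    exact isCoprime_X_sub_C_of_isUnit_sub (sub_ne_zero.2 hxy).isUnit
  · intro x hx
    rw [dvd_iff_isRoot, IsRoot.def, eval_map]
    have hx' : x ^ b = 1 := (mem_nthRootsFinset (by omega) 1).1 hx
    have := h x hx'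
    rw [aeval_def] at this
    exact this

theorem one_var : ∀ (M : ℕ) (b : Fin M → ℕ), (∀ i, 1 ≤ b i) → ∀ c : ℤ[X],
    (∀ z : ℂ, ‖z‖ = 1 → ‖aeval z c‖ ≤ ∏ i, ‖1 - z ^ b i‖) →
    c = 0 ∨ ∃ (k : ℕ) (u : ℤ), (u = 1 ∨ u = -1) ∧ c = C u * X ^ k * ∏ i, (1 - X ^ b i) := by
  intro M
  induction M with
  | zero =>
    intro b _ c h
    simp only [univ_eq_empty, prod_empty] at h
    simpa using unit_bound h
  | succ M ih =>
    intro b hb c h
    set β := b (Fin.last M) with hβ
    have hβ1 : 1 ≤ β := hb _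
    obtain ⟨c₁, hc₁⟩ : (X ^ β - 1 : ℤ[X]) ∣ c := by
      refine dvd_of_roots hβ1 ?_
      intro z hz
      have hz1 : ‖z‖ = 1 := by
        have h1 : ‖z‖ ^ β = 1 := by rw [← norm_pow, hz, norm_one]
        exact (pow_eq_one_iff_of_nonneg (norm_nonneg _) (by omega)).1 h1
      have h1 := h z hz1
      rw [Fin.prod_univ_castSucc, ← hβ, hz, sub_self, norm_zero, mul_zero] at h1
      exact norm_le_zero_iff.1 h1
    have h2 : ∀ z : ℂ, ‖z‖ = 1 → z ^ β ≠ 1 →
        ‖aeval z c₁‖ ≤ ∏ i : Fin M, ‖1 - z ^ b i.castSucc‖ := by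
      intro z hz hzβ
      have h3 := h z hz
      rw [Fin.prod_univ_castSucc, ← hβ, hc₁, map_mul, norm_mul] at h3
      have h4 : ‖aeval z (X ^ β - 1 : ℤ[X])‖ = ‖1 - z ^ β‖ := by
        rw [map_sub, map_pow, aeval_X, map_one, norm_sub_rev]
      rw [h4, mul_comm] at h3
      exact le_of_mul_le_mul_right h3 (norm_pos_iff.2 (sub_ne_zero.2 (Ne.symm hzβ)))
    have h3 : ∀ z : ℂ, ‖z‖ = 1 → ‖aeval z c₁‖ ≤ ∏ i : Fin M, ‖1 - z ^ b i.castSucc‖ := by
      intro z hz
      by_cases hzβ : z ^ β = 1
      swap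
      · exact h2 z hz hzβ
      -- approximate
      set w : ℕ → ℂ := fun n => z * Complex.exp (((1 / ((n : ℝ) + 1) : ℝ) : ℂ) * Complex.I) with hw
      have hwt : Filter.Tendsto w Filter.atTop (nhds z) := by
        have h4 : Filter.Tendsto (fun n : ℕ => (((1 / ((n : ℝ) + 1) : ℝ) : ℂ) * Complex.I))
            Filter.atTop (nhds 0) := by
          have h5 := (Complex.continuous_ofReal.tendsto 0).comp
            (tendsto_one_div_add_atTop_nhds_zero_nat (𝕜 := ℝ))
          have h6 := h5.mul_const Complex.I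
          simpa using h6
        have h7 := ((Complex.continuous_exp.tendsto 0).comp h4).const_mul z
        rw [Complex.exp_zero, mul_one] at h7
        exact h7
      have hw1 : ∀ n, ‖w n‖ = 1 := by
        intro n
        rw [hw]
        simp only [norm_mul, hz, Complex.norm_exp_ofReal_mul_I, mul_one]
      have hwβ : ∀ᶠ n in Filter.atTop, w n ^ β ≠ 1 := by
        filter_upwards [Filter.eventually_ge_atTop β] with n hn
        intro h8
        rw [hw] at h8
        simp only [mul_pow, hzβ, one_mul] at h8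
        rw [← Complex.exp_nat_mul, Complex.exp_eq_one_iff] at h8
        obtain ⟨m, hm⟩ := h8
        have h9 : ((β : ℝ) * (1 / ((n : ℝ) + 1)) : ℝ) = m * (2 * Real.pi) := by
          have h10 : (((β : ℝ) * (1 / ((n : ℝ) + 1)) : ℝ) : ℂ) * Complex.I =
              ((m * (2 * Real.pi) : ℝ) : ℂ) * Complex.I := by
            push_cast
            push_cast at hm
            linear_combination hm
          exact_mod_cast mul_right_cancel₀ Complex.I_ne_zero h10
        have h11 : 0 < (β : ℝ) * (1 / ((n : ℝ) + 1)) := by positivity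
        have h12 : (β : ℝ) * (1 / ((n : ℝ) + 1)) < 1 := by
          rw [mul_one_div, div_lt_one (by positivity)]
          have : (β : ℝ) ≤ n := by exact_mod_cast hn
          linarith
        have hpi := Real.pi_gt_three
        rw [h9] at h11 h12
        have h13 : (0 : ℝ) < m := by
          by_contra h14
          push Not at h14
          nlinarith
        have h14 : (1 : ℝ) ≤ m := by
          have : (0 : ℤ) < m := by exact_mod_cast h13
          exact_mod_cast this
        nlinarith
      have hcont1 : Filter.Tendsto (fun n => ‖aeval (w n) c₁‖) Filter.atTop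
          (nhds ‖aeval z c₁‖) :=
        ((Polynomial.continuous_aeval c₁).norm.tendsto z).comp hwt
      have hcont2 : Filter.Tendsto (fun n => ∏ i : Fin M, ‖1 - w n ^ b i.castSucc‖) Filter.atTop
          (nhds (∏ i : Fin M, ‖1 - z ^ b i.castSucc‖)) := by
        have : Continuous fun z : ℂ => ∏ i : Fin M, ‖1 - z ^ b i.castSucc‖ := by fun_prop
        exact (this.tendsto z).comp hwt
      refine le_of_tendsto_of_tendsto hcont1 hcont2 ?_
      filter_upwards [hwβ] with n hn
      exact h2 _ (hw1 n) hn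
    rcases ih (fun i => b i.castSucc) (fun i => hb _) c₁ h3 with h4 | ⟨k, u, hu, h4⟩
    · left; rw [hc₁, h4, mul_zero]
    · right
      refine ⟨k, -u, ?_, ?_⟩
      · rcases hu with rfl | rfl
        · right; rfl
        · left; ring
      · rw [hc₁, h4, Fin.prod_univ_castSucc, ← hβ, map_neg]
        ring

end Pool.Agent.Q167.FD
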