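import Pool.Agent.Q167.FD.Kron

/-!
# Finite determination of the Weyl density among positive definite integer valued functions
-/

set_option autoImplicit false

open Finset AddMonoidAlgebra Filter Topology

namespace Pool.Agent.Q167.FD

section pd

variable {G : Type} [AddCommGroup G]

/-- positive definite real valued functions -/
def PD (φ : G → ℝ) : Prop :=
  (∀ a, φ (-a) = φ a) ∧ ∀ (ι : Type) [Fintype ι] (p : ι → G) (x : ι → ℝ),
    0 ≤ ∑ i, ∑ j, x i * x j * φ (p i - p j)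

theorem PD.bound {φ : G → ℝ} (h : PD φ) (a : G) : |φ a| ≤ φ 0 := by
  have h1 := h.2 Bool (fun i => if i then a else 0) (fun _ => 1)
  have h2 := h.2 Bool (fun i => if i then a else 0) (fun i => if i then 1 else -1)
  simp only [Fintype.sum_bool, if_true, Bool.false_eq_true, if_false, sub_self, sub_zero, zero_sub,
    h.1] at h1 h2
  rw [abs_le]
  constructor <;> linarith

/-- complex coefficients -/
theorem PD.complex {φ : G → ℝ} (h : PD φ) {ι : Type} [Fintype ι] (p : ι → G) (c : ι → ℂ) :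
    0 ≤ (∑ i, ∑ j, c i * (starRingEnd ℂ) (c j) * φ (p i - p j)).re := by
  have h1 := h.2 ι p (fun i => (c i).re)
  have h2 := h.2 ι p (fun i => (c i).im)
  have e : (∑ i, ∑ j, c i * (starRingEnd ℂ) (c j) * φ (p i - p j)).re =
      (∑ i, ∑ j, (c i).re * (c j).re * φ (p i - p j)) +
        ∑ i, ∑ j, (c i).im * (c j).im * φ (p i - p j) := by
    rw [Complex.re_sum, ← sum_add_distrib]
    refine sum_congr rfl fun i _ => ?_
    rw [Complex.re_sum, ← sum_add_distrib]
    refine sum_congr rfl fun j _ => ?_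
    simp only [Complex.mul_re, Complex.mul_im, Complex.conj_re, Complex.conj_im,
      Complex.ofReal_re, Complex.ofReal_im]
    ring
  rw [e]
  linarith

/-- the Fejér inequality -/
theorem PD.fejer {φ : G → ℝ} (h : PD φ) (l : G) (B : Finset G) (χ : G → ℂ)
    (hχ : ∀ a b, χ (a - b) = χ a * (starRingEnd ℂ) (χ b)) :
    ‖∑ a ∈ B, ∑ b ∈ B, χ (a - b) * φ (l + (a - b))‖ ≤
      ‖∑ a ∈ B, ∑ b ∈ B, χ (a - b) * (φ (a - b) : ℂ)‖ := by
  classical
  set Z : ℂ := ∑ a ∈ B, ∑ b ∈ B, χ (a - b) * φ (l + (a - b)) with hZ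
  set Y : ℂ := ∑ a ∈ B, ∑ b ∈ B, χ (a - b) * (φ (a - b) : ℂ) with hY
  obtain ⟨u, hu, huZ⟩ : ∃ u : ℂ, ‖u‖ = 1 ∧ u * Z = ‖Z‖ := by
    by_cases hZ0 : Z = 0
    · exact ⟨1, norm_one, by rw [hZ0]; simp⟩
    · refine ⟨(starRingEnd ℂ) Z / ‖Z‖, ?_, ?_⟩
      · rw [norm_div, RCLike.norm_conj, Complex.norm_real, norm_norm,
          div_self (norm_ne_zero_iff.2 hZ0)]
      · have hn : (‖Z‖ : ℂ) ≠ 0 := by exact_mod_cast norm_ne_zero_iff.2 hZ0
        rw [div_mul_eq_mul_div, div_eq_iff hn, mul_comm, Complex.mul_conj, Complex.normSq_eq_norm_sq]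
        push_cast
        ring
  have huu : u * (starRingEnd ℂ) u = 1 := by
    rw [Complex.mul_conj, Complex.normSq_eq_norm_sq, hu]
    simp
  have h1 := h.complex (ι := B ⊕ B) (Sum.elim (fun a => (a : G)) (fun a => l + (a : G)))
    (Sum.elim (fun a => χ a) (fun a => -(u * χ a)))
  simp only [Fintype.sum_sum_type, Sum.elim_inl, Sum.elim_inr] at h1
  have e1 : ∑ a : B, (∑ b : B, χ a * (starRingEnd ℂ) (χ b) * (φ ((a : G) - b) : ℂ) +
      ∑ b : B, χ a * (starRingEnd ℂ) (-(u * χ b)) * (φ ((a : G) - (l + b)) : ℂ)) =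
      Y - (starRingEnd ℂ) (u * Z) := by
    rw [sum_add_distrib, hY, hZ, map_mul, map_sum]
    have e2 : ∑ a : B, ∑ b : B, χ a * (starRingEnd ℂ) (χ b) * (φ ((a : G) - b) : ℂ) =
        ∑ a ∈ B, ∑ b ∈ B, χ (a - b) * (φ (a - b) : ℂ) := by
      rw [← sum_coe_sort B]
      refine sum_congr rfl fun a _ => ?_
      rw [← sum_coe_sort B]
      refine sum_congr rfl fun b _ => ?_
      rw [hχ]
    have e3 : ∑ a : B, ∑ b : B, χ a * (starRingEnd ℂ) (-(u * χ b)) * (φ ((a : G) - (l + b)) : ℂ) =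
        -((starRingEnd ℂ) u * ∑ a ∈ B, (starRingEnd ℂ) (∑ b ∈ B, χ (a - b) * φ (l + (a - b)))) := by
      rw [mul_sum, ← sum_neg_distrib, sum_comm, ← sum_coe_sort B]
      refine sum_congr rfl fun a _ => ?_
      rw [map_sum, mul_sum, ← sum_neg_distrib, ← sum_coe_sort B]
      refine sum_congr rfl fun b _ => ?_
      have e4 : φ ((b : G) - (l + a)) = φ (l + ((a : G) - b)) := by
        rw [← h.1]
        congr 1
        abel
      rw [e4, hχ, map_mul, map_mul, Complex.conj_conj, map_neg, map_mul, Complex.conj_ofReal]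
      ring
    rw [e2, e3]
    ring
  have e5 : ∑ a : B, (∑ b : B, -(u * χ a) * (starRingEnd ℂ) (χ b) * (φ (l + (a : G) - b) : ℂ) +
      ∑ b : B, -(u * χ a) * (starRingEnd ℂ) (-(u * χ b)) * (φ (l + (a : G) - (l + b)) : ℂ)) =
      Y - u * Z := by
    rw [sum_add_distrib, hY, hZ]
    have e2 : ∑ a : B, ∑ b : B, -(u * χ a) * (starRingEnd ℂ) (-(u * χ b)) *
        (φ (l + (a : G) - (l + b)) : ℂ) = ∑ a ∈ B, ∑ b ∈ B, χ (a - b) * (φ (a - b) : ℂ) := by
      rw [← sum_coe_sort B]
      refine sum_congr rfl fun a _ => ?_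
      rw [← sum_coe_sort B]
      refine sum_congr rfl fun b _ => ?_
      have e4 : (l + (a : G) - (l + b)) = (a : G) - b := by abel
      rw [hχ, e4, map_neg, map_mul]
      linear_combination (χ a * (starRingEnd ℂ) (χ b) * (φ ((a : G) - b) : ℂ)) * huu
    have e3 : ∑ a : B, ∑ b : B, -(u * χ a) * (starRingEnd ℂ) (χ b) * (φ (l + (a : G) - b) : ℂ) =
        -(u * ∑ a ∈ B, ∑ b ∈ B, χ (a - b) * φ (l + (a - b))) := by
      rw [mul_sum, ← sum_neg_distrib, ← sum_coe_sort B]
      refine sum_congr rfl fun a _ => ?_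
      rw [mul_sum, ← sum_neg_distrib, ← sum_coe_sort B]
      refine sum_congr rfl fun b _ => ?_
      have e4 : (l + (a : G) - b) = l + ((a : G) - b) := by abel
      rw [hχ, e4]
      ring
    rw [e2, e3]
    ring
  rw [e1, e5, huZ, Complex.conj_ofReal] at h1
  simp only [Complex.add_re, Complex.sub_re, Complex.ofReal_re] at h1
  have h2 : Y.re ≤ ‖Y‖ := Complex.re_le_norm _
  linarith

/-- the Bessel inequality -/
theorem PD.bessel {φ : G → ℝ} (h : PD φ) (l : G) (S : Finset G) (D : G → ℝ) (T : Finset G)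
    (hT : ∀ d, d ∉ T → D d = 0) (hS : ∀ a ∈ S, ∀ b ∈ S, φ (a - b) = D (a - b)) {L : ℝ}
    (hL0 : 0 < L) (hL : ∑ d ∈ T, |D d| ≤ L) :
    ∑ a ∈ S, φ (l + a) ^ 2 ≤ L * φ 0 := by
  classical
  set Q : ℝ := ∑ a ∈ S, φ (l + a) ^ 2 with hQ
  -- the Gram form
  have hgram : ∑ a ∈ S, ∑ b ∈ S, φ (l + a) * φ (l + b) * φ (b - a) ≤ L * Q := by
    have h1 : ∀ a ∈ S, ∀ b ∈ S, φ (l + a) * φ (l + b) * φ (b - a) ≤
        (φ (l + a) ^ 2 / 2) * |D (b - a)| + (φ (l + b) ^ 2 / 2) * |D (b - a)| := by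
      intro a ha b hb
      rw [hS b hb a ha]
      have h2 : φ (l + a) * φ (l + b) * D (b - a) ≤ |φ (l + a) * φ (l + b)| * |D (b - a)| := by
        rw [← abs_mul]
        exact le_abs_self _
      have h3 : |φ (l + a) * φ (l + b)| ≤ φ (l + a) ^ 2 / 2 + φ (l + b) ^ 2 / 2 := by
        rw [abs_le]
        constructor <;> nlinarith [sq_nonneg (φ (l + a) - φ (l + b)), sq_nonneg (φ (l + a) + φ (l + b))]
      calc φ (l + a) * φ (l + b) * D (b - a) ≤ |φ (l + a) * φ (l + b)| * |D (b - a)| := h2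
        _ ≤ (φ (l + a) ^ 2 / 2 + φ (l + b) ^ 2 / 2) * |D (b - a)| :=
            mul_le_mul_of_nonneg_right h3 (abs_nonneg _)
        _ = _ := by ring
    have hrow : ∀ a ∈ S, ∑ b ∈ S, |D (b - a)| ≤ L := by
      intro a _
      refine le_trans ?_ hL
      have e : ∑ b ∈ S, |D (b - a)| = ∑ d ∈ S.image (fun b => b - a), |D d| := by
        rw [sum_image]
        intro x _ y _ hxy
        exact sub_left_injective hxy
      rw [e]
      calc ∑ d ∈ S.image (fun b => b - a), |D d|
          = ∑ d ∈ (S.image (fun b => b - a)).filter (· ∈ T), |D d| := by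
            rw [sum_filter]
            refine sum_congr rfl fun d _ => ?_
            split_ifs with hd
            · rfl
            · rw [hT d hd, abs_zero]
        _ ≤ ∑ d ∈ T, |D d| := by
            refine sum_le_sum_of_subset_of_nonneg ?_ fun _ _ _ => abs_nonneg _
            intro d hd
            exact (mem_filter.1 hd).2
    have hcol : ∀ b ∈ S, ∑ a ∈ S, |D (b - a)| ≤ L := by
      intro b _
      refine le_trans ?_ hL
      have e : ∑ a ∈ S, |D (b - a)| = ∑ d ∈ S.image (fun a => b - a), |D d| := by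
        rw [sum_image]
        intro x _ y _ hxy
        exact sub_right_injective hxy
      rw [e]
      calc ∑ d ∈ S.image (fun a => b - a), |D d|
          = ∑ d ∈ (S.image (fun a => b - a)).filter (· ∈ T), |D d| := by
            rw [sum_filter]
            refine sum_congr rfl fun d _ => ?_
            split_ifs with hd
            · rfl
            · rw [hT d hd, abs_zero]
        _ ≤ ∑ d ∈ T, |D d| := by
            refine sum_le_sum_of_subset_of_nonneg ?_ fun _ _ _ => abs_nonneg _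
            intro d hd
            exact (mem_filter.1 hd).2
    calc ∑ a ∈ S, ∑ b ∈ S, φ (l + a) * φ (l + b) * φ (b - a)
        ≤ ∑ a ∈ S, ∑ b ∈ S, ((φ (l + a) ^ 2 / 2) * |D (b - a)| +
            (φ (l + b) ^ 2 / 2) * |D (b - a)|) :=
          sum_le_sum fun a ha => sum_le_sum fun b hb => h1 a ha b hb
      _ = (∑ a ∈ S, (φ (l + a) ^ 2 / 2) * ∑ b ∈ S, |D (b - a)|) +
            ∑ b ∈ S, (φ (l + b) ^ 2 / 2) * ∑ a ∈ S, |D (b - a)| := by
          simp_rw [sum_add_distrib, mul_sum]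
          congr 1
          rw [sum_comm]
      _ ≤ (∑ a ∈ S, (φ (l + a) ^ 2 / 2) * L) + ∑ b ∈ S, (φ (l + b) ^ 2 / 2) * L := by
          refine add_le_add (sum_le_sum fun a ha => ?_) (sum_le_sum fun b hb => ?_)
          · exact mul_le_mul_of_nonneg_left (hrow a ha) (by positivity)
          · exact mul_le_mul_of_nonneg_left (hcol b hb) (by positivity)
      _ = L * Q := by
          rw [hQ, mul_sum, ← sum_add_distrib]
          refine sum_congr rfl fun a _ => ?_
          ring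
  have h1 := h.2 (Option S) (fun i => i.elim l (fun a => -(a : G)))
    (fun i => i.elim 1 (fun a => -(1 / L) * φ (l + (a : G))))
  simp only [Fintype.sum_option, Option.elim_none, Option.elim_some] at h1
  have e1 : ∑ a : S, 1 * (-(1 / L) * φ (l + (a : G))) * φ (l - -(a : G)) = -(1 / L) * Q := by
    rw [hQ, mul_sum, ← sum_coe_sort S]
    refine sum_congr rfl fun a _ => ?_
    rw [sub_neg_eq_add]
    ring
  have e2 : ∀ a : S, (-(1 / L) * φ (l + (a : G)) * 1 * φ (-(a : G) - l) +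
      ∑ b : S, -(1 / L) * φ (l + (a : G)) * (-(1 / L) * φ (l + (b : G))) *
        φ (-(a : G) - -(b : G))) = -(1 / L) * φ (l + (a : G)) ^ 2 +
      (1 / L) ^ 2 * ∑ b ∈ S, φ (l + (a : G)) * φ (l + b) * φ (b - (a : G)) := by
    intro a
    congr 1
    · have : φ (-(a : G) - l) = φ (l + a) := by
        rw [← h.1]
        congr 1
        abel
      rw [this]
      ring
    · rw [mul_sum, ← sum_coe_sort S]
      refine sum_congr rfl fun b _ => ?_
      have : (-(a : G) - -(b : G)) = (b : G) - a := by abel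
      rw [this]
      ring
  rw [e1, sum_congr rfl fun a _ => e2 a, sum_add_distrib, ← mul_sum, ← mul_sum,
    sum_coe_sort S (fun a => φ (l + a) ^ 2),
    sum_coe_sort S (fun a => ∑ b ∈ S, φ (l + a) * φ (l + b) * φ (b - a)), ← hQ, sub_self] at h1
  have h2 : (1 / L) ^ 2 * ∑ a ∈ S, ∑ b ∈ S, φ (l + a) * φ (l + b) * φ (b - a) ≤
      (1 / L) ^ 2 * (L * Q) := mul_le_mul_of_nonneg_left hgram (by positivity)
  have h3 : (1 / L) ^ 2 * (L * Q) = 1 / L * Q := by
    field_simp
  have h4 : 1 / L * Q ≤ φ 0 := by linarith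
  rw [one_div, inv_mul_le_iff₀ hL0] at h4
  exact h4

end pd

end Pool.Agent.Q167.FD
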