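import Pool.Agent.Q167.FD.Dens

/-!
# The integral over the torus
-/

set_option autoImplicit false

open Finset MeasureTheory

namespace Pool.Agent.Q167.FD

/-- the measure on the torus -/
noncomputable def mu (g : ℕ) : Measure (Fin g → ℝ) :=
  Measure.pi fun _ : Fin g => (volume : Measure ℝ).restrict (Set.Ioc 0 (2 * Real.pi))

theorem mu_eq (g : ℕ) : mu g =
    (volume : Measure (Fin g → ℝ)).restrict (Set.pi Set.univ fun _ => Set.Ioc 0 (2 * Real.pi)) := by
  unfold mu
  rw [← Measure.restrict_pi_pi]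
  rfl

instance (g : ℕ) : IsFiniteMeasure (mu g) := by
  unfold mu
  infer_instance

theorem int_exp (k : ℤ) : ∫ x in Set.Ioc (0 : ℝ) (2 * Real.pi),
    Complex.exp ((((k : ℝ) * x : ℝ) : ℂ) * Complex.I) = if k = 0 then (2 * Real.pi : ℂ) else 0 := by
  rw [← intervalIntegral.integral_of_le (by positivity)]
  split_ifs with h
  · subst h
    simp
  · have hk : ((k : ℂ) * Complex.I) ≠ 0 := mul_ne_zero (by exact_mod_cast h) Complex.I_ne_zero
    have h1 := integral_exp_mul_complex (a := 0) (b := 2 * Real.pi) hk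
    have h2 : (fun x : ℝ => Complex.exp ((((k : ℝ) * x : ℝ) : ℂ) * Complex.I)) =
        fun x : ℝ => Complex.exp ((k : ℂ) * Complex.I * x) := by
      funext x
      congr 1
      push_cast
      ring
    rw [h2, h1]
    have h3 : (k : ℂ) * Complex.I * ((2 * Real.pi : ℝ) : ℂ) = k * (2 * Real.pi * Complex.I) := by
      push_cast
      ring
    rw [h3, Complex.exp_int_mul_two_pi_mul_I]
    simp

section

variable {g : ℕ}

/-- the normalised integral -/
noncomputable def IT (f : (Fin g → ℝ) → ℂ) : ℂ := ((2 * Real.pi : ℂ) ^ g)⁻¹ * ∫ t, f t ∂(mu g)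

theorem ee_prod (b : Fin g → ℤ) (t : Fin g → ℝ) :
    ee b t = ∏ j, Complex.exp ((((b j : ℝ) * t j : ℝ) : ℂ) * Complex.I) := by
  unfold ee pr
  rw [← Complex.exp_sum, Complex.ofReal_sum, Finset.sum_mul]

theorem IT_ee (b : Fin g → ℤ) : IT (ee b) = if b = 0 then 1 else 0 := by
  classical
  unfold IT
  have h1 : ∫ t, ee b t ∂(mu g) = ∏ j, if b j = 0 then (2 * Real.pi : ℂ) else 0 := by
    have h2 := integral_fintype_prod_eq_prod (𝕜 := ℂ) (ι := Fin g) (E := fun _ => ℝ)
      (fun (j : Fin g) (x : ℝ) => Complex.exp ((((b j : ℝ) * x : ℝ) : ℂ) * Complex.I))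
      (μ := fun _ : Fin g => (volume : Measure ℝ).restrict (Set.Ioc 0 (2 * Real.pi)))
    simp_rw [int_exp] at h2
    rw [← h2]
    unfold mu
    refine integral_congr_ae (Filter.Eventually.of_forall fun t => ?_)
    exact ee_prod b t
  rw [h1]
  have hpi : (2 * Real.pi : ℂ) ≠ 0 := by
    have := Real.pi_pos
    exact_mod_cast (by positivity : (2 * Real.pi : ℝ) ≠ 0)
  split_ifs with h
  · subst h
    simp only [Pi.zero_apply, if_true, prod_const, card_univ, Fintype.card_fin]
    exact inv_mul_cancel₀ (pow_ne_zero _ hpi)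
  · obtain ⟨j, hj⟩ : ∃ j, b j ≠ 0 := by
      by_contra h2
      push Not at h2
      exact h (funext h2)
    rw [prod_eq_zero (mem_univ j) (by rw [if_neg hj]), mul_zero]

theorem norm_ee (b : Fin g → ℤ) (t : Fin g → ℝ) : ‖ee b t‖ = 1 := by
  unfold ee
  exact Complex.norm_exp_ofReal_mul_I _

theorem ee_cont (b : Fin g → ℤ) : Continuous (ee (g := g) b) := by
  unfold ee pr
  fun_prop

theorem ee_int (b : Fin g → ℤ) : Integrable (ee b) (mu g) := by
  refine Integrable.of_bound (ee_cont b).aestronglyMeasurable 1 ?_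
  exact Filter.Eventually.of_forall fun t => (norm_ee b t).le

theorem IT_sum {κ : Type} (S : Finset κ) (f : κ → (Fin g → ℝ) → ℂ)
    (h : ∀ k ∈ S, Integrable (f k) (mu g)) :
    IT (fun t => ∑ k ∈ S, f k t) = ∑ k ∈ S, IT (f k) := by
  unfold IT
  rw [integral_finsetSum S h, mul_sum]

theorem IT_mul (c : ℂ) (f : (Fin g → ℝ) → ℂ) : IT (fun t => c * f t) = c * IT f := by
  unfold IT
  rw [integral_const_mul]
  ring

/-- Fourier coefficients of the density -/
theorem IT_D (c : Fin g → ℤ) : IT (fun t => ee (-c) t * (Dn t : ℂ)) = (co (Ph g) c : ℂ) := by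
  classical
  have h1 : (fun t : Fin g → ℝ => ee (-c) t * (Dn t : ℂ)) =
      fun t => ∑ b ∈ Sp g, (co (Ph g) b : ℂ) * ee (b - c) t := by
    funext t
    rw [Dn_sum, mul_sum]
    refine sum_congr rfl fun b _ => ?_
    rw [sub_eq_add_neg, ee_add]
    ring
  rw [h1, IT_sum _ _ fun b _ => (ee_int _).const_mul _]
  simp_rw [IT_mul, IT_ee, sub_eq_zero]
  by_cases hc : c ∈ Sp g
  · rw [sum_eq_single c]
    · simp
    · intro b _ hb
      rw [if_neg hb, mul_zero]
    · intro h
      exact absurd hc h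
  · rw [co_zero_of hc, Int.cast_zero]
    refine sum_eq_zero fun b hb => ?_
    rw [if_neg, mul_zero]
    rintro rfl
    exact hc hb

/-- signs -/
def sg (b : Bool) : ℤ := if b then 1 else -1

theorem sg_sq (b : Bool) : sg b * sg b = 1 := by
  cases b <;> rfl

/-- the Weyl group -/
abbrev Wg (g : ℕ) : Type := Equiv.Perm (Fin g) × (Fin g → Bool)

/-- the action on the weights -/
def act (w : Wg g) (a : Fin g → ℤ) (i : Fin g) : ℤ := sg (w.2 (w.1.symm i)) * a (w.1.symm i)

/-- the action on the angles -/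
noncomputable def tw (w : Wg g) (t : Fin g → ℝ) (j : Fin g) : ℝ := sg (w.2 j) * t (w.1 j)

theorem pr_act (w : Wg g) (a : Fin g → ℤ) (t : Fin g → ℝ) : pr (act w a) t = pr a (tw w t) := by
  unfold pr act tw
  rw [← Equiv.sum_comp w.1]
  refine sum_congr rfl fun j _ => ?_
  rw [Equiv.symm_apply_apply]
  push_cast
  ring

theorem ee_act (w : Wg g) (a : Fin g → ℤ) (t : Fin g → ℝ) : ee (act w a) t = ee a (tw w t) := by
  unfold ee
  rw [pr_act]

theorem act_inj (w : Wg g) : Function.Injective (act w) := by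
  intro a b h
  funext j
  have h1 := congrFun h (w.1 j)
  unfold act at h1
  rw [Equiv.symm_apply_apply] at h1
  have h2 := congrArg (fun x => sg (w.2 j) * x) h1
  simp only [← mul_assoc, sg_sq, one_mul] at h2
  exact h2

theorem act_zero (w : Wg g) : act w 0 = 0 := by
  funext i
  simp [act]

theorem act_neg (w : Wg g) (a : Fin g → ℤ) : act w (-a) = -act w a := by
  funext i
  simp [act]

theorem cos_sg (b : Bool) (x : ℝ) : Real.cos (sg b * x) = Real.cos x := by
  cases b <;> simp [sg]

theorem sin_sg (b : Bool) (x : ℝ) : Real.sin (sg b * x) ^ 2 = Real.sin x ^ 2 := by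
  cases b <;> simp [sg]

/-- the invariance of the density -/
theorem Dn_tw (w : Wg g) (t : Fin g → ℝ) : Dn (tw w t) = Dn t := by
  unfold Dn tw
  simp only [cos_sg, sin_sg]
  congr 1
  · have key : ∀ y : Fin g → ℝ, ∏ i : Fin g, ∏ j ∈ Finset.Ioi i, (y i - y j) ^ 2 =
        (Matrix.vandermonde y).det ^ 2 := by
      intro y
      rw [Matrix.det_vandermonde, ← prod_pow]
      refine prod_congr rfl fun i _ => ?_
      rw [← prod_pow]
      refine prod_congr rfl fun j _ => ?_
      ring
    rw [key fun i => 2 * Real.cos (t (w.1 i)), key fun i => 2 * Real.cos (t i)]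
    have h1 : Matrix.vandermonde (fun i => 2 * Real.cos (t (w.1 i))) =
        (Matrix.vandermonde fun i => 2 * Real.cos (t i)).submatrix w.1 id := by
      ext i j
      simp [Matrix.vandermonde]
    rw [h1, Matrix.det_permute, mul_pow]
    have h2 : (((Equiv.Perm.sign w.1 : ℤˣ) : ℤ) : ℝ) ^ 2 = 1 := by
      rcases Int.units_eq_one_or (Equiv.Perm.sign w.1) with h | h <;> rw [h] <;> simp
    rw [h2, one_mul]
  · exact Equiv.prod_comp w.1 fun i => 4 * Real.sin (t i) ^ 2

/-- **The invariance of the coefficients.** -/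
theorem co_act (w : Wg g) (a : Fin g → ℤ) : co (Ph g) (act w a) = co (Ph g) a := by
  classical
  have h0 := IT_D (act w a)
  have h1 : (fun t : Fin g → ℝ => ee (-act w a) t * (Dn t : ℂ)) =
      fun t => ∑ b ∈ Sp g, (co (Ph g) b : ℂ) * ee (act w b - act w a) t := by
    funext t
    rw [← Dn_tw w, Dn_sum, mul_sum]
    refine sum_congr rfl fun b _ => ?_
    rw [← ee_act, sub_eq_add_neg, ee_add]
    ring
  rw [h1, IT_sum _ _ fun b _ => (ee_int _).const_mul _] at h0
  simp_rw [IT_mul, IT_ee, sub_eq_zero, (act_inj w).eq_iff] at h0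
  have h2 : ∑ b ∈ Sp g, (co (Ph g) b : ℂ) * (if b = a then 1 else 0) = (co (Ph g) a : ℂ) := by
    by_cases hc : a ∈ Sp g
    · rw [sum_eq_single a]
      · simp
      · intro b _ hb
        rw [if_neg hb, mul_zero]
      · intro h
        exact absurd hc h
    · rw [co_zero_of hc, Int.cast_zero]
      refine sum_eq_zero fun b hb => ?_
      rw [if_neg, mul_zero]
      rintro rfl
      exact hc hb
  rw [h2] at h0
  exact_mod_cast h0.symm

/-- the negative -/
theorem co_neg (a : Fin g → ℤ) : co (Ph g) (-a) = co (Ph g) a := by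
  have h1 := co_act (g := g) (1, fun _ => false) a
  have h2 : act (g := g) (1, fun _ => false) a = -a := by
    funext i
    show sg false * a i = -a i
    simp [sg]
  rw [h2] at h1
  exact h1

/-- the orbit sums as sums of characters -/
theorem ms_ee (a : Fin g → ℤ) (t : Fin g → ℝ) : (ms a t : ℂ) = ∑ w : Wg g, ee (act w a) t := by
  unfold ms
  rw [Fintype.sum_prod_type]
  push_cast
  refine sum_congr rfl fun σ _ => ?_
  have h1 : ∀ j, (2 * Complex.cos ((a j : ℂ) * (t (σ j) : ℂ)) : ℂ) =
      ∑ b ∈ (univ : Finset Bool), Complex.exp ((((sg b : ℝ) * (a j * t (σ j)) : ℝ) : ℂ) *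
        Complex.I) := by
    intro j
    rw [Fintype.sum_bool, Complex.cos, mul_div_cancel₀ _ (two_ne_zero)]
    simp only [sg, if_true, Bool.false_eq_true, if_false]
    push_cast
    ring_nf
  rw [prod_congr rfl fun j _ => h1 j, Finset.prod_univ_sum, Fintype.piFinset_univ]
  refine sum_congr rfl fun s _ => ?_
  rw [ee_act, ee_prod]
  refine prod_congr rfl fun j _ => ?_
  congr 2
  unfold tw
  push_cast
  ring

theorem ms_cos (a : Fin g → ℤ) (t : Fin g → ℝ) : ms a t = ∑ w : Wg g, Real.cos (pr (act w a) t) := by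
  have h1 := congrArg Complex.re (ms_ee a t)
  rw [Complex.ofReal_re, Complex.re_sum] at h1
  rw [h1]
  refine sum_congr rfl fun w _ => ?_
  unfold ee
  exact Complex.exp_ofReal_mul_I_re _

theorem card_Wg : Fintype.card (Wg g) = 2 ^ g * g.factorial := by
  rw [Fintype.card_prod, Fintype.card_perm, Fintype.card_fin, Fintype.card_fun, Fintype.card_bool,
    Fintype.card_fin, mul_comm]

/-- the integral of the orbit sums -/
theorem IT_ms (a : Fin g → ℤ) : IT (fun t => (ms a t : ℂ) * (Dn t : ℂ)) =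
    ((2 ^ g * g.factorial : ℕ) : ℂ) * (co (Ph g) a : ℂ) := by
  have h1 : (fun t : Fin g → ℝ => (ms a t : ℂ) * (Dn t : ℂ)) =
      fun t => ∑ w : Wg g, ee (-(act w (-a))) t * (Dn t : ℂ) := by
    funext t
    rw [ms_ee, sum_mul]
    refine sum_congr rfl fun w _ => ?_
    rw [act_neg, neg_neg]
  have hint : ∀ c : Fin g → ℤ, Integrable (fun t : Fin g → ℝ => ee (-c) t * (Dn t : ℂ)) (mu g) := by
    intro c
    have h1 : (fun t : Fin g → ℝ => ee (-c) t * (Dn t : ℂ)) =
        fun t => ∑ b ∈ Sp g, (co (Ph g) b : ℂ) * ee (b - c) t := by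
      funext t
      rw [Dn_sum, mul_sum]
      refine sum_congr rfl fun b _ => ?_
      rw [sub_eq_add_neg, ee_add]
      ring
    rw [h1]
    exact integrable_finsetSum _ fun b _ => (ee_int _).const_mul _
  rw [h1, IT_sum _ _ fun w _ => hint _]
  simp_rw [IT_D, co_act, co_neg]
  rw [sum_const, card_univ, card_Wg, nsmul_eq_mul]

end

end Pool.Agent.Q167.FD
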