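import Pool.Agent.Q167.FD.Mn

/-!
# The law of Weyl
-/

set_option autoImplicit false

open Finset MeasureTheory

namespace Pool.Agent.Q167.FD

section

variable {g : ℕ}

theorem Dn_cont : Continuous (Dn (g := g)) := by
  unfold Dn
  fun_prop

theorem Dn_int : Integrable (Dn (g := g)) (mu g) := by
  refine Integrable.of_bound Dn_cont.aestronglyMeasurable (∑ b ∈ Sp g, |(co (Ph g) b : ℝ)|) ?_
  refine Filter.Eventually.of_forall fun t => ?_
  have h1 : ‖(Dn t : ℂ)‖ ≤ ∑ b ∈ Sp g, |(co (Ph g) b : ℝ)| := by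
    rw [Dn_sum]
    refine (norm_sum_le _ _).trans (sum_le_sum fun b _ => ?_)
    rw [norm_mul, norm_ee, mul_one, Complex.norm_intCast]
  rwa [Complex.norm_real] at h1

theorem mul_int {f : (Fin g → ℝ) → ℝ} (hf : Bc f) : Integrable (fun t => f t * Dn t) (mu g) := by
  obtain ⟨h1, B, hB⟩ := hf
  exact Dn_int.bdd_mul (c := B) h1.aestronglyMeasurable (Filter.Eventually.of_forall hB)

/-- the integration formula of Weyl -/
noncomputable def weyl (g : ℕ) (f : (Fin g → ℝ) → ℝ) : ℝ :=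
  ((2 ^ g * g.factorial : ℕ) : ℝ)⁻¹ * (((2 * Real.pi) ^ g)⁻¹ *
    ∫ t in Set.pi Set.univ fun _ : Fin g => Set.Ioc (0 : ℝ) (2 * Real.pi), f t * Dn t)

theorem weyl_eq (f : (Fin g → ℝ) → ℝ) : weyl g f = ((2 ^ g * g.factorial : ℕ) : ℝ)⁻¹ *
    (((2 * Real.pi) ^ g)⁻¹ * ∫ t, f t * Dn t ∂(mu g)) := by
  unfold weyl
  rw [mu_eq]

theorem weyl_mj : Mj (weyl g) where
  add f h hf hh := by
    rw [weyl_eq, weyl_eq, weyl_eq, ← mul_add, ← mul_add, ← integral_add (mul_int hf) (mul_int hh)]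
    congr 3
    funext t
    ring
  smul c f hf := by
    rw [weyl_eq, weyl_eq]
    have : (fun t => c * f t * Dn t) = fun t => c * (f t * Dn t) := by
      funext t
      ring
    rw [this, integral_const_mul]
    ring
  le f B hf hB := by
    have hpi := Real.pi_pos
    have h1 : |∫ t, f t * Dn t ∂(mu g)| ≤ B * ((g.factorial : ℝ) * (4 * Real.pi) ^ g) := by
      rw [← int_Dn, ← Real.norm_eq_abs, ← integral_const_mul]
      refine norm_integral_le_of_norm_le (Dn_int.const_mul B) ?_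
      refine Filter.Eventually.of_forall fun t => ?_
      rw [norm_mul, Real.norm_eq_abs, Real.norm_of_nonneg (Dn_nonneg t)]
      exact mul_le_mul_of_nonneg_right (hB t) (Dn_nonneg t)
    have hfac : (0 : ℝ) < g.factorial := by exact_mod_cast g.factorial_pos
    rw [weyl_eq, abs_mul, abs_mul, abs_of_nonneg (by positivity), abs_of_nonneg (by positivity)]
    calc ((2 ^ g * g.factorial : ℕ) : ℝ)⁻¹ * (((2 * Real.pi) ^ g)⁻¹ * |∫ t, f t * Dn t ∂(mu g)|) ≤
        ((2 ^ g * g.factorial : ℕ) : ℝ)⁻¹ * (((2 * Real.pi) ^ g)⁻¹ *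
          (B * ((g.factorial : ℝ) * (4 * Real.pi) ^ g))) := by gcongr
      _ = B := by
        rw [show (4 * Real.pi) = 2 * (2 * Real.pi) by ring, mul_pow 2 (2 * Real.pi)]
        push_cast
        field_simp

/-- **The integrals of the orbit sums.** -/
theorem weyl_ms (a : Fin g → ℤ) : weyl g (ms a) = co (Ph g) a := by
  have h1 := IT_ms a
  unfold IT at h1
  have h2 : (fun t : Fin g → ℝ => (ms a t : ℂ) * (Dn t : ℂ)) = fun t => ((ms a t * Dn t : ℝ) : ℂ) := by
    funext t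
    push_cast
    rfl
  rw [h2, integral_complex_ofReal] at h1
  have h3 : ((2 * Real.pi) ^ g)⁻¹ * ∫ t, ms a t * Dn t ∂(mu g) =
      ((2 ^ g * g.factorial : ℕ) : ℝ) * (co (Ph g) a : ℝ) := by
    have h4 := congrArg Complex.re h1
    have e1 : (((2 * Real.pi : ℂ) ^ g)⁻¹ * ((∫ t, ms a t * Dn t ∂(mu g) : ℝ) : ℂ)) =
        ((((2 * Real.pi) ^ g)⁻¹ * ∫ t, ms a t * Dn t ∂(mu g) : ℝ) : ℂ) := by
      push_cast
      rfl
    have e2 : (((2 ^ g * g.factorial : ℕ) : ℂ) * (co (Ph g) a : ℂ)) =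
        ((((2 ^ g * g.factorial : ℕ) : ℝ) * (co (Ph g) a : ℝ) : ℝ) : ℂ) := by
      push_cast
      rfl
    rw [e1, e2, Complex.ofReal_re, Complex.ofReal_re] at h4
    exact h4
  have hfac : (((2 ^ g * g.factorial : ℕ)) : ℝ) ≠ 0 := by
    have : 2 ^ g * g.factorial ≠ 0 := mul_ne_zero (by positivity) g.factorial_ne_zero
    exact_mod_cast this
  rw [weyl_eq, h3, ← mul_assoc, inv_mul_cancel₀ hfac, one_mul]

theorem ms_zero (t : Fin g → ℝ) : ms 0 t = ((2 ^ g * g.factorial : ℕ) : ℝ) := by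
  unfold ms
  simp [Fintype.card_perm, mul_comm]

/-- **The law of Weyl is a probability law.** -/
theorem weyl_one : weyl g (fun _ => 1) = 1 := by
  have h1 := weyl_ms (0 : Fin g → ℤ)
  have h2 : ms (0 : Fin g → ℤ) = fun t => ((2 ^ g * g.factorial : ℕ) : ℝ) * (fun _ => 1) t := by
    funext t
    rw [ms_zero, mul_one]
  rw [h2, weyl_mj.smul _ _ (Bc.const 1), co_zero] at h1
  have hfac : (((2 ^ g * g.factorial : ℕ)) : ℝ) ≠ 0 := by
    have : 2 ^ g * g.factorial ≠ 0 := mul_ne_zero (by positivity) g.factorial_ne_zero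
    exact_mod_cast this
  have h3 : ((((2 ^ g * g.factorial : ℕ) : ℤ)) : ℝ) = ((2 ^ g * g.factorial : ℕ) : ℝ) := by
    push_cast
    rfl
  rw [h3] at h1
  exact mul_left_cancel₀ hfac (h1.trans (mul_one _).symm)

end

end Pool.Agent.Q167.FD
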